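import Pool.Agent.Helper36.WR.Dep

set_option autoImplicit false

/-!
Changes of coordinates.
-/

namespace Pool.Agent.Helper36.WR

open Finset

theorem eps_det (g : Matrix (Fin 3) (Fin 3) ℂ) (i i' i'' : Fin 3) :
    ∑ k, ∑ k', ∑ k'', g i k * g i' k' * g i'' k'' * eps k k' k'' = g.det * eps i i' i'' := by
  fin_cases i <;> fin_cases i' <;> fin_cases i'' <;>
    (simp only [Fin.sum_univ_three, eps, Matrix.det_fin_three, Fin.zero_eta, Fin.mk_one,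
      Fin.reduceFinMk, Fin.val_zero, Fin.val_one, Fin.val_two, Fin.isValue]
     push_cast
     ring)

namespace Dat

variable {r : ℕ} (D : Dat r)

/-- The transposed decomposition. -/
def tr : Dat r where
  W := D.W
  L := fun a => (D.L a).transpose
  hW := D.hW
  h0 := D.h0
  mom := fun i j i' j' i'' j'' => by
    have := D.mom j i j' i' j'' i''
    rw [mul_comm (eps i i' i'')]
    exact this

/-- Row and column operations preserving the upper left entry. -/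
def act (g h : Matrix (Fin 3) (Fin 3) ℂ) (hg0 : g 0 0 = 1) (hg1 : g 0 1 = 0) (hg2 : g 0 2 = 0)
    (hh0 : h 0 0 = 1) (hh1 : h 1 0 = 0) (hh2 : h 2 0 = 0) (hd : g.det * h.det = 1) : Dat r where
  W := D.W
  L := fun a => g * D.L a * h
  hW := D.hW
  h0 := fun a => by
    simp only [Matrix.mul_apply, Fin.sum_univ_three, hg0, hg1, hg2, hh0, hh1, hh2, D.h0]
    ring
  mom := by
    intro i j i' j' i'' j''
    have e : ∀ a, D.W a * ((g * D.L a * h) i j * (g * D.L a * h) i' j' * (g * D.L a * h) i'' j'') =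
        ∑ k, ∑ k', ∑ k'', ∑ l, ∑ l', ∑ l'', (g i k * g i' k' * g i'' k'') *
          (h l j * h l' j' * h l'' j'') * (D.W a * (D.L a k l * D.L a k' l' * D.L a k'' l'')) := by
      intro a
      simp only [Matrix.mul_apply, Fin.sum_univ_three]
      ring
    rw [Finset.sum_congr rfl fun a _ => e a]
    have e2 : ∑ a, ∑ k, ∑ k', ∑ k'', ∑ l, ∑ l', ∑ l'', (g i k * g i' k' * g i'' k'') *
          (h l j * h l' j' * h l'' j'') * (D.W a * (D.L a k l * D.L a k' l' * D.L a k'' l'')) =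
        ∑ k, ∑ k', ∑ k'', ∑ l, ∑ l', ∑ l'', (g i k * g i' k' * g i'' k'') *
          (h l j * h l' j' * h l'' j'') * (eps k k' k'' * eps l l' l'') := by
      rw [Finset.sum_comm]; refine Finset.sum_congr rfl fun k _ => ?_
      rw [Finset.sum_comm]; refine Finset.sum_congr rfl fun k' _ => ?_
      rw [Finset.sum_comm]; refine Finset.sum_congr rfl fun k'' _ => ?_
      rw [Finset.sum_comm]; refine Finset.sum_congr rfl fun l _ => ?_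
      rw [Finset.sum_comm]; refine Finset.sum_congr rfl fun l' _ => ?_
      rw [Finset.sum_comm]; refine Finset.sum_congr rfl fun l'' _ => ?_
      rw [← Finset.mul_sum, D.mom]
    rw [e2]
    have e3 : ∑ k, ∑ k', ∑ k'', ∑ l, ∑ l', ∑ l'', (g i k * g i' k' * g i'' k'') *
          (h l j * h l' j' * h l'' j'') * (eps k k' k'' * eps l l' l'') =
        (∑ k, ∑ k', ∑ k'', g i k * g i' k' * g i'' k'' * eps k k' k'') *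
          (∑ l, ∑ l', ∑ l'', h.transpose j l * h.transpose j' l' * h.transpose j'' l'' *
            eps l l' l'') := by
      simp only [Finset.sum_mul]
      refine Finset.sum_congr rfl fun k _ => Finset.sum_congr rfl fun k' _ =>
        Finset.sum_congr rfl fun k'' _ => ?_
      simp only [Finset.mul_sum, Matrix.transpose_apply]
      refine Finset.sum_congr rfl fun l _ => Finset.sum_congr rfl fun l' _ =>
        Finset.sum_congr rfl fun l'' _ => ?_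
      ring
    rw [e3, eps_det, eps_det, Matrix.det_transpose]
    linear_combination (eps i i' i'' * eps j j' j'') * hd

/-- Row and column operations in coordinates. -/
def tf (α₁ α₂ β₁ β₂ g₁₁ g₁₂ g₂₁ g₂₂ h₁₁ h₁₂ h₂₁ h₂₂ : ℂ)
    (hd : (g₁₁ * g₂₂ - g₁₂ * g₂₁) * (h₁₁ * h₂₂ - h₁₂ * h₂₁) = 1) : Dat r :=
  D.act !![1, 0, 0; α₁, g₁₁, g₁₂; α₂, g₂₁, g₂₂] !![1, β₁, β₂; 0, h₁₁, h₂₁; 0, h₁₂, h₂₂]
    (by simp) (by simp) (by simp) (by simp) (by simp) (by simp)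
    (by simp only [Matrix.det_fin_three]; simp; linear_combination hd)

section

variable (α₁ α₂ β₁ β₂ g₁₁ g₁₂ g₂₁ g₂₂ h₁₁ h₁₂ h₂₁ h₂₂ : ℂ)
  (hd : (g₁₁ * g₂₂ - g₁₂ * g₂₁) * (h₁₁ * h₂₂ - h₁₂ * h₂₁) = 1) (a : Fin r)

theorem tf_phi (f : Fin r → ℂ) :
    (D.tf α₁ α₂ β₁ β₂ g₁₁ g₁₂ g₂₁ g₂₂ h₁₁ h₁₂ h₂₁ h₂₂ hd).phi f = D.phi f := rfl

theorem tf_X : (D.tf α₁ α₂ β₁ β₂ g₁₁ g₁₂ g₂₁ g₂₂ h₁₁ h₁₂ h₂₁ h₂₂ hd).X a =
    α₁ + g₁₁ * D.X a + g₁₂ * D.Y a := by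
  simp only [tf, act, X, Y, Matrix.mul_apply, Fin.sum_univ_three]
  simp [D.h0]

theorem tf_Y : (D.tf α₁ α₂ β₁ β₂ g₁₁ g₁₂ g₂₁ g₂₂ h₁₁ h₁₂ h₂₁ h₂₂ hd).Y a =
    α₂ + g₂₁ * D.X a + g₂₂ * D.Y a := by
  simp only [tf, act, X, Y, Matrix.mul_apply, Fin.sum_univ_three]
  simp [D.h0]

theorem tf_S : (D.tf α₁ α₂ β₁ β₂ g₁₁ g₁₂ g₂₁ g₂₂ h₁₁ h₁₂ h₂₁ h₂₂ hd).S a =
    β₁ + h₁₁ * D.S a + h₁₂ * D.T a := by
  simp only [tf, act, S, T, Matrix.mul_apply, Fin.sum_univ_three]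
  simp [D.h0]; ring

theorem tf_T : (D.tf α₁ α₂ β₁ β₂ g₁₁ g₁₂ g₂₁ g₂₂ h₁₁ h₁₂ h₂₁ h₂₂ hd).T a =
    β₂ + h₂₁ * D.S a + h₂₂ * D.T a := by
  simp only [tf, act, S, T, Matrix.mul_apply, Fin.sum_univ_three]
  simp [D.h0]; ring

theorem tf_N11 : (D.tf α₁ α₂ β₁ β₂ g₁₁ g₁₂ g₂₁ g₂₂ h₁₁ h₁₂ h₂₁ h₂₂ hd).N11 a =
    α₁ * (β₁ + h₁₁ * D.S a + h₁₂ * D.T a) + g₁₁ * (β₁ * D.X a + h₁₁ * D.N11 a + h₁₂ * D.N12 a)
      + g₁₂ * (β₁ * D.Y a + h₁₁ * D.N21 a + h₁₂ * D.N22 a) := by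
  simp only [tf, act, X, Y, S, T, N11, N12, N21, N22, Matrix.mul_apply, Fin.sum_univ_three]
  simp [D.h0]; ring

theorem tf_N12 : (D.tf α₁ α₂ β₁ β₂ g₁₁ g₁₂ g₂₁ g₂₂ h₁₁ h₁₂ h₂₁ h₂₂ hd).N12 a =
    α₁ * (β₂ + h₂₁ * D.S a + h₂₂ * D.T a) + g₁₁ * (β₂ * D.X a + h₂₁ * D.N11 a + h₂₂ * D.N12 a)
      + g₁₂ * (β₂ * D.Y a + h₂₁ * D.N21 a + h₂₂ * D.N22 a) := by
  simp only [tf, act, X, Y, S, T, N11, N12, N21, N22, Matrix.mul_apply, Fin.sum_univ_three]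
  simp [D.h0]; ring

theorem tf_N21 : (D.tf α₁ α₂ β₁ β₂ g₁₁ g₁₂ g₂₁ g₂₂ h₁₁ h₁₂ h₂₁ h₂₂ hd).N21 a =
    α₂ * (β₁ + h₁₁ * D.S a + h₁₂ * D.T a) + g₂₁ * (β₁ * D.X a + h₁₁ * D.N11 a + h₁₂ * D.N12 a)
      + g₂₂ * (β₁ * D.Y a + h₁₁ * D.N21 a + h₁₂ * D.N22 a) := by
  simp only [tf, act, X, Y, S, T, N11, N12, N21, N22, Matrix.mul_apply, Fin.sum_univ_three]
  simp [D.h0]; ring

theorem tf_N22 : (D.tf α₁ α₂ β₁ β₂ g₁₁ g₁₂ g₂₁ g₂₂ h₁₁ h₁₂ h₂₁ h₂₂ hd).N22 a =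
    α₂ * (β₂ + h₂₁ * D.S a + h₂₂ * D.T a) + g₂₁ * (β₂ * D.X a + h₂₁ * D.N11 a + h₂₂ * D.N12 a)
      + g₂₂ * (β₂ * D.Y a + h₂₁ * D.N21 a + h₂₂ * D.N22 a) := by
  simp only [tf, act, X, Y, S, T, N11, N12, N21, N22, Matrix.mul_apply, Fin.sum_univ_three]
  simp [D.h0]; ring

/-- Affine functions for the new coordinates are affine for the old ones. -/
theorem tf_inA {f : Fin r → ℂ}
    (hf : (D.tf α₁ α₂ β₁ β₂ g₁₁ g₁₂ g₂₁ g₂₂ h₁₁ h₁₂ h₂₁ h₂₂ hd).inA f) : D.inA f := by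
  obtain ⟨c0, c1, c2, c3, c4, h⟩ := hf
  refine ⟨c0 + c1 * α₁ + c2 * α₂ + c3 * β₁ + c4 * β₂, c1 * g₁₁ + c2 * g₂₁, c1 * g₁₂ + c2 * g₂₂,
    c3 * h₁₁ + c4 * h₂₁, c3 * h₁₂ + c4 * h₂₂, fun a => ?_⟩
  rw [h a, tf_X, tf_Y, tf_S, tf_T]
  ring

/-- Affine functions for the old coordinates are affine for the new ones. -/
theorem inA_tf {f : Fin r → ℂ} (hf : D.inA f) :
    (D.tf α₁ α₂ β₁ β₂ g₁₁ g₁₂ g₂₁ g₂₂ h₁₁ h₁₂ h₂₁ h₂₂ hd).inA f := by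
  obtain ⟨c0, c1, c2, c3, c4, h⟩ := hf
  have hg : g₁₁ * g₂₂ - g₁₂ * g₂₁ ≠ 0 := fun h => by rw [h, zero_mul] at hd; exact zero_ne_one hd
  have hh : h₁₁ * h₂₂ - h₁₂ * h₂₁ ≠ 0 := fun h => by rw [h, mul_zero] at hd; exact zero_ne_one hd
  set Δ := g₁₁ * g₂₂ - g₁₂ * g₂₁ with hΔ
  set E := h₁₁ * h₂₂ - h₁₂ * h₂₁ with hE
  refine ⟨c0 - c1 * ((g₂₂ * α₁ - g₁₂ * α₂) / Δ) - c2 * ((g₁₁ * α₂ - g₂₁ * α₁) / Δ)
      - c3 * ((h₂₂ * β₁ - h₁₂ * β₂) / E) - c4 * ((h₁₁ * β₂ - h₂₁ * β₁) / E),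
    (c1 * g₂₂ - c2 * g₂₁) / Δ, (c2 * g₁₁ - c1 * g₁₂) / Δ,
    (c3 * h₂₂ - c4 * h₂₁) / E, (c4 * h₁₁ - c3 * h₁₂) / E, fun a => ?_⟩
  rw [h a, tf_X, tf_Y, tf_S, tf_T]
  field_simp
  rw [hΔ, hE]
  ring

end

end Dat

end Pool.Agent.Helper36.WR
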