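import Mathlib

set_option autoImplicit false

/-!
Normalised power sum decompositions of the `3 × 3` determinant: the moment functional.
-/

namespace Pool.Agent.Helper36.WR

open Finset

/-- The alternating symbol on three indices. -/
noncomputable def eps (i j k : Fin 3) : ℂ :=
  (((j : ℕ) : ℂ) - ((i : ℕ) : ℂ)) * (((k : ℕ) : ℂ) - ((i : ℕ) : ℂ)) *
    (((k : ℕ) : ℂ) - ((j : ℕ) : ℂ)) / 2

/-- A normalised decomposition: matrices with upper left entry `1`, nonzero weights and the third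
moments of the determinant. -/
structure Dat (r : ℕ) where
  /-- the weights -/
  W : Fin r → ℂ
  /-- the matrices -/
  L : Fin r → Matrix (Fin 3) (Fin 3) ℂ
  hW : ∀ a, W a ≠ 0
  h0 : ∀ a, L a 0 0 = 1
  mom : ∀ i j i' j' i'' j'', ∑ a, W a * (L a i j * L a i' j' * L a i'' j'') =
    eps i i' i'' * eps j j' j''

namespace Dat

variable {r : ℕ} (D : Dat r)

/-- The moment functional. -/
noncomputable def phi (f : Fin r → ℂ) : ℂ := ∑ a, D.W a * f a

/-- the entry `(1,0)` -/
def X (a : Fin r) : ℂ := D.L a 1 0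
/-- the entry `(2,0)` -/
def Y (a : Fin r) : ℂ := D.L a 2 0
/-- the entry `(0,1)` -/
def S (a : Fin r) : ℂ := D.L a 0 1
/-- the entry `(0,2)` -/
def T (a : Fin r) : ℂ := D.L a 0 2
/-- the entry `(1,1)` -/
def N11 (a : Fin r) : ℂ := D.L a 1 1
/-- the entry `(1,2)` -/
def N12 (a : Fin r) : ℂ := D.L a 1 2
/-- the entry `(2,1)` -/
def N21 (a : Fin r) : ℂ := D.L a 2 1
/-- the entry `(2,2)` -/
def N22 (a : Fin r) : ℂ := D.L a 2 2

/-- Functions orthogonal to all entries. -/
def inK (f : Fin r → ℂ) : Prop := ∀ i j, D.phi (fun a => f a * D.L a i j) = 0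

/-- Affine functions of `X, Y, S, T`. -/
def inA (f : Fin r → ℂ) : Prop :=
  ∃ c0 c1 c2 c3 c4 : ℂ, ∀ a, f a = c0 + c1 * D.X a + c2 * D.Y a + c3 * D.S a + c4 * D.T a

/-- The moments of the monomials in `X, Y, S, T`. -/
noncomputable def q (i j k l : ℕ) : ℂ :=
  D.phi (fun a => D.X a ^ i * D.Y a ^ j * D.S a ^ k * D.T a ^ l)

/-- element of `K` -/
def XX (a : Fin r) : ℂ := D.X a * D.X a
/-- element of `K` -/
def XY (a : Fin r) : ℂ := D.X a * D.Y a
/-- element of `K` -/
def YY (a : Fin r) : ℂ := D.Y a * D.Y a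
/-- element of `K` -/
def SS (a : Fin r) : ℂ := D.S a * D.S a
/-- element of `K` -/
def ST (a : Fin r) : ℂ := D.S a * D.T a
/-- element of `K` -/
def TT (a : Fin r) : ℂ := D.T a * D.T a
/-- element of `K` -/
def B11 (a : Fin r) : ℂ := D.X a * D.S a + D.N11 a
/-- element of `K` -/
def B12 (a : Fin r) : ℂ := D.X a * D.T a + D.N12 a
/-- element of `K` -/
def B21 (a : Fin r) : ℂ := D.Y a * D.S a + D.N21 a
/-- element of `K` -/
def B22 (a : Fin r) : ℂ := D.Y a * D.T a + D.N22 a

theorem phi_congr {f g : Fin r → ℂ} (h : ∀ a, f a = g a) : D.phi f = D.phi g := by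
  have : f = g := funext h
  rw [this]

theorem phi_add (f g : Fin r → ℂ) : D.phi (fun a => f a + g a) = D.phi f + D.phi g := by
  simp [phi, mul_add, Finset.sum_add_distrib]

theorem phi_sub (f g : Fin r → ℂ) : D.phi (fun a => f a - g a) = D.phi f - D.phi g := by
  simp [phi, mul_sub, Finset.sum_sub_distrib]

theorem phi_smul (c : ℂ) (f : Fin r → ℂ) : D.phi (fun a => c * f a) = c * D.phi f := by
  simp only [phi, Finset.mul_sum]
  exact Finset.sum_congr rfl fun a _ => by ring

theorem phi_zero {f : Fin r → ℂ} (h : ∀ a, f a = 0) : D.phi f = 0 := by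
  simp [phi, h]

/-- Linearity in a convenient form. -/
theorem phi_lin {n : ℕ} (c : Fin n → ℂ) (m : Fin n → Fin r → ℂ) {F : Fin r → ℂ}
    (h : ∀ a, F a = ∑ i, c i * m i a) : D.phi F = ∑ i, c i * D.phi (m i) := by
  rw [D.phi_congr h]
  simp only [phi, Finset.mul_sum]
  rw [Finset.sum_comm]
  exact Finset.sum_congr rfl fun i _ => Finset.sum_congr rfl fun a _ => by ring

/-- Third moments. -/
theorem phi3 (i j i' j' i'' j'' : Fin 3) :
    D.phi (fun a => D.L a i j * D.L a i' j' * D.L a i'' j'') = eps i i' i'' * eps j j' j'' :=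
  D.mom i j i' j' i'' j''

theorem phi2 (i j i' j' : Fin 3) :
    D.phi (fun a => D.L a i j * D.L a i' j') = eps 0 i i' * eps 0 j j' := by
  rw [← D.phi3 0 0 i j i' j']
  exact D.phi_congr fun a => by rw [D.h0 a, one_mul]

theorem phi1 (i j : Fin 3) : D.phi (fun a => D.L a i j) = eps 0 0 i * eps 0 0 j := by
  rw [← D.phi2 0 0 i j]
  exact D.phi_congr fun a => by rw [D.h0 a, one_mul]

theorem phi_one : D.phi (fun _ => 1) = 0 := by
  have := D.phi1 0 0
  rw [D.phi_congr (f := fun a => D.L a 0 0) (g := fun _ => 1) (fun a => D.h0 a)] at this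
  rw [this]; simp [eps]

/-- The symmetric products of entries lie in `K`. -/
theorem sym_inK (i i' j j' : Fin 3) :
    D.inK (fun a => D.L a i j * D.L a i' j' + D.L a i j' * D.L a i' j) := by
  intro k l
  have h : D.phi (fun a => (D.L a i j * D.L a i' j' + D.L a i j' * D.L a i' j) * D.L a k l) =
      D.phi (fun a => D.L a i j * D.L a i' j' * D.L a k l) +
        D.phi (fun a => D.L a i j' * D.L a i' j * D.L a k l) := by
    rw [← D.phi_add]
    exact D.phi_congr fun a => by ring
  rw [h, D.phi3, D.phi3]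
  have : eps j' j l = - eps j j' l := by unfold eps; ring
  rw [this]; ring

theorem inK_add {f g : Fin r → ℂ} (hf : D.inK f) (hg : D.inK g) : D.inK (fun a => f a + g a) := by
  intro i j
  have : D.phi (fun a => (f a + g a) * D.L a i j) =
      D.phi (fun a => f a * D.L a i j) + D.phi (fun a => g a * D.L a i j) := by
    rw [← D.phi_add]; exact D.phi_congr fun a => by ring
  rw [this, hf i j, hg i j, add_zero]

theorem inK_smul (c : ℂ) {f : Fin r → ℂ} (hf : D.inK f) : D.inK (fun a => c * f a) := by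
  intro i j
  have : D.phi (fun a => (c * f a) * D.L a i j) = c * D.phi (fun a => f a * D.L a i j) := by
    rw [← D.phi_smul]; exact D.phi_congr fun a => by ring
  rw [this, hf i j, mul_zero]

theorem inK_congr {f g : Fin r → ℂ} (h : ∀ a, f a = g a) (hf : D.inK f) : D.inK g := by
  have : f = g := funext h
  rwa [← this]

theorem inK_X : D.inK D.X := by
  refine D.inK_congr (fun a => ?_) (D.inK_smul (1 / 2) (D.sym_inK 0 1 0 0))
  simp only [X, D.h0]; ring

theorem inK_Y : D.inK D.Y := by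
  refine D.inK_congr (fun a => ?_) (D.inK_smul (1 / 2) (D.sym_inK 0 2 0 0))
  simp only [Y, D.h0]; ring

theorem inK_S : D.inK D.S := by
  refine D.inK_congr (fun a => ?_) (D.inK_smul (1 / 2) (D.sym_inK 0 0 0 1))
  simp only [S, D.h0]; ring

theorem inK_T : D.inK D.T := by
  refine D.inK_congr (fun a => ?_) (D.inK_smul (1 / 2) (D.sym_inK 0 0 0 2))
  simp only [T, D.h0]; ring

theorem inK_one : D.inK (fun _ => 1) := by
  refine D.inK_congr (fun a => ?_) (D.inK_smul (1 / 2) (D.sym_inK 0 0 0 0))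
  simp only [D.h0]; ring

theorem inK_XX : D.inK D.XX := by
  refine D.inK_congr (fun a => ?_) (D.inK_smul (1 / 2) (D.sym_inK 1 1 0 0))
  simp only [XX, X]; ring

theorem inK_XY : D.inK D.XY := by
  refine D.inK_congr (fun a => ?_) (D.inK_smul (1 / 2) (D.sym_inK 1 2 0 0))
  simp only [XY, X, Y]; ring

theorem inK_YY : D.inK D.YY := by
  refine D.inK_congr (fun a => ?_) (D.inK_smul (1 / 2) (D.sym_inK 2 2 0 0))
  simp only [YY, Y]; ring

theorem inK_SS : D.inK D.SS := by
  refine D.inK_congr (fun a => ?_) (D.inK_smul (1 / 2) (D.sym_inK 0 0 1 1))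
  simp only [SS, S]; ring

theorem inK_ST : D.inK D.ST := by
  refine D.inK_congr (fun a => ?_) (D.inK_smul (1 / 2) (D.sym_inK 0 0 1 2))
  simp only [ST, S, T]; ring

theorem inK_TT : D.inK D.TT := by
  refine D.inK_congr (fun a => ?_) (D.inK_smul (1 / 2) (D.sym_inK 0 0 2 2))
  simp only [TT, T]; ring

theorem inK_B11 : D.inK D.B11 := by
  refine D.inK_congr (fun a => ?_) (D.sym_inK 1 0 0 1)
  simp only [B11, X, S, N11, D.h0]; ring

theorem inK_B12 : D.inK D.B12 := by
  refine D.inK_congr (fun a => ?_) (D.sym_inK 1 0 0 2)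
  simp only [B12, X, T, N12, D.h0]; ring

theorem inK_B21 : D.inK D.B21 := by
  refine D.inK_congr (fun a => ?_) (D.sym_inK 2 0 0 1)
  simp only [B21, Y, S, N21, D.h0]; ring

theorem inK_B22 : D.inK D.B22 := by
  refine D.inK_congr (fun a => ?_) (D.sym_inK 2 0 0 2)
  simp only [B22, Y, T, N22, D.h0]; ring

/-- Affine functions are orthogonal to `K`. -/
theorem inA_perp {f g : Fin r → ℂ} (hf : D.inA f) (hg : D.inK g) :
    D.phi (fun a => f a * g a) = 0 := by
  obtain ⟨c0, c1, c2, c3, c4, h⟩ := hf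
  have e : D.phi (fun a => f a * g a) = ∑ i, (![c0, c1, c2, c3, c4] : Fin 5 → ℂ) i *
      D.phi ((![fun a => g a * D.L a 0 0, fun a => g a * D.L a 1 0, fun a => g a * D.L a 2 0,
        fun a => g a * D.L a 0 1, fun a => g a * D.L a 0 2] : Fin 5 → Fin r → ℂ) i) := by
    refine D.phi_lin _ _ fun a => ?_
    simp only [Fin.sum_univ_succ, Fin.sum_univ_zero, Matrix.cons_val_zero, Matrix.cons_val_succ,
      D.h0, h a, X, Y, S, T]
    ring
  rw [e]
  simp only [Fin.sum_univ_succ, Fin.sum_univ_zero, Matrix.cons_val_zero, Matrix.cons_val_succ]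
  rw [hg 0 0, hg 1 0, hg 2 0, hg 0 1, hg 0 2]
  ring

end Dat

end Pool.Agent.Helper36.WR
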