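import Pool.Agent.Helper36.WR.Gram

set_option autoImplicit false

/-!
Dimension counts.
-/

namespace Pool.Agent.Helper36.WR

namespace Dat

variable {r : ℕ} (D : Dat r)

theorem phi_comm (f g : Fin r → ℂ) :
    D.phi (fun a => f a * g a) = D.phi (fun a => g a * f a) :=
  D.phi_congr fun a => mul_comm _ _

/-- `1, X, Y, S, T` are linearly independent. -/
theorem indep5 {c0 c1 c2 c3 c4 : ℂ}
    (h : ∀ a, c0 + c1 * D.X a + c2 * D.Y a + c3 * D.S a + c4 * D.T a = 0) :
    c0 = 0 ∧ c1 = 0 ∧ c2 = 0 ∧ c3 = 0 ∧ c4 = 0 := by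
  have key : ∀ i j i' j' : Fin 3,
      c0 * (eps 0 i i' * eps 0 j j') + c1 * (eps 1 i i' * eps 0 j j') +
        c2 * (eps 2 i i' * eps 0 j j') + c3 * (eps 0 i i' * eps 1 j j') +
        c4 * (eps 0 i i' * eps 2 j j') = 0 := by
    intro i j i' j'
    have e : D.phi (fun a => (c0 + c1 * D.X a + c2 * D.Y a + c3 * D.S a + c4 * D.T a) *
        (D.L a i j * D.L a i' j')) = ∑ k, (![c0, c1, c2, c3, c4] : Fin 5 → ℂ) k *
        D.phi ((![fun a => D.L a 0 0 * D.L a i j * D.L a i' j',
          fun a => D.L a 1 0 * D.L a i j * D.L a i' j',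
          fun a => D.L a 2 0 * D.L a i j * D.L a i' j',
          fun a => D.L a 0 1 * D.L a i j * D.L a i' j',
          fun a => D.L a 0 2 * D.L a i j * D.L a i' j'] : Fin 5 → Fin r → ℂ) k) := by
      refine D.phi_lin _ _ fun a => ?_
      simp only [Fin.sum_univ_succ, Fin.sum_univ_zero, Matrix.cons_val_zero, Matrix.cons_val_succ,
        D.h0, X, Y, S, T]
      ring
    have z : D.phi (fun a => (c0 + c1 * D.X a + c2 * D.Y a + c3 * D.S a + c4 * D.T a) *
        (D.L a i j * D.L a i' j')) = 0 := D.phi_zero fun a => by rw [h a, zero_mul]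
    rw [z] at e
    simp only [Fin.sum_univ_succ, Fin.sum_univ_zero, Matrix.cons_val_zero, Matrix.cons_val_succ,
      D.phi3] at e
    linear_combination -e
  have k0 := key 1 1 2 2
  have k1 := key 0 1 2 2
  have k2 := key 0 1 1 2
  have k3 := key 1 0 2 2
  have k4 := key 1 0 2 1
  simp only [eps] at k0 k1 k2 k3 k4
  norm_num at k0 k1 k2 k3 k4
  exact ⟨k0, k1, k2, k3, k4⟩

private theorem dep4_eps (i k : Fin 3) : eps (i + 1) (i + 2) k = if k = i then 1 else 0 := by
  fin_cases i <;> fin_cases k <;> simp [eps] <;> norm_num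

/-- The linear map `f ↦ φ (f L_ij)`. -/
private noncomputable def dep4_map : (Fin r → ℂ) →ₗ[ℂ] (Fin 3 × Fin 3 → ℂ) where
  toFun f p := D.phi (fun a => f a * D.L a p.1 p.2)
  map_add' f g := by
    funext p
    rw [Pi.add_apply, ← D.phi_add]
    exact D.phi_congr fun a => by rw [Pi.add_apply]; ring
  map_smul' c f := by
    funext p
    rw [Pi.smul_apply, RingHom.id_apply, smul_eq_mul, ← D.phi_smul]
    exact D.phi_congr fun a => by rw [Pi.smul_apply, smul_eq_mul]; ring

private theorem dep4_surj : Function.Surjective D.dep4_map := by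
  classical
  intro g
  have h1 : ∀ p : Fin 3 × Fin 3, D.dep4_map (fun a =>
      (D.L a (p.1 + 1) (p.2 + 1) * D.L a (p.1 + 2) (p.2 + 2) -
        D.L a (p.1 + 1) (p.2 + 2) * D.L a (p.1 + 2) (p.2 + 1))) =
      fun p' => if p' = p then 2 else 0 := by
    intro p
    funext p'
    change D.phi _ = _
    have h2 : D.phi (fun a => (D.L a (p.1 + 1) (p.2 + 1) * D.L a (p.1 + 2) (p.2 + 2) -
        D.L a (p.1 + 1) (p.2 + 2) * D.L a (p.1 + 2) (p.2 + 1)) * D.L a p'.1 p'.2) =
        D.phi (fun a => D.L a (p.1 + 1) (p.2 + 1) * D.L a (p.1 + 2) (p.2 + 2) *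
          D.L a p'.1 p'.2) - D.phi (fun a => D.L a (p.1 + 1) (p.2 + 2) *
            D.L a (p.1 + 2) (p.2 + 1) * D.L a p'.1 p'.2) := by
      rw [← D.phi_sub]
      exact D.phi_congr fun a => by ring
    have h3 : eps (p.2 + 2) (p.2 + 1) p'.2 = -eps (p.2 + 1) (p.2 + 2) p'.2 := by
      unfold eps
      ring
    rw [h2, D.phi3, D.phi3, h3, dep4_eps, dep4_eps]
    by_cases h4 : p'.1 = p.1
    · by_cases h5 : p'.2 = p.2
      · rw [if_pos h4, if_pos h5, if_pos (Prod.ext h4 h5)]
        norm_num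
      · rw [if_neg h5, if_neg (fun h => h5 (congrArg Prod.snd h))]
        ring
    · rw [if_neg h4, if_neg (fun h => h4 (congrArg Prod.fst h))]
      ring
  refine ⟨∑ p, (g p / 2) • fun a =>
      (D.L a (p.1 + 1) (p.2 + 1) * D.L a (p.1 + 2) (p.2 + 2) -
        D.L a (p.1 + 1) (p.2 + 2) * D.L a (p.1 + 2) (p.2 + 1)), ?_⟩
  rw [map_sum]
  simp only [map_smul, h1]
  funext p'
  rw [Finset.sum_apply]
  simp only [Pi.smul_apply, smul_eq_mul, mul_ite, mul_zero]
  rw [Finset.sum_ite_eq, if_pos (Finset.mem_univ _)]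
  ring

private theorem dep4_ker (hr : r ≤ 17) :
    Module.finrank ℂ (LinearMap.ker D.dep4_map) ≤ 8 := by
  have h1 := LinearMap.finrank_range_add_finrank_ker D.dep4_map
  rw [LinearMap.range_eq_top.2 D.dep4_surj, finrank_top, Module.finrank_fintype_fun_eq_card,
    Module.finrank_fintype_fun_eq_card, Fintype.card_prod, Fintype.card_fin,
    Fintype.card_fin] at h1
  omega

/-- Among any four elements of `K` there is a relation modulo the affine functions. Proof: the linear
map `Ψ : (Fin r → ℂ) → (Fin 3 × Fin 3 → ℂ)`, `Ψ f (i, j) = φ (f L_ij)` is surjective (`Ψ` of the function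
`L_kl L_mn` with the complementary indices `{k, m} = {i}ᶜ`, `{l, n} = {j}ᶜ` is a nonzero multiple of the unit
vector `(i, j)` plus/minus ...: use `L_kl L_mn - L_kn L_ml`, whose value is `2 eps eps`, supported in
`(i, j)`); so its kernel `K` has dimension `r - 9 ≤ 8`. The nine vectors `1, X, Y, S, T, f0, f1, f2, f3`
are in `K`, so they are linearly dependent, and `indep5` shows that not all of the last four coefficients
are zero. -/
theorem dep4 (hr : r ≤ 17) {f0 f1 f2 f3 : Fin r → ℂ} (h0 : D.inK f0) (h1 : D.inK f1)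
    (h2 : D.inK f2) (h3 : D.inK f3) :
    ∃ d0 d1 d2 d3 : ℂ, ¬ (d0 = 0 ∧ d1 = 0 ∧ d2 = 0 ∧ d3 = 0) ∧
      D.inA (fun a => d0 * f0 a + d1 * f1 a + d2 * f2 a + d3 * f3 a) := by
  set v : Fin 9 → Fin r → ℂ := ![fun _ => 1, D.X, D.Y, D.S, D.T, f0, f1, f2, f3] with hv
  have hvK : ∀ i, v i ∈ LinearMap.ker D.dep4_map := by
    have h4 : ∀ i, D.inK (v i) := by
      intro i
      fin_cases i
      exacts [D.inK_one, D.inK_X, D.inK_Y, D.inK_S, D.inK_T, h0, h1, h2, h3]
    intro i
    rw [LinearMap.mem_ker]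
    funext p
    exact h4 i p.1 p.2
  have hdep : ¬ LinearIndependent ℂ (fun i => (⟨v i, hvK i⟩ : LinearMap.ker D.dep4_map)) := by
    intro h
    have h5 := h.fintype_card_le_finrank
    rw [Fintype.card_fin] at h5
    have h6 := D.dep4_ker hr
    omega
  rw [Fintype.not_linearIndependent_iff] at hdep
  obtain ⟨g, hg, i₀, hi₀⟩ := hdep
  have hg' : ∀ a, g 0 + g 1 * D.X a + g 2 * D.Y a + g 3 * D.S a + g 4 * D.T a + g 5 * f0 a +
      g 6 * f1 a + g 7 * f2 a + g 8 * f3 a = 0 := by
    intro a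
    have h5 := congrFun (congrArg Subtype.val hg) a
    simp only [Fin.sum_univ_succ, Fin.sum_univ_zero, Submodule.coe_add, Submodule.coe_smul,
      ZeroMemClass.coe_zero, Pi.add_apply, Pi.smul_apply, smul_eq_mul, Pi.zero_apply, hv,
      Matrix.cons_val_zero, Matrix.cons_val_succ] at h5
    have e1 : Fin.succ (0 : Fin 8) = 1 := rfl
    have e2 : Fin.succ (Fin.succ (0 : Fin 7)) = 2 := rfl
    have e3 : Fin.succ (Fin.succ (Fin.succ (0 : Fin 6))) = 3 := rfl
    have e4 : Fin.succ (Fin.succ (Fin.succ (Fin.succ (0 : Fin 5)))) = 4 := rfl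
    have e5 : Fin.succ (Fin.succ (Fin.succ (Fin.succ (Fin.succ (0 : Fin 4))))) = 5 := rfl
    have e6 : Fin.succ (Fin.succ (Fin.succ (Fin.succ (Fin.succ (Fin.succ (0 : Fin 3)))))) = 6 :=
      rfl
    have e7 : Fin.succ (Fin.succ (Fin.succ (Fin.succ (Fin.succ (Fin.succ
      (Fin.succ (0 : Fin 2))))))) = 7 := rfl
    have e8 : Fin.succ (Fin.succ (Fin.succ (Fin.succ (Fin.succ (Fin.succ (Fin.succ
      (Fin.succ (0 : Fin 1)))))))) = 8 := rfl
    rw [e1, e2, e3, e4, e5, e6, e7, e8] at h5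
    linear_combination h5
  refine ⟨g 5, g 6, g 7, g 8, ?_, -g 0, -g 1, -g 2, -g 3, -g 4, fun a => ?_⟩
  · rintro ⟨z5, z6, z7, z8⟩
    obtain ⟨z0, z1, z2, z3, z4⟩ := D.indep5 (c0 := g 0) (c1 := g 1) (c2 := g 2) (c3 := g 3)
      (c4 := g 4) fun a => by
        have h5 := hg' a
        rw [z5, z6, z7, z8] at h5
        linear_combination h5
    apply hi₀
    fin_cases i₀
    exacts [z0, z1, z2, z3, z4, z5, z6, z7, z8]
  · linear_combination hg' a

/-- Pairing a relation with an element of `K`. -/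
theorem pair4 {d0 d1 d2 d3 : ℂ} {f0 f1 f2 f3 g : Fin r → ℂ}
    (h : D.inA (fun a => d0 * f0 a + d1 * f1 a + d2 * f2 a + d3 * f3 a)) (hg : D.inK g) :
    d0 * D.phi (fun a => f0 a * g a) + d1 * D.phi (fun a => f1 a * g a) +
      d2 * D.phi (fun a => f2 a * g a) + d3 * D.phi (fun a => f3 a * g a) = 0 := by
  have e : D.phi (fun a => (d0 * f0 a + d1 * f1 a + d2 * f2 a + d3 * f3 a) * g a) =
      ∑ k, (![d0, d1, d2, d3] : Fin 4 → ℂ) k *
        D.phi ((![fun a => f0 a * g a, fun a => f1 a * g a, fun a => f2 a * g a,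
          fun a => f3 a * g a] : Fin 4 → Fin r → ℂ) k) := by
    refine D.phi_lin _ _ fun a => ?_
    simp only [Fin.sum_univ_succ, Fin.sum_univ_zero, Matrix.cons_val_zero, Matrix.cons_val_succ]
    ring
  rw [D.inA_perp h hg] at e
  simp only [Fin.sum_univ_succ, Fin.sum_univ_zero, Matrix.cons_val_zero, Matrix.cons_val_succ] at e
  linear_combination -e

/-- An element of `K` orthogonal to `K` is affine. Proof: the functional `g ↦ φ (f g)` vanishes on the
common kernel of the functionals `g ↦ φ (g L_ij)`, so it is a combination of them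
(`mem_span_of_iInf_ker_le_ker`): `φ (f g) = ∑ c_ij φ (g L_ij)` for all `g`, so `f = ∑ c_ij L_ij` (`W a ≠ 0`,
take `g` = indicator functions). As `f ∈ K`, pairing `f` with `L_kl` for `k, l ∈ {1, 2}` and `phi2` shows that
`c_ij = 0` for `i, j ∈ {1, 2}`. -/
theorem inA_of_perp {f : Fin r → ℂ} (hf : D.inK f)
    (h : ∀ g, D.inK g → D.phi (fun a => f a * g a) = 0) : D.inA f := by
  classical
  let ell : Fin 3 × Fin 3 → ((Fin r → ℂ) →ₗ[ℂ] ℂ) := fun p =>
    { toFun := fun g => D.phi (fun a => g a * D.L a p.1 p.2)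
      map_add' := fun g g' => by
        rw [← D.phi_add]
        exact D.phi_congr fun a => by simp only [Pi.add_apply]; ring
      map_smul' := fun c g => by
        rw [RingHom.id_apply, smul_eq_mul, ← D.phi_smul]
        exact D.phi_congr fun a => by simp only [Pi.smul_apply, smul_eq_mul]; ring }
  let F : (Fin r → ℂ) →ₗ[ℂ] ℂ :=
    { toFun := fun g => D.phi (fun a => f a * g a)
      map_add' := fun g g' => by
        rw [← D.phi_add]
        exact D.phi_congr fun a => by simp only [Pi.add_apply]; ring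
      map_smul' := fun c g => by
        rw [RingHom.id_apply, smul_eq_mul, ← D.phi_smul]
        exact D.phi_congr fun a => by simp only [Pi.smul_apply, smul_eq_mul]; ring }
  have hker : ⨅ p, LinearMap.ker (ell p) ≤ LinearMap.ker F := by
    intro g hg
    rw [Submodule.mem_iInf] at hg
    rw [LinearMap.mem_ker]
    exact h g fun i j => LinearMap.mem_ker.1 (hg (i, j))
  obtain ⟨c, hc⟩ := Submodule.mem_span_range_iff_exists_fun (R := ℂ) |>.1
    (mem_span_of_iInf_ker_le_ker hker)
  have hfa : ∀ a, f a = ∑ p, c p * D.L a p.1 p.2 := by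
    intro a
    have e := LinearMap.congr_fun hc (Pi.single a 1)
    rw [LinearMap.sum_apply] at e
    have e1 : F (Pi.single a 1) = D.W a * f a := by
      show ∑ b, D.W b * (f b * (Pi.single a 1 : Fin r → ℂ) b) = _
      rw [Finset.sum_eq_single a]
      · rw [Pi.single_eq_same, mul_one]
      · intro b _ hb
        rw [Pi.single_eq_of_ne hb, mul_zero, mul_zero]
      · intro ha
        exact absurd (Finset.mem_univ a) ha
    have e2 : ∀ p, (c p • ell p) (Pi.single a 1) = D.W a * (c p * D.L a p.1 p.2) := by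
      intro p
      rw [LinearMap.smul_apply, smul_eq_mul]
      have e3 : ell p (Pi.single a 1) = D.W a * D.L a p.1 p.2 := by
        show ∑ b, D.W b * ((Pi.single a 1 : Fin r → ℂ) b * D.L b p.1 p.2) = _
        rw [Finset.sum_eq_single a]
        · rw [Pi.single_eq_same, one_mul]
        · intro b _ hb
          rw [Pi.single_eq_of_ne hb, zero_mul, mul_zero]
        · intro ha
          exact absurd (Finset.mem_univ a) ha
      rw [e3]
      ring
    rw [Finset.sum_congr rfl fun p _ => e2 p, e1, ← Finset.mul_sum] at e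
    exact (mul_left_cancel₀ (D.hW a) e).symm
  have hz : ∀ i j : Fin 3, ∑ p : Fin 3 × Fin 3, c p * (eps 0 p.1 i * eps 0 p.2 j) = 0 := by
    intro i j
    have e := hf i j
    rw [D.phi_congr (g := fun a => ∑ p : Fin 3 × Fin 3, c p * (D.L a p.1 p.2 * D.L a i j))
      (fun a => by rw [hfa a, Finset.sum_mul]; exact Finset.sum_congr rfl fun p _ => by ring)] at e
    rw [← e]
    unfold phi
    simp only [Finset.mul_sum]
    rw [Finset.sum_comm]
    refine Finset.sum_congr rfl fun p _ => ?_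
    rw [← D.phi2 p.1 p.2 i j]
    unfold phi
    rw [Finset.mul_sum]
    exact Finset.sum_congr rfl fun a _ => by ring
  have k11 := hz 2 2
  have k22 := hz 1 1
  have k12 := hz 2 1
  have k21 := hz 1 2
  rw [Fintype.sum_prod_type] at k11 k22 k12 k21
  simp only [Fin.sum_univ_succ, Fin.sum_univ_zero, eps] at k11 k22 k12 k21
  norm_num at k11 k22 k12 k21
  refine ⟨c (0, 0), c (1, 0), c (2, 0), c (0, 1), c (0, 2), fun a => ?_⟩
  rw [hfa a, Fintype.sum_prod_type]
  simp only [Fin.sum_univ_three, D.h0, k11, k22, k12, k21, X, Y, S, T]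
  ring

end Dat

end Pool.Agent.Helper36.WR
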