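import Pool.Agent.Helper36.WR.Tr

set_option autoImplicit false

/-!
The contradiction.
-/

namespace Pool.Agent.Helper36.WR

namespace Dat

variable {r : ℕ}

/-- First step: `X² T - X³` is a multiple of `X - T` and `T² = X²`. -/
theorem step1 {D : Dat r} (hN : NF D) {c1 c2 c3 c4 c5 c6 c7 : ℂ} (h : CF D c1 c2 c3 c4 c5 c6 c7)
    {e0 e1 e2 e3 e4 e5 e6 e7 f0 f1 f2 f3 f4 f5 f6 f7 g0 g1 g2 g3 g4 g5 g6 g7 : ℂ}
    (k1 : ∀ a, D.X a ^ 2 * D.S a + 2 * (D.X a * D.S a * D.T a) = f0 + f1 * D.X a + f2 * D.Y a +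
      f3 * D.S a + f4 * D.T a + f5 * D.X a ^ 2 + f6 * D.S a ^ 2 + f7 * (D.S a * D.T a))
    (k2 : ∀ a, D.X a ^ 2 * D.T a - D.X a ^ 3 = e0 + e1 * D.X a + e2 * D.Y a +
      e3 * D.S a + e4 * D.T a + e5 * D.X a ^ 2 + e6 * D.S a ^ 2 + e7 * (D.S a * D.T a))
    (k3 : ∀ a, D.X a * D.S a ^ 2 + 2 * (D.S a ^ 2 * D.T a) = g0 + g1 * D.X a + g2 * D.Y a +
      g3 * D.S a + g4 * D.T a + g5 * D.X a ^ 2 + g6 * D.S a ^ 2 + g7 * (D.S a * D.T a)) :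
    c1 = 0 ∧ ∀ a, D.X a ^ 2 * D.T a - D.X a ^ 3 = e1 * (D.X a - D.T a) := by
  obtain ⟨tt, xy, yy, n11, n12, n21, n22⟩ := h
  obtain ⟨i0, i1, i2, i3, i4, i5, i6, i7, i8, i9, i10, i11, i12, i13, i14, i15⟩ := ind16 hN (c0 := c1 * e4 + c2 * e2 + e0 * e5 + e6 * g0 + e7 * f0) (c1 := e0 + e1 * e5 + e6 * g1 + e7 * f1) (c2 := e2 * e5 + e6 * g2 + e7 * f2) (c3 := c1 * e7 + e3 * e5 + e6 * g3 + e7 * f3) (c4 := e0 + e4 * e5 + e6 * g4 + e7 * f4) (c5 := -(c1) + e1 + e4 + e5 ^ 2 + e6 * g5 + e7 * f5) (c6 := -(2 * e2) + e5 * e6 + e6 * g6 + e7 * f6) (c7 := e3 + e5 * e7 + e6 * g7 + e7 * f7) (c8 := e3) (c9 := e1 + e4) (c10 := 0) (c11 := e2) (c12 := 2 * e5) (c13 := -(e7)) (c14 := 0) (c15 := -(e6))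
    (fun a => by linear_combination (-(D.T a) - D.X a - e5) * k2 a + (D.X a ^ 2 - e4 - D.S a * e7) * tt a + (-(e2)) * xy a + (-(e6)) * k3 a + (-(e7)) * k1 a)
  have z5 : e5 = 0 := by linear_combination i12 / 2
  have z6 : e6 = 0 := by linear_combination -i15
  have z7 : e7 = 0 := by linear_combination -i13
  have z2 : e2 = 0 := by linear_combination i11
  have z3 : e3 = 0 := by linear_combination i8
  have z4 : e4 = -e1 := by linear_combination i9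
  have z0 : e0 = 0 := by linear_combination i1 - e1 * z5 - g1 * z6 - f1 * z7
  have w1 : c1 = 0 := by linear_combination i9 - i5 + e5 * z5 + g5 * z6 + f5 * z7
  refine ⟨w1, fun a => ?_⟩
  rw [k2 a, z0, z2, z3, z4, z5, z6, z7]
  ring

/-- Second step. -/
theorem step2 {D : Dat r} (hN : NF D) {c2 c3 c4 c5 c6 c7 p : ℂ} (h : CF D 0 c2 c3 c4 c5 c6 c7)
    {f0 f1 f2 f3 f4 f5 f6 f7 g0 g1 g2 g3 g4 g5 g6 g7 : ℂ}
    (k1 : ∀ a, D.X a ^ 2 * D.S a + 2 * (D.X a * D.S a * D.T a) = f0 + f1 * D.X a + f2 * D.Y a +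
      f3 * D.S a + f4 * D.T a + f5 * D.X a ^ 2 + f6 * D.S a ^ 2 + f7 * (D.S a * D.T a))
    (k2 : ∀ a, D.X a ^ 2 * D.T a - D.X a ^ 3 = p * (D.X a - D.T a))
    (k3 : ∀ a, D.X a * D.S a ^ 2 + 2 * (D.S a ^ 2 * D.T a) = g0 + g1 * D.X a + g2 * D.Y a +
      g3 * D.S a + g4 * D.T a + g5 * D.X a ^ 2 + g6 * D.S a ^ 2 + g7 * (D.S a * D.T a)) :
    ∀ a, D.X a ^ 2 * D.S a + 2 * (D.X a * D.S a * D.T a) =
      f5 * D.X a ^ 2 + f1 * (D.X a + D.T a) + p * D.S a + f5 * p := by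
  obtain ⟨tt, xy, yy, n11, n12, n21, n22⟩ := h
  obtain ⟨i0, i1, i2, i3, i4, i5, i6, i7, i8, i9, i10, i11, i12, i13, i14, i15⟩ := ind16 hN (c0 := c2 * f2 - f0 * f7 + f6 * g0) (c1 := f0 - f1 * f7 - f5 * p + f6 * g1) (c2 := -(f2 * f7) + f6 * g2) (c3 := -(f3 * f7) + f6 * g3) (c4 := -(f0) - f4 * f7 + f5 * p + f6 * g4) (c5 := f1 - f4 - f5 * f7 + f6 * g5) (c6 := -(2 * f2) - f6 * f7 + f6 * g6) (c7 := -(f3) - f7 ^ 2 + p + f6 * g7) (c8 := f3 - p) (c9 := -(f1) + f4) (c10 := 0) (c11 := -(f2)) (c12 := 0) (c13 := 3 * f7) (c14 := 0) (c15 := -(3 * f6))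
    (fun a => by linear_combination (D.T a - D.X a + f7) * k1 a + (D.S a + f5) * k2 a + (f4 - 2 * D.S a * D.X a + D.S a * f7) * tt a + (-(f2)) * xy a + (-(f6)) * k3 a)
  have z7 : f7 = 0 := by linear_combination i13 / 3
  have z6 : f6 = 0 := by linear_combination -i15 / 3
  have z2 : f2 = 0 := by linear_combination -i11
  have z3 : f3 = p := by linear_combination i8
  have z4 : f4 = f1 := by linear_combination i9
  have z0 : f0 = f5 * p := by linear_combination i1 + f1 * z7 - g1 * z6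
  intro a
  rw [k1 a, z0, z2, z3, z4, z6, z7]
  ring

/-- Third step. -/
theorem step3 {D : Dat r} (hN : NF D) {c2 c3 c4 c5 c6 c7 p : ℂ} (h : CF D 0 c2 c3 c4 c5 c6 c7)
    {f1 f5 g0 g1 g2 g3 g4 g5 g6 g7 : ℂ}
    (k1 : ∀ a, D.X a ^ 2 * D.S a + 2 * (D.X a * D.S a * D.T a) =
      f5 * D.X a ^ 2 + f1 * (D.X a + D.T a) + p * D.S a + f5 * p)
    (k2 : ∀ a, D.X a ^ 2 * D.T a - D.X a ^ 3 = p * (D.X a - D.T a))
    (k3 : ∀ a, D.X a * D.S a ^ 2 + 2 * (D.S a ^ 2 * D.T a) = g0 + g1 * D.X a + g2 * D.Y a +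
      g3 * D.S a + g4 * D.T a + g5 * D.X a ^ 2 + g6 * D.S a ^ 2 + g7 * (D.S a * D.T a)) :
    p = -2 * g2 ∧ (∀ a, D.X a ^ 2 * D.S a + 2 * (D.X a * D.S a * D.T a) =
      f5 * D.X a ^ 2 + (-2 * g2) * D.S a) ∧
    ∀ a, D.X a * D.S a ^ 2 + 2 * (D.S a ^ 2 * D.T a) =
      -2 * f5 * (D.S a * D.T a) + f5 ^ 2 * D.X a + g2 * D.Y a := by
  obtain ⟨tt, xy, yy, n11, n12, n21, n22⟩ := h
  obtain ⟨i0, i1, i2, i3, i4, i5, i6, i7, i8, i9, i10, i11, i12, i13, i14, i15⟩ := ind16 hN (c0 := c2 * g2 - f5 ^ 2 * p + g0 * g6) (c1 := g0 - f1 * f5 + g1 * g6) (c2 := g2 * g6) (c3 := -(2 * f5 * p) + g3 * g6) (c4 := -(f1 * f5) + g4 * g6) (c5 := -(f5 ^ 2) + g1 + g5 * g6) (c6 := -(2 * g2) + g6 ^ 2 - p) (c7 := -(f1) + g6 * g7) (c8 := -(f1) + g3) (c9 := g4) (c10 := 0) (c11 := 0) (c12 := g5) (c13 := 2 * f5 + g7) (c14 := 0) (c15 := -(2 * g6))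
    (fun a => by linear_combination (-(D.X a) - g6) * k3 a + (D.S a + f5) * k1 a + (-(g2)) * xy a)
  have z5 : g5 = 0 := by linear_combination i12
  have z6 : g6 = 0 := by linear_combination -i15 / 2
  have z7 : g7 = -2 * f5 := by linear_combination i13
  have z4 : g4 = 0 := by linear_combination i9
  have w1 : f1 = 0 := by linear_combination -i7 + g7 * z6
  have z3 : g3 = 0 := by linear_combination i8 + w1
  have z0 : g0 = 0 := by linear_combination i1 + f5 * w1 - g1 * z6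
  have z1 : g1 = f5 ^ 2 := by linear_combination i5 - g5 * z6
  have zp : p = -2 * g2 := by linear_combination -i6 + g6 * z6
  have w5 : f5 * p = 0 := by linear_combination -i3 / 2 + g3 / 2 * z6
  refine ⟨zp, fun a => ?_, fun a => ?_⟩
  · rw [k1 a, w5, w1, ← zp]
    ring
  · rw [k3 a, z0, z1, z3, z4, z5, z6, z7]
    ring

/-- Fourth step. -/
theorem step4 {D : Dat r} (hN : NF D) {c2 c3 c4 c5 c6 c7 : ℂ} (h : CF D 0 c2 c3 c4 c5 c6 c7)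
    {f5 g2 m0 m1 m2 m3 m4 m5 m6 m7 : ℂ}
    (k1 : ∀ a, D.X a ^ 2 * D.S a + 2 * (D.X a * D.S a * D.T a) =
      f5 * D.X a ^ 2 + (-2 * g2) * D.S a)
    (k2 : ∀ a, D.X a ^ 2 * D.T a - D.X a ^ 3 = (-2 * g2) * (D.X a - D.T a))
    (k3 : ∀ a, D.X a * D.S a ^ 2 + 2 * (D.S a ^ 2 * D.T a) =
      -2 * f5 * (D.S a * D.T a) + f5 ^ 2 * D.X a + g2 * D.Y a)
    (nn : ∀ a, D.N11 a ^ 2 = m0 + m1 * D.X a + m2 * D.Y a +
      m3 * D.S a + m4 * D.T a + m5 * D.X a ^ 2 + m6 * D.S a ^ 2 + m7 * (D.S a * D.T a)) :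
    f5 = 0 ∧ g2 = 0 ∧ c4 = 0 := by
  obtain ⟨tt, xy, yy, n11, n12, n21, n22⟩ := h
  obtain ⟨i0, i1, i2, i3, i4, i5, i6, i7, i8, i9, i10, i11, i12, i13, i14, i15⟩ := ind16 hN (c0 := c4 ^ 2 - m0 + c2 * g2) (c1 := -(m1)) (c2 := -(m2)) (c3 := -(m3) + 8 * f5 * g2) (c4 := -(m4)) (c5 := -(3 * f5 ^ 2) - m5) (c6 := -(2 * g2) - m6) (c7 := -(4 * c4) - m7) (c8 := -(2 * c4)) (c9 := 2 * f5 ^ 2) (c10 := 0) (c11 := 2 * g2) (c12 := 0) (c13 := 6 * f5) (c14 := 0) (c15 := 0)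
    (fun a => by linear_combination (-(2 * D.T a) - D.X a) * k3 a + (-(D.N11 a) - c4 + 2 * D.S a * D.T a + D.S a * D.X a) * n11 a + (1) * nn a + (-(g2)) * xy a + (4 * D.S a * f5) * tt a + (4 * f5) * k1 a)
  exact ⟨by linear_combination i13 / 6, by linear_combination i11 / 2, by linear_combination -i8 / 2⟩

/-- Fifth step. -/
theorem step5 {D : Dat r} (hN : NF D) {c2 c3 c5 c6 c7 : ℂ} (h : CF D 0 c2 c3 0 c5 c6 c7)
    {h0 h1 h2 h3 h4 h5 h6 h7 : ℂ}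
    (k1 : ∀ a, D.X a ^ 2 * D.S a + 2 * (D.X a * D.S a * D.T a) = 0)
    (k2 : ∀ a, D.X a ^ 2 * D.T a - D.X a ^ 3 = 0)
    (k3 : ∀ a, D.X a * D.S a ^ 2 + 2 * (D.S a ^ 2 * D.T a) = 0)
    (k4 : ∀ a, D.Y a * D.S a * D.T a - 1 / 2 * D.X a ^ 3 - 2 * D.S a ^ 3 = h0 + h1 * D.X a +
      h2 * D.Y a + h3 * D.S a + h4 * D.T a + h5 * D.X a ^ 2 + h6 * D.S a ^ 2 +
      h7 * (D.S a * D.T a))
    (ys2 : ∀ a, D.Y a * D.S a ^ 2 = -2 * (D.X a * D.S a * D.T a) + 1 / 2 * c2 * D.Y a -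
      1 / 2 * c3 * D.X a) :
    c2 = 0 ∧ c3 = 0 ∧ ∀ a, D.Y a * D.S a * D.T a - 1 / 2 * D.X a ^ 3 - 2 * D.S a ^ 3 = 0 := by
  obtain ⟨tt, xy, yy, n11, n12, n21, n22⟩ := h
  obtain ⟨i0, i1, i2, i3, i4, i5, i6, i7, i8, i9, i10, i11, i12, i13, i14, i15⟩ := ind16 hN (c0 := -(c2 * h1) - c3 * h2 - h0 * h7) (c1 := -(c2 * h5) + 1 / 2 * c3 * h6 - h1 * h7) (c2 := -(h0) - 1 / 2 * c2 * h6 - h2 * h7) (c3 := -(h3 * h7)) (c4 := -(h4 * h7)) (c5 := -(1 / 2 * c2) - h5 * h7) (c6 := 2 * h1 - h6 * h7) (c7 := c3 - 4 * h2 - h7 ^ 2) (c8 := c3) (c9 := 0) (c10 := -(c2) - h3) (c11 := -(h4)) (c12 := -(1 / 2 * h7)) (c13 := 2 * h6) (c14 := -(2 * h7)) (c15 := -(4 * h5))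
    (fun a => by linear_combination (-(2 * D.T a) - D.X a - 2 * h5) * k3 a + (D.Y a + h7) * k4 a + (h2 - D.S a * D.T a) * yy a + (1 / 2 * D.X a ^ 2 + h1 + D.X a * h5) * xy a + (2 * D.S a + h6) * ys2 a)
  have z7 : h7 = 0 := by linear_combination -2 * i12
  have z6 : h6 = 0 := by linear_combination i13 / 2
  have z5 : h5 = 0 := by linear_combination -i15 / 4
  have w3 : c3 = 0 := by linear_combination i8
  have z4 : h4 = 0 := by linear_combination -i11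
  have w2 : c2 = 0 := by linear_combination -2 * i5 - 2 * h5 * z7
  have z3 : h3 = 0 := by linear_combination -i10 - w2
  have z2 : h2 = 0 := by linear_combination -i7 / 4 + w3 / 4 - h7 / 4 * z7
  have z1 : h1 = 0 := by linear_combination i6 / 2 + h6 / 2 * z7
  have z0 : h0 = 0 := by linear_combination -i2 - c2 / 2 * z6 - h2 * z7
  refine ⟨w2, w3, fun a => ?_⟩
  rw [k4 a, z0, z1, z2, z3, z4, z5, z6, z7]
  ring

/-- There is no decomposition in normal form with constant remainders. -/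
theorem no_CF {D : Dat r} (hr : r ≤ 17) (hN : NF D) {c1 c2 c3 c4 c5 c6 c7 : ℂ}
    (h : CF D c1 c2 c3 c4 c5 c6 c7) : False := by
  have K1 : D.inK (fun a => D.X a ^ 2 * D.S a + 2 * (D.X a * D.S a * D.T a)) :=
    D.inK_congr (fun a => by linear_combination (-D.X a) * h.n11 a)
      (D.inK_add (D.inK_smul (-1) D.inK_s1101) (D.inK_smul c4 D.inK_X))
  have K2 : D.inK (fun a => D.X a ^ 2 * D.T a - D.X a ^ 3) :=
    D.inK_congr (fun a => by linear_combination (-D.X a) * h.n12 a)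
      (D.inK_add (D.inK_smul (-1) D.inK_s1102) (D.inK_smul c5 D.inK_X))
  have K3 : D.inK (fun a => D.X a * D.S a ^ 2 + 2 * (D.S a ^ 2 * D.T a)) :=
    D.inK_congr (fun a => by linear_combination (-D.S a) * h.n11 a)
      (D.inK_add (D.inK_smul (-1) D.inK_s0111) (D.inK_smul c4 D.inK_S))
  have K4 : D.inK (fun a => D.Y a * D.S a * D.T a - 1 / 2 * D.X a ^ 3 - 2 * D.S a ^ 3) :=
    D.inK_congr (fun a => by
      linear_combination (-(1 / 2) * D.X a) * h.n21 a - 1 / 2 * D.Y a * h.n11 a +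
        D.S a * h.xy a)
      (D.inK_add (D.inK_add (D.inK_smul (-(1 / 2)) D.inK_s1201) (D.inK_smul (-c2) D.inK_S))
        (D.inK_add (D.inK_smul (c6 / 2) D.inK_X) (D.inK_smul (c4 / 2) D.inK_Y)))
  have KN : D.inK (fun a => D.N11 a ^ 2) :=
    D.inK_congr (fun a => by simp only [N11]; ring) (D.inK_smul (1 / 2) (D.sym_inK 1 1 1 1))
  obtain ⟨f0, f1, f2, f3, f4, f5, f6, f7, k1⟩ := mem_K hr hN K1
  obtain ⟨e0, e1, e2, e3, e4, e5, e6, e7, k2⟩ := mem_K hr hN K2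
  obtain ⟨g0, g1, g2, g3, g4, g5, g6, g7, k3⟩ := mem_K hr hN K3
  obtain ⟨h0, h1, h2, h3, h4, h5, h6, h7, k4⟩ := mem_K hr hN K4
  obtain ⟨m0, m1, m2, m3, m4, m5, m6, m7, nn⟩ := mem_K hr hN KN
  obtain ⟨z1, k2'⟩ := step1 hN h k1 k2 k3
  subst z1
  have k1' := step2 hN h k1 k2' k3
  obtain ⟨zp, k1'', k3'⟩ := step3 hN h k1' k2' k3
  rw [zp] at k2'
  obtain ⟨y5, y2, y4⟩ := step4 hN h k1'' k2' k3' nn
  subst y4
  rw [y5, y2] at k1'' k3'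
  rw [y2] at k2'
  have k1f : ∀ a, D.X a ^ 2 * D.S a + 2 * (D.X a * D.S a * D.T a) = 0 := fun a => by
    rw [k1'' a]; ring
  have k2f : ∀ a, D.X a ^ 2 * D.T a - D.X a ^ 3 = 0 := fun a => by rw [k2' a]; ring
  have k3f : ∀ a, D.X a * D.S a ^ 2 + 2 * (D.S a ^ 2 * D.T a) = 0 := fun a => by
    rw [k3' a]; ring
  have ys2 : ∀ a, D.Y a * D.S a ^ 2 = -2 * (D.X a * D.S a * D.T a) + 1 / 2 * c2 * D.Y a -
      1 / 2 * c3 * D.X a := fun a => by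
    linear_combination (1 / 2 * D.Y a) * h.xy a - 1 / 2 * D.X a * h.yy a
  obtain ⟨x2, x3, k4f⟩ := step5 hN h k1f k2f k3f k4 ys2
  subst x2 x3
  have hS : ∀ a, D.S a = 0 := by
    intro a
    have a1 := k1f a
    have a2 := k2f a
    have a4 := k4f a
    have a5 := ys2 a
    have a6 := h.tt a
    have b1 : D.X a ^ 3 * D.S a = 0 := by
      linear_combination (1 / 3) * D.X a * a1 - (2 / 3) * D.S a * a2
    have b2 : D.S a ^ 4 = 0 := by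
      linear_combination -(1 / 2) * D.S a * a4 + 1 / 2 * D.T a * a5 - D.X a * D.S a * a6 -
        (5 / 4) * b1
    exact pow_eq_zero_iff (n := 4) (by norm_num) |>.mp b2
  have := D.indep5 (c0 := 0) (c1 := 0) (c2 := 0) (c3 := 1) (c4 := 0) (fun a => by rw [hS a]; ring)
  exact one_ne_zero this.2.2.2.1

/-- There is no normalised decomposition with at most seventeen terms. -/
theorem no_dat (D : Dat r) (hr : r ≤ 17) : False := by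
  obtain ⟨D', hN⟩ := exists_NF D hr
  obtain ⟨D'', hN', c1, c2, c3, c4, c5, c6, c7, h⟩ := exists_CF hN
  exact no_CF hr hN' h

end Dat

end Pool.Agent.Helper36.WR
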