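import Mathlib

set_option autoImplicit false

/-!
Three commuting `3 × 3` matrices with trace identities.
-/

namespace Pool.Agent.Helper36.WR

open Matrix

/-- Cayley-Hamilton for `3 × 3` matrices in terms of traces. -/
theorem cayley3 (A : Matrix (Fin 3) (Fin 3) ℂ) :
    A * A * A = A.trace • (A * A) - ((A.trace ^ 2 - (A * A).trace) / 2) • A +
      A.det • (1 : Matrix (Fin 3) (Fin 3) ℂ) := by
  ext i j
  fin_cases i <;> fin_cases j <;>
    simp [Matrix.mul_apply, Fin.sum_univ_three, Matrix.trace_fin_three, Matrix.det_fin_three] <;>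
    ring

/-- Polarised Cayley-Hamilton for commuting matrices. Replace `A` by `A + t C` in `cayley3` and take
the coefficient of `t`. Proof: by entries with `A * A * C`, `A * C * A`, `C * A * A` separately
(that identity holds for all matrices, `ring`), then use the commutation. -/
theorem cayley3_pol (A C : Matrix (Fin 3) (Fin 3) ℂ) (h : A * C = C * A) : ∃ d : ℂ,
    (3 : ℂ) • (A * A * C) = (2 * A.trace) • (A * C) + C.trace • (A * A) -
      ((A.trace ^ 2 - (A * A).trace) / 2) • C - (A.trace * C.trace - (A * C).trace) • A +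
      d • (1 : Matrix (Fin 3) (Fin 3) ℂ) := by
  have hg : A * A * C + A * C * A + C * A * A = A.trace • (A * C) + A.trace • (C * A) +
      C.trace • (A * A) - ((A.trace ^ 2 - (A * A).trace) / 2) • C -
      (A.trace * C.trace - (A * C).trace) • A +
      (C 0 0 * A 1 1 * A 2 2 + A 0 0 * C 1 1 * A 2 2 + A 0 0 * A 1 1 * C 2 2 -
        (C 0 0 * A 1 2 * A 2 1 + A 0 0 * C 1 2 * A 2 1 + A 0 0 * A 1 2 * C 2 1) -
        (C 0 1 * A 1 0 * A 2 2 + A 0 1 * C 1 0 * A 2 2 + A 0 1 * A 1 0 * C 2 2) +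
        (C 0 1 * A 1 2 * A 2 0 + A 0 1 * C 1 2 * A 2 0 + A 0 1 * A 1 2 * C 2 0) +
        (C 0 2 * A 1 0 * A 2 1 + A 0 2 * C 1 0 * A 2 1 + A 0 2 * A 1 0 * C 2 1) -
        (C 0 2 * A 1 1 * A 2 0 + A 0 2 * C 1 1 * A 2 0 + A 0 2 * A 1 1 * C 2 0)) •
          (1 : Matrix (Fin 3) (Fin 3) ℂ) := by
    ext i j
    fin_cases i <;> fin_cases j <;>
      simp [Matrix.mul_apply, Fin.sum_univ_three, Matrix.trace_fin_three] <;>
      ring
  have h1 : A * C * A = A * A * C := by rw [mul_assoc, ← h, ← mul_assoc]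
  have h2 : C * A * A = A * A * C := by rw [← h, h1]
  rw [h1, h2, ← h] at hg
  have h3 : (3 : ℂ) • (A * A * C) = A * A * C + A * A * C + A * A * C := by module
  rw [← h3, ← add_smul, ← two_mul] at hg
  exact ⟨_, hg⟩

private theorem mc_abs {S : Type} [CommRing S] [Algebra ℂ S] (T : S →ₗ[ℂ] ℂ) (a c g : S)
    (σ s d τ d' : ℂ) (h1 : T 1 = 3) (h : g * a * c = g + (2 : ℂ) • (1 : S))
    (ha : a * a * a = σ • (a * a) - s • a + d • (1 : S)) (hs : s = (σ ^ 2 - T (a * a)) / 2)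
    (hσ : T a = σ) (hτ : T c = τ)
    (hp : (3 : ℂ) • (a * a * c) = (2 * σ) • (a * c) + τ • (a * a) - s • c -
      (σ * τ - T (a * c)) • a + d' • (1 : S))
    (t0 : T g = -4) (t1 : T (g * a) = 0) (t2 : T (g * c) = 0) (t3 : T (g * a * a) = 0)
    (t4 : T (g * c * c) = 0) : σ = 0 ∧ T (a * a) = 0 ∧ d' = 0 ∧ s = 0 := by
  have e1 : g * a * a + (2 : ℂ) • (a * a) =
      σ • (g * a + (2 : ℂ) • a) - s • (g + (2 : ℂ) • (1 : S)) + d • (g * c) := by
    simp only [Algebra.smul_def] at h ha ⊢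
    linear_combination (-(a * a) + algebraMap ℂ S σ * a - algebraMap ℂ S s) * h + g * c * ha
  have e1' := congrArg T e1
  simp only [map_add, map_sub, map_smul, smul_eq_mul, t0, t1, t2, t3, h1, hσ] at e1'
  have hs0 : s = 0 := by linear_combination (-1 / 2) * e1' + 2 * hs
  have haa : T (a * a) = σ ^ 2 := by linear_combination 2 * hs - 2 * hs0
  subst hs0
  have e2 : g * a + (2 : ℂ) • a + (2 : ℂ) • (a * a * c) =
      σ • (g + (2 : ℂ) • (1 : S) + (2 : ℂ) • (a * c)) + d • (g * c * c) := by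
    simp only [Algebra.smul_def, map_zero, zero_mul, sub_zero] at h ha ⊢
    linear_combination (-(a * a * c) - a + algebraMap ℂ S σ * (a * c) + algebraMap ℂ S σ) * h +
      g * c * c * ha
  have e2' := congrArg T e2
  simp only [map_add, map_smul, smul_eq_mul, t0, t1, t4, h1, hσ] at e2'
  have h3 : T (a * a * c) = σ * T (a * c) := by linear_combination (1 / 2) * e2'
  have e3 := congrArg T hp
  simp only [map_add, map_sub, map_smul, smul_eq_mul, h1, hσ, hτ, haa, h3, zero_mul] at e3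
  have hd' : d' = 0 := by linear_combination (-1 / 3) * e3
  have e4 : (3 : ℂ) • (g * a + (2 : ℂ) • a) = (2 * σ) • (g + (2 : ℂ) • (1 : S)) +
      τ • (g * a * a) - (σ * τ - T (a * c)) • (g * a) := by
    rw [hd'] at hp
    simp only [Algebra.smul_def, map_zero, zero_mul, sub_zero, add_zero] at h hp ⊢
    linear_combination (algebraMap ℂ S (2 * σ) - algebraMap ℂ S 3 * a) * h + g * hp
  have e4' := congrArg T e4
  simp only [map_add, map_sub, map_smul, smul_eq_mul, h1, hσ, t0, t1, t3] at e4'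
  have hσ0 : σ = 0 := by linear_combination (1 / 2) * e4'
  exact ⟨hσ0, by rw [haa, hσ0]; ring, hd', rfl⟩

private theorem mc_half (A C G : Matrix (Fin 3) (Fin 3) ℂ) (hAC : A * C = C * A)
    (hAG : A * G = G * A)
    (hCG : C * G = G * C) (h : G * A * C = G + (2 : ℂ) • (1 : Matrix (Fin 3) (Fin 3) ℂ))
    (t0 : G.trace = -4) (t1 : (G * A).trace = 0) (t2 : (G * C).trace = 0)
    (t3 : (G * A * A).trace = 0) (t4 : (G * C * C).trace = 0) :
    A.trace = 0 ∧ (A * A).trace = 0 := by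
  have hcomm : ∀ x ∈ ({A, C, G} : Set (Matrix (Fin 3) (Fin 3) ℂ)),
      ∀ y ∈ ({A, C, G} : Set (Matrix (Fin 3) (Fin 3) ℂ)), x * y = y * x := by
    intro x hx y hy
    rcases hx with rfl | rfl | rfl <;> rcases hy with rfl | rfl | rfl <;>
      first | rfl | assumption | (symm; assumption)
  letI : CommRing (Algebra.adjoin ℂ ({A, C, G} : Set (Matrix (Fin 3) (Fin 3) ℂ))) :=
    Algebra.adjoinCommRingOfComm ℂ hcomm
  obtain ⟨d', hp⟩ := cayley3_pol A C hAC
  let a : Algebra.adjoin ℂ ({A, C, G} : Set (Matrix (Fin 3) (Fin 3) ℂ)) :=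
    ⟨A, Algebra.subset_adjoin (by simp)⟩
  let c : Algebra.adjoin ℂ ({A, C, G} : Set (Matrix (Fin 3) (Fin 3) ℂ)) :=
    ⟨C, Algebra.subset_adjoin (by simp)⟩
  let g : Algebra.adjoin ℂ ({A, C, G} : Set (Matrix (Fin 3) (Fin 3) ℂ)) :=
    ⟨G, Algebra.subset_adjoin (by simp)⟩
  have key := mc_abs
    ((Matrix.traceLinearMap (Fin 3) ℂ ℂ) ∘ₗ
      (Algebra.adjoin ℂ ({A, C, G} : Set (Matrix (Fin 3) (Fin 3) ℂ))).val.toLinearMap) a c g
    A.trace ((A.trace ^ 2 - (A * A).trace) / 2) A.det C.trace d' ?_ (Subtype.ext h)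
    (Subtype.ext (cayley3 A)) rfl rfl rfl (Subtype.ext hp) t0 t1 t2 t3 t4
  · exact ⟨key.1, key.2.1⟩
  · change (1 : Matrix (Fin 3) (Fin 3) ℂ).trace = 3
    rw [Matrix.trace_one]
    simp

/-- The core. `G * A * C = G + 2`. Write `σ = tr A`, `s = (σ² - tr A²)/2`, `d = det A`, and
`τ, t, e` for `C`. Proof.
(1) `tr (A C G) = tr (G + 2) = 2`; `tr (G A C A) = tr (G A + 2 A) = 2 σ`;
`tr (G A C A A) = tr (G A A + 2 A A) = 2 tr (A A) = 2 σ² - 4 s`. Multiply `cayley3 A` by `G C` and take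
the trace: `tr (G C A A A) = σ tr (G C A A) - s tr (G C A) + d tr (G C) = 2 σ² - 2 s`.
Hence `s = 0`. In the same way `t = 0`.
(2) `tr (G A C A C) = tr (G A C + 2 A C) = 2 + 2 tr (A C)`, and
`tr (G A C A A C) = tr (G A A C + 2 A A C) = 2 σ + 2 tr (A A C)`; on the other hand multiply
`cayley3 A` by `G C C`: `tr (G C C A A A) = σ tr (G C C A A) - 0 + d tr (G C C) = σ (2 + 2 tr (A C))`.
So `tr (A A C) = σ tr (A C)`.
(3) Trace of `cayley3_pol A C` with `s = 0`: `3 tr (AAC) = 2 σ tr (AC) + τ tr (AA)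
- (σ τ - tr (AC)) σ + 3 d₂₁`, and `tr (AA) = σ²`, so `3 d₂₁ = 3 σ tr(AC) - 3 σ tr(AC) = 0`.
Multiply `cayley3_pol` by `G` and take the trace: `3 tr (G A A C) = 6 σ`; right side
`2 σ tr (G A C) + 0 - 0 - 0 + 0 = 4 σ`. So `σ = 0`; in the same way `τ = 0`.
(4) So `A A A = d • 1`, `tr (AA) = 0`. If `d = 0` then `(G + 2)^3 = (G A C)^3 = 0`, so the trace of the
nilpotent matrix `G + 2` is zero, but it is `-4 + 6 = 2`. So `d ≠ 0`, `A` is invertible and
`3 A A C = tr (A C) • A` gives `A C = (tr (A C) / 3) • 1 =: π • 1`.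
Then `G (π - 1) = 2`, trace: `-4 (π - 1) = 6`, `π = -1/2`, `G = -4/3`. -/
theorem mat_core (A C G : Matrix (Fin 3) (Fin 3) ℂ) (hAC : A * C = C * A) (hAG : A * G = G * A)
    (hCG : C * G = G * C) (h : G * A * C = G + (2 : ℂ) • (1 : Matrix (Fin 3) (Fin 3) ℂ))
    (t0 : G.trace = -4) (t1 : (G * A).trace = 0) (t2 : (G * C).trace = 0)
    (t3 : (G * A * A).trace = 0) (t4 : (G * C * C).trace = 0) :
    G = (-(4 / 3) : ℂ) • (1 : Matrix (Fin 3) (Fin 3) ℂ) ∧
      A * C = (-(1 / 2) : ℂ) • (1 : Matrix (Fin 3) (Fin 3) ℂ) ∧ A.trace = 0 ∧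
      (A * A).trace = 0 ∧ A.det ≠ 0 := by
  obtain ⟨hA1, hA2⟩ := mc_half A C G hAC hAG hCG h t0 t1 t2 t3 t4
  have h' : G * C * A = G + (2 : ℂ) • (1 : Matrix (Fin 3) (Fin 3) ℂ) := by
    rw [mul_assoc, ← hAC, ← mul_assoc, h]
  obtain ⟨hC1, hC2⟩ := mc_half C A G hAC.symm hCG hAG h' t0 t2 t1 t4 t3
  have h3 : A * A * A = A.det • (1 : Matrix (Fin 3) (Fin 3) ℂ) := by
    rw [cayley3 A, hA1, hA2]
    simp
  obtain ⟨d', hp⟩ := cayley3_pol A C hAC
  rw [hA1, hA2, hC1] at hp
  simp only [mul_zero, zero_smul, zero_add, sub_zero, ne_eq, OfNat.ofNat_ne_zero,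
    not_false_eq_true, zero_pow, zero_div, zero_sub, neg_smul, neg_neg, mul_zero] at hp
  have hone : (1 : Matrix (Fin 3) (Fin 3) ℂ).trace = 3 := by
    rw [Matrix.trace_one]
    simp
  -- `d' = 0`: multiply by `G`
  have hGAAC : G * (A * A * C) = G * A + (2 : ℂ) • A := by
    calc G * (A * A * C) = G * (A * (A * C)) := by rw [mul_assoc A A C]
      _ = G * (A * (C * A)) := by rw [hAC]
      _ = (G * A * C) * A := by simp only [mul_assoc]
      _ = G * A + (2 : ℂ) • A := by rw [h, add_mul, smul_mul_assoc, one_mul]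
  have hd' : d' = 0 := by
    have e := congrArg (fun M => (G * M).trace) hp
    simp only [mul_smul_comm, hGAAC, mul_add, mul_one, Matrix.trace_smul, Matrix.trace_add, t0,
      t1, hA1, smul_eq_mul] at e
    linear_combination (1 / 4) * e
  rw [hd', zero_smul, add_zero] at hp
  have hd : A.det ≠ 0 := by
    intro hd0
    rw [hd0, zero_smul] at h3
    have hA3 : A ^ 3 = 0 := by rw [pow_succ, pow_two, h3]
    have hAC' : Commute A C := hAC
    have hAG' : Commute A G := hAG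
    have hCG' : Commute C G := hCG
    have hn : IsNilpotent (G + (2 : ℂ) • (1 : Matrix (Fin 3) (Fin 3) ℂ)) := by
      rw [← h]
      refine ⟨3, ?_⟩
      have c1 : Commute (G * A) C := (hCG'.symm.mul_left hAC')
      rw [c1.mul_pow, hAG'.symm.mul_pow, hA3, mul_zero, zero_mul]
    have ht := Matrix.isNilpotent_trace_of_isNilpotent hn
    rw [Matrix.trace_add, Matrix.trace_smul, hone, t0, isNilpotent_iff_eq_zero, smul_eq_mul] at ht
    norm_num at ht
  have hAC3 : A * C = ((A * C).trace / 3) • (1 : Matrix (Fin 3) (Fin 3) ℂ) := by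
    have e := congrArg (fun M => A * A * M) hp
    simp only [mul_smul_comm] at e
    have e5 : A * A * (A * A * C) = A.det • (A * C) := by
      calc A * A * (A * A * C) = (A * A * A) * (A * C) := by simp only [mul_assoc]
        _ = A.det • (A * C) := by rw [h3, smul_mul_assoc, one_mul]
    rw [e5, h3] at e
    have e6 := congrArg (fun M => ((A.det)⁻¹ * (1 / 3)) • M) e
    simp only [smul_smul] at e6
    have h7 : A.det⁻¹ * (1 / 3) * 3 * A.det = 1 := by field_simp
    have h8 : A.det⁻¹ * (1 / 3) * (A * C).trace * A.det = (A * C).trace / 3 := by field_simp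
    rwa [← mul_assoc, ← mul_assoc, h7, h8, one_smul] at e6
  set π := (A * C).trace / 3 with hπ
  have h9 : G * (A * C) = π • G := by rw [hAC3, mul_smul_comm, mul_one]
  rw [← mul_assoc, h] at h9
  have h10 := congrArg Matrix.trace h9
  rw [Matrix.trace_add, Matrix.trace_smul, Matrix.trace_smul, hone, t0, smul_eq_mul,
    smul_eq_mul] at h10
  have hπ2 : π = -(1 / 2) := by linear_combination (1 / 4) * h10
  refine ⟨?_, by rw [hAC3, hπ2], hA1, hA2, hd⟩
  rw [hπ2] at h9
  have h11 : G = (-(4 / 3) : ℂ) • (1 : Matrix (Fin 3) (Fin 3) ℂ) := by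
    have h12 : (3 / 2 : ℂ) • G = (-2 : ℂ) • (1 : Matrix (Fin 3) (Fin 3) ℂ) := by
      have h13 : (3 / 2 : ℂ) • G = G - (-(1 / 2) : ℂ) • G := by
        module
      rw [h13, ← h9]
      module
    have h14 := congrArg (fun M => (2 / 3 : ℂ) • M) h12
    simp only [smul_smul] at h14
    norm_num at h14
    rw [h14]
    norm_num
  exact h11

end Pool.Agent.Helper36.WR
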