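import Pool.Agent.Helper36.WR.L12
import Pool.Agent.Helper36.WR.Mc

set_option autoImplicit false

/-!
The Gram matrix of the three-dimensional quotient.
-/

namespace Pool.Agent.Helper36.WR

open Matrix

namespace Dat

variable {r : ℕ} (D : Dat r)

/-- A combination of the `B` whose matrix has determinant zero and which is affine is zero. -/
theorem zero_of_det_zero (hr : r ≤ 17) {d0 d1 d2 d3 : ℂ} (h0 : d0 * d3 - d1 * d2 = 0)
    (h : D.inA (fun a => d0 * D.B11 a + d1 * D.B12 a + d2 * D.B21 a + d3 * D.B22 a)) :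
    d0 = 0 ∧ d1 = 0 ∧ d2 = 0 ∧ d3 = 0 := by
  by_contra hd
  by_cases hrow : d0 = 0 ∧ d1 = 0
  · refine D.not_rank_one hr (v₁ := 0) (v₂ := 1) (w₁ := d2) (w₂ := d3) (by simp) ?_ ?_
    · exact fun h => hd ⟨hrow.1, hrow.2, h.1, h.2⟩
    · obtain ⟨c0, c1, c2, c3, c4, e⟩ := h
      exact ⟨c0, c1, c2, c3, c4, fun a => by rw [← e a, hrow.1, hrow.2]; ring⟩
  · have hs : ∃ s : ℂ, d2 = s * d0 ∧ d3 = s * d1 := by
      by_cases h1 : d0 = 0
      · have h2 : d1 ≠ 0 := fun h2 => hrow ⟨h1, h2⟩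
        refine ⟨d3 / d1, ?_, by field_simp⟩
        rw [h1] at h0 ⊢
        have : d1 * d2 = 0 := by linear_combination -h0
        rcases mul_eq_zero.mp this with h | h
        · exact absurd h h2
        · rw [h]; ring
      · exact ⟨d2 / d0, by field_simp, by field_simp; linear_combination h0⟩
    obtain ⟨s, hs1, hs2⟩ := hs
    refine D.not_rank_one hr (v₁ := 1) (v₂ := s) (w₁ := d0) (w₂ := d1) (by simp) hrow ?_
    obtain ⟨c0, c1, c2, c3, c4, e⟩ := h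
    exact ⟨c0, c1, c2, c3, c4, fun a => by rw [← e a, hs1, hs2]; ring⟩

/-- `B11, B12, B22` are independent modulo the affine functions. Let `s` be a root of
`c₁ c₃ + s (c₂ + s) = 0`; adding `s (B12 - B21)` gives the combination with matrix
`[[c₁, c₂ + s], [-s, c₃]]` of determinant zero, which by `not_rank_one` is zero (a matrix of
determinant zero is `v wᵀ`, see the proof of `exists_H`); so `c₁ = c₃ = 0`, `s = 0`, `c₂ = 0`. -/
theorem indep_B (hr : r ≤ 17) (H : D.inA (fun a => D.B12 a - D.B21 a)) {c₁ c₂ c₃ : ℂ}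
    (h : D.inA (fun a => c₁ * D.B11 a + c₂ * D.B12 a + c₃ * D.B22 a)) :
    c₁ = 0 ∧ c₂ = 0 ∧ c₃ = 0 := by
  obtain ⟨w, hw⟩ : ∃ w : ℂ, w ^ 2 = c₂ ^ 2 - 4 * (c₁ * c₃) :=
    IsAlgClosed.exists_pow_nat_eq _ (by norm_num)
  set s : ℂ := (w - c₂) / 2 with hs
  have h0 : c₁ * c₃ - (c₂ + s) * (-s) = 0 := by
    rw [hs]
    linear_combination (1 / 4) * hw
  have hin : D.inA (fun a => c₁ * D.B11 a + (c₂ + s) * D.B12 a + (-s) * D.B21 a +
      c₃ * D.B22 a) := by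
    obtain ⟨x0, x1, x2, x3, x4, hx⟩ := H
    obtain ⟨y0, y1, y2, y3, y4, hy⟩ := h
    refine ⟨y0 + s * x0, y1 + s * x1, y2 + s * x2, y3 + s * x3, y4 + s * x4, fun a => ?_⟩
    have e1 := hx a
    have e2 := hy a
    beta_reduce at e1 e2 ⊢
    linear_combination e2 + s * e1
  obtain ⟨z0, z1, z2, z3⟩ := D.zero_of_det_zero hr h0 hin
  have z4 : s = 0 := by linear_combination -z2
  exact ⟨z0, by linear_combination z1 - z4, z3⟩

/-- `B11, B12, B22` span `K` modulo the affine functions (`dep4` and `indep_B`). -/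
theorem span_K (hr : r ≤ 17) (H : D.inA (fun a => D.B12 a - D.B21 a)) {f : Fin r → ℂ}
    (hf : D.inK f) :
    ∃ x y z : ℂ, D.inA (fun a => f a - (x * D.B11 a + y * D.B12 a + z * D.B22 a)) := by
  obtain ⟨d0, d1, d2, d3, hd, hrel⟩ := D.dep4 hr hf D.inK_B11 D.inK_B12 D.inK_B22
  obtain ⟨c0, c1, c2, c3, c4, e⟩ := hrel
  have h0 : d0 ≠ 0 := by
    intro h0
    have hin : D.inA (fun a => d1 * D.B11 a + d2 * D.B12 a + d3 * D.B22 a) := by
      refine ⟨c0, c1, c2, c3, c4, fun a => ?_⟩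
      rw [← e a, h0]
      ring
    obtain ⟨z1, z2, z3⟩ := D.indep_B hr H hin
    exact hd ⟨h0, z1, z2, z3⟩
  refine ⟨-(d1 / d0), -(d2 / d0), -(d3 / d0), c0 / d0, c1 / d0, c2 / d0, c3 / d0, c4 / d0,
    fun a => ?_⟩
  have e1 := e a
  beta_reduce at e1 ⊢
  field_simp
  linear_combination e1

/-- Pairings do not distinguish `B12` and `B21`. -/
theorem pair_H (H : D.inA (fun a => D.B12 a - D.B21 a)) {g : Fin r → ℂ} (hg : D.inK g) :
    D.phi (fun a => g a * D.B12 a) = D.phi (fun a => g a * D.B21 a) := by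
  have := D.inA_perp H hg
  rw [← sub_eq_zero, ← D.phi_sub, ← this]
  exact D.phi_congr fun a => by ring

/-- Pairing with an element of `K` which is known modulo the affine functions. -/
theorem pair3 {f g : Fin r → ℂ} (hg : D.inK g) {x y z : ℂ}
    (h : D.inA (fun a => f a - (x * D.B11 a + y * D.B12 a + z * D.B22 a))) :
    D.phi (fun a => g a * f a) = x * D.phi (fun a => g a * D.B11 a) +
      y * D.phi (fun a => g a * D.B12 a) + z * D.phi (fun a => g a * D.B22 a) := by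
  have e := D.inA_perp h hg
  have e2 : D.phi (fun a => (f a - (x * D.B11 a + y * D.B12 a + z * D.B22 a)) * g a) =
      ∑ k, (![1, -x, -y, -z] : Fin 4 → ℂ) k *
        D.phi ((![fun a => g a * f a, fun a => g a * D.B11 a, fun a => g a * D.B12 a,
          fun a => g a * D.B22 a] : Fin 4 → Fin r → ℂ) k) := by
    refine D.phi_lin _ _ fun a => ?_
    simp only [Fin.sum_univ_succ, Fin.sum_univ_zero, Matrix.cons_val_zero, Matrix.cons_val_succ]
    ring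
  rw [e] at e2
  simp only [Fin.sum_univ_succ, Fin.sum_univ_zero, Matrix.cons_val_zero,
    Matrix.cons_val_succ] at e2
  linear_combination -e2

/-- The Gram matrix of `B11, B12, B22`. -/
noncomputable def GG : Matrix (Fin 3) (Fin 3) ℂ :=
  !![D.q 2 0 2 0, D.q 2 0 1 1, D.q 1 1 1 1 - 1;
     D.q 2 0 1 1, D.q 1 1 1 1 + 1, D.q 1 1 0 2;
     D.q 1 1 1 1 - 1, D.q 1 1 0 2, D.q 0 2 0 2]

theorem GG_det_ne (hr : r ≤ 17) (H : D.inA (fun a => D.B12 a - D.B21 a)) : D.GG.det ≠ 0 := by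
  intro h0
  have w1 := D.pair_H H D.inK_B12
  rw [D.g_B12_B12, D.g_B12_B21] at w1
  obtain ⟨v, hv, hv0⟩ := Matrix.exists_mulVec_eq_zero_iff.mpr h0
  have c0 := congrFun hv0 0
  have c1 := congrFun hv0 1
  have c2 := congrFun hv0 2
  simp only [GG, Matrix.mulVec, dotProduct, Fin.sum_univ_three, Matrix.of_apply,
    Matrix.cons_val_zero, Matrix.cons_val_one, Matrix.cons_val, Pi.zero_apply] at c0 c1 c2
  set f : Fin r → ℂ := fun a => v 0 * D.B11 a + v 1 * D.B12 a + v 2 * D.B22 a with hf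
  have fK : D.inK f := D.inK_add (D.inK_add (D.inK_smul _ D.inK_B11) (D.inK_smul _ D.inK_B12))
    (D.inK_smul _ D.inK_B22)
  have lin : ∀ g : Fin r → ℂ, D.phi (fun a => f a * g a) =
      v 0 * D.phi (fun a => D.B11 a * g a) + v 1 * D.phi (fun a => D.B12 a * g a) +
        v 2 * D.phi (fun a => D.B22 a * g a) := by
    intro g
    have e : D.phi (fun a => f a * g a) = ∑ k, (![v 0, v 1, v 2] : Fin 3 → ℂ) k *
        D.phi ((![fun a => D.B11 a * g a, fun a => D.B12 a * g a,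
          fun a => D.B22 a * g a] : Fin 3 → Fin r → ℂ) k) := by
      refine D.phi_lin _ _ fun a => ?_
      simp only [Fin.sum_univ_succ, Fin.sum_univ_zero, Matrix.cons_val_zero,
        Matrix.cons_val_succ, hf]
      ring
    rw [e]
    simp only [Fin.sum_univ_succ, Fin.sum_univ_zero, Matrix.cons_val_zero, Matrix.cons_val_succ]
    ring
  have p1 : D.phi (fun a => f a * D.B11 a) = 0 := by
    rw [lin, D.phi_comm D.B12 D.B11, D.phi_comm D.B22 D.B11, D.g_B11_B11, D.g_B11_B12,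
      D.g_B11_B22]
    linear_combination c0
  have p2 : D.phi (fun a => f a * D.B12 a) = 0 := by
    rw [lin, D.phi_comm D.B22 D.B12, D.g_B11_B12, D.g_B12_B12, D.g_B12_B22, w1]
    linear_combination c1
  have p3 : D.phi (fun a => f a * D.B22 a) = 0 := by
    rw [lin, D.g_B11_B22, D.g_B12_B22, D.g_B22_B22]
    linear_combination c2
  have hA : D.inA f := by
    refine D.inA_of_perp fK fun g hg => ?_
    obtain ⟨x, y, z, h⟩ := D.span_K hr H hg
    rw [D.pair3 fK h, p1, p2, p3]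
    ring
  obtain ⟨z0, z1, z2⟩ := D.indep_B hr H hA
  exact hv (funext fun i => by fin_cases i <;> simp [z0, z1, z2])

/-- The Gram matrix of `B11, B12, B22` (with `H`), the Hankel matrices and the conclusion of
`mat_core`. Proof. Let `𝖠` be the matrix with `(XX, XY, YY) = (B11, B12, B22) 𝖠` modulo `A` (columns from
`span_K`), `𝖢` the one of `(SS, ST, TT)`, `G` the Gram matrix of `B11, B12, B22` and
`g = [[0,0,1],[0,-1/2,0],[1,0,0]]`. Pairings with elements of `K` are compatible with the relations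
(`inA_perp`). Then `G 𝖠`, `G 𝖢`, `𝖠ᵀ G 𝖠`, `𝖢ᵀ G 𝖢` are Hankel matrices, i.e. `M₀₂ = M₁₁` and symmetric,
and `𝖠ᵀ G 𝖢 = G + 2 g` (Gram matrix of `XX, XY, YY` against `SS, ST, TT`; use `pair_H` for
`q2002 = q1111 + 1 = q0220`, `q1120 = q2011`, `q0211 = q1102`). `G` is invertible (`inA_of_perp` and
`indep_B`). With `Γ = g⁻¹ G` apply `mat_core` (commutation: transpose of `𝖠ᵀ G 𝖢 = G + 2 g` gives
`Γ 𝖠 𝖢 = Γ + 2 = Γ 𝖢 𝖠`, so `𝖠 𝖢 = 𝖢 𝖠 = 1 + 2 Γ⁻¹`, which commutes with `𝖠`, `𝖢`). -/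
theorem gram3 (hr : r ≤ 17) (H : D.inA (fun a => D.B12 a - D.B21 a)) :
    D.q 2 0 2 0 = 0 ∧ D.q 2 0 1 1 = 0 ∧ D.q 1 1 2 0 = 0 ∧ D.q 1 1 0 2 = 0 ∧ D.q 0 2 1 1 = 0 ∧
      D.q 0 2 0 2 = 0 ∧ D.q 1 1 1 1 = -(1 / 3) ∧ D.q 2 0 0 2 = 2 / 3 ∧ D.q 0 2 2 0 = 2 / 3 ∧
      D.q 3 0 1 0 * D.q 0 3 0 1 - 4 * D.q 3 0 0 1 * D.q 1 2 0 1 + 3 * D.q 2 1 0 1 ^ 2 = 0 ∧
      D.q 3 0 1 0 * D.q 2 1 0 1 * D.q 0 3 0 1 + 2 * D.q 3 0 0 1 * D.q 2 1 0 1 * D.q 1 2 0 1
        - D.q 2 1 0 1 ^ 3 - D.q 3 0 1 0 * D.q 1 2 0 1 ^ 2 - D.q 3 0 0 1 ^ 2 * D.q 0 3 0 1 ≠ 0 := by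
  -- relations from `pair_H`
  have w1 := D.pair_H H D.inK_B12
  have w2 := D.pair_H H D.inK_B21
  have w3 := D.pair_H H D.inK_B11
  have w4 := D.pair_H H D.inK_B22
  have w5 := D.pair_H H D.inK_XX
  have w6 := D.pair_H H D.inK_XY
  have w7 := D.pair_H H D.inK_YY
  have w8 := D.pair_H H D.inK_SS
  have w9 := D.pair_H H D.inK_ST
  have w10 := D.pair_H H D.inK_TT
  rw [D.g_B12_B12, D.g_B12_B21] at w1
  rw [D.phi_comm D.B21 D.B12, D.g_B12_B21, D.g_B21_B21] at w2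
  rw [D.g_B11_B12, D.g_B11_B21] at w3
  rw [D.phi_comm D.B22 D.B12, D.phi_comm D.B22 D.B21, D.g_B12_B22, D.g_B21_B22] at w4
  rw [D.g_XX_B12, D.g_XX_B21] at w5
  rw [D.g_XY_B12, D.g_XY_B21] at w6
  rw [D.g_YY_B12, D.g_YY_B21] at w7
  rw [D.g_SS_B12, D.g_SS_B21] at w8
  rw [D.g_ST_B12, D.g_ST_B21] at w9
  rw [D.g_TT_B12, D.g_TT_B21] at w10
  obtain ⟨x0, y0, z0, e0⟩ := D.span_K hr H D.inK_XX
  obtain ⟨x1, y1, z1, e1⟩ := D.span_K hr H D.inK_XY
  obtain ⟨x2, y2, z2, e2⟩ := D.span_K hr H D.inK_YY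
  obtain ⟨u0, v0, t0, f0⟩ := D.span_K hr H D.inK_SS
  obtain ⟨u1, v1, t1, f1⟩ := D.span_K hr H D.inK_ST
  obtain ⟨u2, v2, t2, f2⟩ := D.span_K hr H D.inK_TT
  -- pairings with the `B`
  have a00 := D.pair3 D.inK_B11 e0
  have a10 := D.pair3 D.inK_B12 e0
  have a20 := D.pair3 D.inK_B22 e0
  have a01 := D.pair3 D.inK_B11 e1
  have a11 := D.pair3 D.inK_B12 e1
  have a21 := D.pair3 D.inK_B22 e1
  have a02 := D.pair3 D.inK_B11 e2
  have a12 := D.pair3 D.inK_B12 e2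
  have a22 := D.pair3 D.inK_B22 e2
  have b00 := D.pair3 D.inK_B11 f0
  have b10 := D.pair3 D.inK_B12 f0
  have b20 := D.pair3 D.inK_B22 f0
  have b01 := D.pair3 D.inK_B11 f1
  have b11 := D.pair3 D.inK_B12 f1
  have b21 := D.pair3 D.inK_B22 f1
  have b02 := D.pair3 D.inK_B11 f2
  have b12 := D.pair3 D.inK_B12 f2
  have b22 := D.pair3 D.inK_B22 f2
  rw [D.phi_comm D.B11 D.XX, D.g_XX_B11, D.g_B11_B11, D.g_B11_B12, D.g_B11_B22] at a00
  rw [D.phi_comm D.B12 D.XX, D.phi_comm D.B12 D.B11, D.g_XX_B12, D.g_B11_B12, D.g_B12_B12,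
    D.g_B12_B22] at a10
  rw [D.phi_comm D.B22 D.XX, D.phi_comm D.B22 D.B11, D.phi_comm D.B22 D.B12, D.g_XX_B22,
    D.g_B11_B22, D.g_B12_B22, D.g_B22_B22] at a20
  rw [D.phi_comm D.B11 D.XY, D.g_XY_B11, D.g_B11_B11, D.g_B11_B12, D.g_B11_B22] at a01
  rw [D.phi_comm D.B12 D.XY, D.phi_comm D.B12 D.B11, D.g_XY_B12, D.g_B11_B12, D.g_B12_B12,
    D.g_B12_B22] at a11
  rw [D.phi_comm D.B22 D.XY, D.phi_comm D.B22 D.B11, D.phi_comm D.B22 D.B12, D.g_XY_B22,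
    D.g_B11_B22, D.g_B12_B22, D.g_B22_B22] at a21
  rw [D.phi_comm D.B11 D.YY, D.g_YY_B11, D.g_B11_B11, D.g_B11_B12, D.g_B11_B22] at a02
  rw [D.phi_comm D.B12 D.YY, D.phi_comm D.B12 D.B11, D.g_YY_B12, D.g_B11_B12, D.g_B12_B12,
    D.g_B12_B22] at a12
  rw [D.phi_comm D.B22 D.YY, D.phi_comm D.B22 D.B11, D.phi_comm D.B22 D.B12, D.g_YY_B22,
    D.g_B11_B22, D.g_B12_B22, D.g_B22_B22] at a22
  rw [D.phi_comm D.B11 D.SS, D.g_SS_B11, D.g_B11_B11, D.g_B11_B12, D.g_B11_B22] at b00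
  rw [D.phi_comm D.B12 D.SS, D.phi_comm D.B12 D.B11, D.g_SS_B12, D.g_B11_B12, D.g_B12_B12,
    D.g_B12_B22] at b10
  rw [D.phi_comm D.B22 D.SS, D.phi_comm D.B22 D.B11, D.phi_comm D.B22 D.B12, D.g_SS_B22,
    D.g_B11_B22, D.g_B12_B22, D.g_B22_B22] at b20
  rw [D.phi_comm D.B11 D.ST, D.g_ST_B11, D.g_B11_B11, D.g_B11_B12, D.g_B11_B22] at b01
  rw [D.phi_comm D.B12 D.ST, D.phi_comm D.B12 D.B11, D.g_ST_B12, D.g_B11_B12, D.g_B12_B12,
    D.g_B12_B22] at b11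
  rw [D.phi_comm D.B22 D.ST, D.phi_comm D.B22 D.B11, D.phi_comm D.B22 D.B12, D.g_ST_B22,
    D.g_B11_B22, D.g_B12_B22, D.g_B22_B22] at b21
  rw [D.phi_comm D.B11 D.TT, D.g_TT_B11, D.g_B11_B11, D.g_B11_B12, D.g_B11_B22] at b02
  rw [D.phi_comm D.B12 D.TT, D.phi_comm D.B12 D.B11, D.g_TT_B12, D.g_B11_B12, D.g_B12_B12,
    D.g_B12_B22] at b12
  rw [D.phi_comm D.B22 D.TT, D.phi_comm D.B22 D.B11, D.phi_comm D.B22 D.B12, D.g_TT_B22,
    D.g_B11_B22, D.g_B12_B22, D.g_B22_B22] at b22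
  -- pairings among `XX, XY, YY, SS, ST, TT`
  have c00 := D.pair3 D.inK_XX f0
  have c01 := D.pair3 D.inK_XX f1
  have c02 := D.pair3 D.inK_XX f2
  have c10 := D.pair3 D.inK_XY f0
  have c11 := D.pair3 D.inK_XY f1
  have c12 := D.pair3 D.inK_XY f2
  have c20 := D.pair3 D.inK_YY f0
  have c21 := D.pair3 D.inK_YY f1
  have c22 := D.pair3 D.inK_YY f2
  have d00 := D.pair3 D.inK_SS e0
  have d01 := D.pair3 D.inK_SS e1
  have d02 := D.pair3 D.inK_SS e2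
  have d10 := D.pair3 D.inK_ST e0
  have d11 := D.pair3 D.inK_ST e1
  have d12 := D.pair3 D.inK_ST e2
  have d20 := D.pair3 D.inK_TT e0
  have d21 := D.pair3 D.inK_TT e1
  have d22 := D.pair3 D.inK_TT e2
  have m02 := D.pair3 D.inK_XX e2
  have m11 := D.pair3 D.inK_XY e1
  have m20 := D.pair3 D.inK_YY e0
  have n02 := D.pair3 D.inK_SS f2
  have n11 := D.pair3 D.inK_ST f1
  have n20 := D.pair3 D.inK_TT f0
  rw [D.g_XX_SS, D.g_XX_B11, D.g_XX_B12, D.g_XX_B22] at c00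
  rw [D.g_XX_ST, D.g_XX_B11, D.g_XX_B12, D.g_XX_B22] at c01
  rw [D.g_XX_TT, D.g_XX_B11, D.g_XX_B12, D.g_XX_B22] at c02
  rw [D.g_XY_SS, D.g_XY_B11, D.g_XY_B12, D.g_XY_B22] at c10
  rw [D.g_XY_ST, D.g_XY_B11, D.g_XY_B12, D.g_XY_B22] at c11
  rw [D.g_XY_TT, D.g_XY_B11, D.g_XY_B12, D.g_XY_B22] at c12
  rw [D.g_YY_SS, D.g_YY_B11, D.g_YY_B12, D.g_YY_B22] at c20
  rw [D.g_YY_ST, D.g_YY_B11, D.g_YY_B12, D.g_YY_B22] at c21
  rw [D.g_YY_TT, D.g_YY_B11, D.g_YY_B12, D.g_YY_B22] at c22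
  rw [D.phi_comm D.SS D.XX, D.g_XX_SS, D.g_SS_B11, D.g_SS_B12, D.g_SS_B22] at d00
  rw [D.phi_comm D.SS D.XY, D.g_XY_SS, D.g_SS_B11, D.g_SS_B12, D.g_SS_B22] at d01
  rw [D.phi_comm D.SS D.YY, D.g_YY_SS, D.g_SS_B11, D.g_SS_B12, D.g_SS_B22] at d02
  rw [D.phi_comm D.ST D.XX, D.g_XX_ST, D.g_ST_B11, D.g_ST_B12, D.g_ST_B22] at d10
  rw [D.phi_comm D.ST D.XY, D.g_XY_ST, D.g_ST_B11, D.g_ST_B12, D.g_ST_B22] at d11
  rw [D.phi_comm D.ST D.YY, D.g_YY_ST, D.g_ST_B11, D.g_ST_B12, D.g_ST_B22] at d12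
  rw [D.phi_comm D.TT D.XX, D.g_XX_TT, D.g_TT_B11, D.g_TT_B12, D.g_TT_B22] at d20
  rw [D.phi_comm D.TT D.XY, D.g_XY_TT, D.g_TT_B11, D.g_TT_B12, D.g_TT_B22] at d21
  rw [D.phi_comm D.TT D.YY, D.g_YY_TT, D.g_TT_B11, D.g_TT_B12, D.g_TT_B22] at d22
  rw [D.g_XX_YY, D.g_XX_B11, D.g_XX_B12, D.g_XX_B22] at m02
  rw [D.g_XY_XY, D.g_XY_B11, D.g_XY_B12, D.g_XY_B22] at m11
  rw [D.phi_comm D.YY D.XX, D.g_XX_YY, D.g_YY_B11, D.g_YY_B12, D.g_YY_B22] at m20
  rw [D.g_SS_TT, D.g_SS_B11, D.g_SS_B12, D.g_SS_B22] at n02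
  rw [D.g_ST_ST, D.g_ST_B11, D.g_ST_B12, D.g_ST_B22] at n11
  rw [D.phi_comm D.TT D.SS, D.g_SS_TT, D.g_TT_B11, D.g_TT_B12, D.g_TT_B22] at n20
  simp only [← w3, ← w4, w1, ← w2, ← w5, ← w6, ← w7, ← w8, ← w9, ← w10]
    at a00 a10 a20 a01 a11 a21 a02 a12 a22
  simp only [← w3, ← w4, w1, ← w2, ← w5, ← w6, ← w7, ← w8, ← w9, ← w10]
    at b00 b10 b20 b01 b11 b21 b02 b12 b22
  simp only [← w3, ← w4, w1, ← w2, ← w5, ← w6, ← w7, ← w8, ← w9, ← w10]
    at c00 c01 c02 c10 c11 c12 c20 c21 c22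
  simp only [← w3, ← w4, w1, ← w2, ← w5, ← w6, ← w7, ← w8, ← w9, ← w10]
    at d00 d01 d02 d10 d11 d12 d20 d21 d22
  simp only [← w3, ← w4, w1, ← w2, ← w5, ← w6, ← w7, ← w8, ← w9, ← w10]
    at m02 m11 m20 n02 n11 n20
  -- the matrices
  set A : Matrix (Fin 3) (Fin 3) ℂ := !![x0, x1, x2; y0, y1, y2; z0, z1, z2] with hA
  set C : Matrix (Fin 3) (Fin 3) ℂ := !![u0, u1, u2; v0, v1, v2; t0, t1, t2] with hC
  set P : Matrix (Fin 3) (Fin 3) ℂ := !![D.q 3 0 1 0, D.q 3 0 0 1, D.q 2 1 0 1;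
    D.q 3 0 0 1, D.q 2 1 0 1, D.q 1 2 0 1; D.q 2 1 0 1, D.q 1 2 0 1, D.q 0 3 0 1] with hP
  set R : Matrix (Fin 3) (Fin 3) ℂ := !![D.q 1 0 3 0, D.q 1 0 2 1, D.q 1 0 1 2;
    D.q 1 0 2 1, D.q 1 0 1 2, D.q 1 0 0 3; D.q 1 0 1 2, D.q 1 0 0 3, D.q 0 1 0 3] with hR
  set gi : Matrix (Fin 3) (Fin 3) ℂ := !![0, 0, 1; 0, -2, 0; 1, 0, 0] with hgi
  set gg : Matrix (Fin 3) (Fin 3) ℂ := !![0, 0, 2; 0, -1, 0; 2, 0, 0] with hgg
  have hGA : D.GG * A = P := by
    rw [hA, hP, GG]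
    ext i j
    fin_cases i <;> fin_cases j <;>
      simp [Matrix.mul_apply, Fin.sum_univ_three]
    · linear_combination -a00
    · linear_combination -a01
    · linear_combination -a02
    · linear_combination -a10
    · linear_combination -a11
    · linear_combination -a12
    · linear_combination -a20
    · linear_combination -a21
    · linear_combination -a22
  have hGC : D.GG * C = R := by
    rw [hC, hR, GG]
    ext i j
    fin_cases i <;> fin_cases j <;>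
      simp [Matrix.mul_apply, Fin.sum_univ_three]
    · linear_combination -b00
    · linear_combination -b01
    · linear_combination -b02
    · linear_combination -b10
    · linear_combination -b11
    · linear_combination -b12
    · linear_combination -b20
    · linear_combination -b21
    · linear_combination -b22
  have hPC : P * C = D.GG + gg := by
    rw [hC, hP, GG, hgg]
    ext i j
    fin_cases i <;> fin_cases j <;>
      simp [Matrix.mul_apply, Fin.sum_univ_three]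
    · linear_combination -c00
    · linear_combination -c01
    · linear_combination -c02
    · linear_combination -c10
    · linear_combination -c11
    · linear_combination -c12
    · linear_combination -c20
    · linear_combination -c21
    · linear_combination -c22
  have hRA : R * A = D.GG + gg := by
    rw [hA, hR, GG, hgg]
    ext i j
    fin_cases i <;> fin_cases j <;>
      simp [Matrix.mul_apply, Fin.sum_univ_three]
    · linear_combination -d00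
    · linear_combination -d01
    · linear_combination -d02
    · linear_combination -d10
    · linear_combination -d11
    · linear_combination -d12
    · linear_combination -d20
    · linear_combination -d21
    · linear_combination -d22
  clear a00 a10 a20 a01 a11 a21 a02 a12 a22 b00 b10 b20 b01 b11 b21 b02 b12 b22
  clear c00 c01 c02 c10 c11 c12 c20 c21 c22 d00 d01 d02 d10 d11 d12 d20 d21 d22
  have hgG : gi * gg = (2 : ℂ) • (1 : Matrix (Fin 3) (Fin 3) ℂ) := by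
    rw [hgi, hgg]
    ext i j
    fin_cases i <;> fin_cases j <;> simp [Matrix.mul_apply, Fin.sum_univ_three]
  have hgid : gi.det ≠ 0 := by
    rw [hgi, Matrix.det_fin_three]
    simp
  have hΓdet : (gi * D.GG).det ≠ 0 := by
    rw [Matrix.det_mul]
    exact mul_ne_zero hgid (D.GG_det_ne hr H)
  obtain ⟨Γ, hΓ⟩ : ∃ Γ, Γ = gi * D.GG := ⟨_, rfl⟩
  rw [← hΓ] at hΓdet
  have hu : IsUnit Γ.det := isUnit_iff_ne_zero.mpr hΓdet
  have k1 : Γ * A * C = Γ + (2 : ℂ) • (1 : Matrix (Fin 3) (Fin 3) ℂ) := by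
    rw [hΓ, Matrix.mul_assoc gi, hGA, Matrix.mul_assoc gi, hPC, Matrix.mul_add, hgG]
  have k2 : Γ * C * A = Γ + (2 : ℂ) • (1 : Matrix (Fin 3) (Fin 3) ℂ) := by
    rw [hΓ, Matrix.mul_assoc gi, hGC, Matrix.mul_assoc gi, hRA, Matrix.mul_add, hgG]
  have hAC : A * C = C * A := by
    have e : Γ * (A * C) = Γ * (C * A) := by
      rw [← Matrix.mul_assoc, ← Matrix.mul_assoc, k1, k2]
    have e' := congrArg (fun M => Γ⁻¹ * M) e
    simpa only [Matrix.nonsing_inv_mul_cancel_left Γ _ hu] using e'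
  obtain ⟨M, hM⟩ : ∃ M, M = A * C - 1 := ⟨_, rfl⟩
  have hΓM : Γ * ((1 / 2 : ℂ) • M) = 1 := by
    rw [hM, Matrix.mul_smul, Matrix.mul_sub, Matrix.mul_one, ← Matrix.mul_assoc, k1,
      add_sub_cancel_left, smul_smul]
    norm_num
  have hMΓ : ((1 / 2 : ℂ) • M) * Γ = 1 := mul_eq_one_comm.mp hΓM
  have comm : ∀ B : Matrix (Fin 3) (Fin 3) ℂ, B * M = M * B → B * Γ = Γ * B := by
    intro B hB
    have hB' : B * ((1 / 2 : ℂ) • M) = ((1 / 2 : ℂ) • M) * B := by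
      rw [Matrix.mul_smul, Matrix.smul_mul, hB]
    calc B * Γ = (Γ * ((1 / 2 : ℂ) • M)) * (B * Γ) := by rw [hΓM, Matrix.one_mul]
      _ = Γ * (((1 / 2 : ℂ) • M) * B) * Γ := by simp only [Matrix.mul_assoc]
      _ = Γ * (B * ((1 / 2 : ℂ) • M)) * Γ := by rw [hB']
      _ = Γ * B * (((1 / 2 : ℂ) • M) * Γ) := by simp only [Matrix.mul_assoc]
      _ = Γ * B := by rw [hMΓ, Matrix.mul_one]
  have hAΓ : A * Γ = Γ * A := by
    refine comm A ?_
    rw [hM, Matrix.mul_sub, Matrix.sub_mul, Matrix.mul_one, Matrix.one_mul, Matrix.mul_assoc,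
      ← hAC]
  have hCΓ : C * Γ = Γ * C := by
    refine comm C ?_
    rw [hM, Matrix.mul_sub, Matrix.sub_mul, Matrix.mul_one, Matrix.one_mul, hAC,
      Matrix.mul_assoc, ← hAC]
  have t0 : Γ.trace = -4 := by
    rw [hΓ, hgi, GG]
    simp [Matrix.trace_fin_three, Matrix.mul_apply, Fin.sum_univ_three]
    ring
  have t1 : (Γ * A).trace = 0 := by
    rw [hΓ, Matrix.mul_assoc, hGA, hgi, hP]
    simp [Matrix.trace_fin_three, Matrix.mul_apply, Fin.sum_univ_three]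
    ring
  have t2 : (Γ * C).trace = 0 := by
    rw [hΓ, Matrix.mul_assoc, hGC, hgi, hR]
    simp [Matrix.trace_fin_three, Matrix.mul_apply, Fin.sum_univ_three]
    ring
  have t3 : (Γ * A * A).trace = 0 := by
    rw [hΓ, Matrix.mul_assoc gi, hGA, Matrix.mul_assoc gi, hgi, hP, hA]
    simp [Matrix.trace_fin_three, Matrix.mul_apply, Fin.sum_univ_three]
    linear_combination 2 * m11 - m02 - m20
  have t4 : (Γ * C * C).trace = 0 := by
    rw [hΓ, Matrix.mul_assoc gi, hGC, Matrix.mul_assoc gi, hgi, hR, hC]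
    simp [Matrix.trace_fin_three, Matrix.mul_apply, Fin.sum_univ_three]
    linear_combination 2 * n11 - n02 - n20
  obtain ⟨r1, r2, r3, r4, r5⟩ := mat_core A C Γ hAC hAΓ hCΓ k1 t0 t1 t2 t3 t4
  have hGe : gi * D.GG = (-(4 / 3) : ℂ) • (1 : Matrix (Fin 3) (Fin 3) ℂ) := by rw [← hΓ, r1]
  have hPe : gi * P = (-(4 / 3) : ℂ) • A := by
    rw [← hGA, ← Matrix.mul_assoc, hGe, Matrix.smul_mul, Matrix.one_mul]
  have g00 := congrFun (congrFun hGe 0) 0
  have g01 := congrFun (congrFun hGe 0) 1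
  have g02 := congrFun (congrFun hGe 0) 2
  have g10 := congrFun (congrFun hGe 1) 0
  have g20 := congrFun (congrFun hGe 2) 0
  rw [hgi, GG] at g00 g01 g02 g10 g20
  simp [Matrix.mul_apply, Fin.sum_univ_three] at g00 g01 g02 g10 g20
  have tr2 : ((gi * P) * (gi * P)).trace = 0 := by
    rw [hPe, Matrix.smul_mul, Matrix.mul_smul, Matrix.trace_smul, Matrix.trace_smul, r4]
    simp
  have dt : (gi * P).det ≠ 0 := by
    rw [hPe, Matrix.det_smul]
    refine mul_ne_zero ?_ r5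
    norm_num
  rw [Matrix.det_mul] at dt
  have dP := right_ne_zero_of_mul dt
  rw [hP, Matrix.det_fin_three] at dP
  rw [hgi, hP] at tr2
  simp [Matrix.trace_fin_three, Matrix.mul_apply, Fin.sum_univ_three] at tr2
  simp at dP
  have e11 : D.q 1 1 1 1 = -(1 / 3) := by linear_combination g00
  refine ⟨g20, g10, w3 ▸ g10, g01, w4 ▸ g01, g02, e11, ?_, ?_, ?_, ?_⟩
  · rw [w1, e11]; norm_num
  · rw [← w2, e11]; norm_num
  · linear_combination tr2 / 2
  · intro h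
    apply dP
    linear_combination h

/-- Values of the other moments involving three letters of one kind. -/
theorem hankel_A (H : D.inA (fun a => D.B12 a - D.B21 a)) :
    D.q 2 1 1 0 = D.q 3 0 0 1 ∧ D.q 1 2 1 0 = D.q 2 1 0 1 ∧ D.q 0 3 1 0 = D.q 1 2 0 1 := by
  have h1 := D.pair_H H D.inK_XX
  have h2 := D.pair_H H D.inK_XY
  have h3 := D.pair_H H D.inK_YY
  rw [D.g_XX_B12, D.g_XX_B21] at h1
  rw [D.g_XY_B12, D.g_XY_B21] at h2
  rw [D.g_YY_B12, D.g_YY_B21] at h3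
  exact ⟨h1.symm, h2.symm, h3.symm⟩

end Dat

end Pool.Agent.Helper36.WR
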