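import Pool.Agent.Helper36.WR.Basic

set_option autoImplicit false
set_option linter.unusedSimpArgs false

/-!
The products of the quadratic elements of `K`.
-/

namespace Pool.Agent.Helper36.WR

namespace Dat

variable {r : ℕ} (D : Dat r)

theorem g_XX_XX : D.phi (fun a => D.XX a * D.XX a) = D.q 4 0 0 0 := by
  have e : D.phi (fun a => D.XX a * D.XX a) = ∑ i, (![1] : Fin 1 → ℂ) i *
      D.phi ((![fun a => D.X a ^ 4 * D.Y a ^ 0 * D.S a ^ 0 * D.T a ^ 0] : Fin 1 → Fin r → ℂ) i) := by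
    refine D.phi_lin _ _ fun a => ?_
    simp only [Fin.sum_univ_succ, Fin.sum_univ_zero, Matrix.cons_val_zero, Matrix.cons_val_succ,
      XX, XY, YY, SS, ST, TT, B11, B12, B21, B22, X, Y, S, T, N11, N12, N21, N22]
    ring
  rw [e]
  simp only [Fin.sum_univ_succ, Fin.sum_univ_zero, Matrix.cons_val_zero, Matrix.cons_val_succ]
  simp only [eps, q]
  norm_num

theorem g_XX_XY : D.phi (fun a => D.XX a * D.XY a) = D.q 3 1 0 0 := by
  have e : D.phi (fun a => D.XX a * D.XY a) = ∑ i, (![1] : Fin 1 → ℂ) i *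
      D.phi ((![fun a => D.X a ^ 3 * D.Y a ^ 1 * D.S a ^ 0 * D.T a ^ 0] : Fin 1 → Fin r → ℂ) i) := by
    refine D.phi_lin _ _ fun a => ?_
    simp only [Fin.sum_univ_succ, Fin.sum_univ_zero, Matrix.cons_val_zero, Matrix.cons_val_succ,
      XX, XY, YY, SS, ST, TT, B11, B12, B21, B22, X, Y, S, T, N11, N12, N21, N22]
    ring
  rw [e]
  simp only [Fin.sum_univ_succ, Fin.sum_univ_zero, Matrix.cons_val_zero, Matrix.cons_val_succ]
  simp only [eps, q]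
  norm_num

theorem g_XX_YY : D.phi (fun a => D.XX a * D.YY a) = D.q 2 2 0 0 := by
  have e : D.phi (fun a => D.XX a * D.YY a) = ∑ i, (![1] : Fin 1 → ℂ) i *
      D.phi ((![fun a => D.X a ^ 2 * D.Y a ^ 2 * D.S a ^ 0 * D.T a ^ 0] : Fin 1 → Fin r → ℂ) i) := by
    refine D.phi_lin _ _ fun a => ?_
    simp only [Fin.sum_univ_succ, Fin.sum_univ_zero, Matrix.cons_val_zero, Matrix.cons_val_succ,
      XX, XY, YY, SS, ST, TT, B11, B12, B21, B22, X, Y, S, T, N11, N12, N21, N22]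
    ring
  rw [e]
  simp only [Fin.sum_univ_succ, Fin.sum_univ_zero, Matrix.cons_val_zero, Matrix.cons_val_succ]
  simp only [eps, q]
  norm_num

theorem g_XX_SS : D.phi (fun a => D.XX a * D.SS a) = D.q 2 0 2 0 := by
  have e : D.phi (fun a => D.XX a * D.SS a) = ∑ i, (![1] : Fin 1 → ℂ) i *
      D.phi ((![fun a => D.X a ^ 2 * D.Y a ^ 0 * D.S a ^ 2 * D.T a ^ 0] : Fin 1 → Fin r → ℂ) i) := by
    refine D.phi_lin _ _ fun a => ?_
    simp only [Fin.sum_univ_succ, Fin.sum_univ_zero, Matrix.cons_val_zero, Matrix.cons_val_succ,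
      XX, XY, YY, SS, ST, TT, B11, B12, B21, B22, X, Y, S, T, N11, N12, N21, N22]
    ring
  rw [e]
  simp only [Fin.sum_univ_succ, Fin.sum_univ_zero, Matrix.cons_val_zero, Matrix.cons_val_succ]
  simp only [eps, q]
  norm_num

theorem g_XX_ST : D.phi (fun a => D.XX a * D.ST a) = D.q 2 0 1 1 := by
  have e : D.phi (fun a => D.XX a * D.ST a) = ∑ i, (![1] : Fin 1 → ℂ) i *
      D.phi ((![fun a => D.X a ^ 2 * D.Y a ^ 0 * D.S a ^ 1 * D.T a ^ 1] : Fin 1 → Fin r → ℂ) i) := by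
    refine D.phi_lin _ _ fun a => ?_
    simp only [Fin.sum_univ_succ, Fin.sum_univ_zero, Matrix.cons_val_zero, Matrix.cons_val_succ,
      XX, XY, YY, SS, ST, TT, B11, B12, B21, B22, X, Y, S, T, N11, N12, N21, N22]
    ring
  rw [e]
  simp only [Fin.sum_univ_succ, Fin.sum_univ_zero, Matrix.cons_val_zero, Matrix.cons_val_succ]
  simp only [eps, q]
  norm_num

theorem g_XX_TT : D.phi (fun a => D.XX a * D.TT a) = D.q 2 0 0 2 := by
  have e : D.phi (fun a => D.XX a * D.TT a) = ∑ i, (![1] : Fin 1 → ℂ) i *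
      D.phi ((![fun a => D.X a ^ 2 * D.Y a ^ 0 * D.S a ^ 0 * D.T a ^ 2] : Fin 1 → Fin r → ℂ) i) := by
    refine D.phi_lin _ _ fun a => ?_
    simp only [Fin.sum_univ_succ, Fin.sum_univ_zero, Matrix.cons_val_zero, Matrix.cons_val_succ,
      XX, XY, YY, SS, ST, TT, B11, B12, B21, B22, X, Y, S, T, N11, N12, N21, N22]
    ring
  rw [e]
  simp only [Fin.sum_univ_succ, Fin.sum_univ_zero, Matrix.cons_val_zero, Matrix.cons_val_succ]
  simp only [eps, q]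
  norm_num

theorem g_XX_B11 : D.phi (fun a => D.XX a * D.B11 a) = D.q 3 0 1 0 := by
  have e : D.phi (fun a => D.XX a * D.B11 a) = ∑ i, (![1, 1] : Fin 2 → ℂ) i *
      D.phi ((![fun a => D.X a ^ 3 * D.Y a ^ 0 * D.S a ^ 1 * D.T a ^ 0,
        fun a => D.L a 1 0 * D.L a 1 0 * D.L a 1 1] : Fin 2 → Fin r → ℂ) i) := by
    refine D.phi_lin _ _ fun a => ?_
    simp only [Fin.sum_univ_succ, Fin.sum_univ_zero, Matrix.cons_val_zero, Matrix.cons_val_succ,
      XX, XY, YY, SS, ST, TT, B11, B12, B21, B22, X, Y, S, T, N11, N12, N21, N22]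
    ring
  rw [e]
  simp only [Fin.sum_univ_succ, Fin.sum_univ_zero, Matrix.cons_val_zero, Matrix.cons_val_succ]
  rw [D.phi3 1 0 1 0 1 1]
  simp only [eps, q]
  norm_num

theorem g_XX_B12 : D.phi (fun a => D.XX a * D.B12 a) = D.q 3 0 0 1 := by
  have e : D.phi (fun a => D.XX a * D.B12 a) = ∑ i, (![1, 1] : Fin 2 → ℂ) i *
      D.phi ((![fun a => D.X a ^ 3 * D.Y a ^ 0 * D.S a ^ 0 * D.T a ^ 1,
        fun a => D.L a 1 0 * D.L a 1 0 * D.L a 1 2] : Fin 2 → Fin r → ℂ) i) := by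
    refine D.phi_lin _ _ fun a => ?_
    simp only [Fin.sum_univ_succ, Fin.sum_univ_zero, Matrix.cons_val_zero, Matrix.cons_val_succ,
      XX, XY, YY, SS, ST, TT, B11, B12, B21, B22, X, Y, S, T, N11, N12, N21, N22]
    ring
  rw [e]
  simp only [Fin.sum_univ_succ, Fin.sum_univ_zero, Matrix.cons_val_zero, Matrix.cons_val_succ]
  rw [D.phi3 1 0 1 0 1 2]
  simp only [eps, q]
  norm_num

theorem g_XX_B21 : D.phi (fun a => D.XX a * D.B21 a) = D.q 2 1 1 0 := by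
  have e : D.phi (fun a => D.XX a * D.B21 a) = ∑ i, (![1, 1] : Fin 2 → ℂ) i *
      D.phi ((![fun a => D.X a ^ 2 * D.Y a ^ 1 * D.S a ^ 1 * D.T a ^ 0,
        fun a => D.L a 1 0 * D.L a 1 0 * D.L a 2 1] : Fin 2 → Fin r → ℂ) i) := by
    refine D.phi_lin _ _ fun a => ?_
    simp only [Fin.sum_univ_succ, Fin.sum_univ_zero, Matrix.cons_val_zero, Matrix.cons_val_succ,
      XX, XY, YY, SS, ST, TT, B11, B12, B21, B22, X, Y, S, T, N11, N12, N21, N22]
    ring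
  rw [e]
  simp only [Fin.sum_univ_succ, Fin.sum_univ_zero, Matrix.cons_val_zero, Matrix.cons_val_succ]
  rw [D.phi3 1 0 1 0 2 1]
  simp only [eps, q]
  norm_num

theorem g_XX_B22 : D.phi (fun a => D.XX a * D.B22 a) = D.q 2 1 0 1 := by
  have e : D.phi (fun a => D.XX a * D.B22 a) = ∑ i, (![1, 1] : Fin 2 → ℂ) i *
      D.phi ((![fun a => D.X a ^ 2 * D.Y a ^ 1 * D.S a ^ 0 * D.T a ^ 1,
        fun a => D.L a 1 0 * D.L a 1 0 * D.L a 2 2] : Fin 2 → Fin r → ℂ) i) := by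
    refine D.phi_lin _ _ fun a => ?_
    simp only [Fin.sum_univ_succ, Fin.sum_univ_zero, Matrix.cons_val_zero, Matrix.cons_val_succ,
      XX, XY, YY, SS, ST, TT, B11, B12, B21, B22, X, Y, S, T, N11, N12, N21, N22]
    ring
  rw [e]
  simp only [Fin.sum_univ_succ, Fin.sum_univ_zero, Matrix.cons_val_zero, Matrix.cons_val_succ]
  rw [D.phi3 1 0 1 0 2 2]
  simp only [eps, q]
  norm_num

theorem g_XY_XY : D.phi (fun a => D.XY a * D.XY a) = D.q 2 2 0 0 := by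
  have e : D.phi (fun a => D.XY a * D.XY a) = ∑ i, (![1] : Fin 1 → ℂ) i *
      D.phi ((![fun a => D.X a ^ 2 * D.Y a ^ 2 * D.S a ^ 0 * D.T a ^ 0] : Fin 1 → Fin r → ℂ) i) := by
    refine D.phi_lin _ _ fun a => ?_
    simp only [Fin.sum_univ_succ, Fin.sum_univ_zero, Matrix.cons_val_zero, Matrix.cons_val_succ,
      XX, XY, YY, SS, ST, TT, B11, B12, B21, B22, X, Y, S, T, N11, N12, N21, N22]
    ring
  rw [e]
  simp only [Fin.sum_univ_succ, Fin.sum_univ_zero, Matrix.cons_val_zero, Matrix.cons_val_succ]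
  simp only [eps, q]
  norm_num

theorem g_XY_YY : D.phi (fun a => D.XY a * D.YY a) = D.q 1 3 0 0 := by
  have e : D.phi (fun a => D.XY a * D.YY a) = ∑ i, (![1] : Fin 1 → ℂ) i *
      D.phi ((![fun a => D.X a ^ 1 * D.Y a ^ 3 * D.S a ^ 0 * D.T a ^ 0] : Fin 1 → Fin r → ℂ) i) := by
    refine D.phi_lin _ _ fun a => ?_
    simp only [Fin.sum_univ_succ, Fin.sum_univ_zero, Matrix.cons_val_zero, Matrix.cons_val_succ,
      XX, XY, YY, SS, ST, TT, B11, B12, B21, B22, X, Y, S, T, N11, N12, N21, N22]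
    ring
  rw [e]
  simp only [Fin.sum_univ_succ, Fin.sum_univ_zero, Matrix.cons_val_zero, Matrix.cons_val_succ]
  simp only [eps, q]
  norm_num

theorem g_XY_SS : D.phi (fun a => D.XY a * D.SS a) = D.q 1 1 2 0 := by
  have e : D.phi (fun a => D.XY a * D.SS a) = ∑ i, (![1] : Fin 1 → ℂ) i *
      D.phi ((![fun a => D.X a ^ 1 * D.Y a ^ 1 * D.S a ^ 2 * D.T a ^ 0] : Fin 1 → Fin r → ℂ) i) := by
    refine D.phi_lin _ _ fun a => ?_
    simp only [Fin.sum_univ_succ, Fin.sum_univ_zero, Matrix.cons_val_zero, Matrix.cons_val_succ,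
      XX, XY, YY, SS, ST, TT, B11, B12, B21, B22, X, Y, S, T, N11, N12, N21, N22]
    ring
  rw [e]
  simp only [Fin.sum_univ_succ, Fin.sum_univ_zero, Matrix.cons_val_zero, Matrix.cons_val_succ]
  simp only [eps, q]
  norm_num

theorem g_XY_ST : D.phi (fun a => D.XY a * D.ST a) = D.q 1 1 1 1 := by
  have e : D.phi (fun a => D.XY a * D.ST a) = ∑ i, (![1] : Fin 1 → ℂ) i *
      D.phi ((![fun a => D.X a ^ 1 * D.Y a ^ 1 * D.S a ^ 1 * D.T a ^ 1] : Fin 1 → Fin r → ℂ) i) := by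
    refine D.phi_lin _ _ fun a => ?_
    simp only [Fin.sum_univ_succ, Fin.sum_univ_zero, Matrix.cons_val_zero, Matrix.cons_val_succ,
      XX, XY, YY, SS, ST, TT, B11, B12, B21, B22, X, Y, S, T, N11, N12, N21, N22]
    ring
  rw [e]
  simp only [Fin.sum_univ_succ, Fin.sum_univ_zero, Matrix.cons_val_zero, Matrix.cons_val_succ]
  simp only [eps, q]
  norm_num

theorem g_XY_TT : D.phi (fun a => D.XY a * D.TT a) = D.q 1 1 0 2 := by
  have e : D.phi (fun a => D.XY a * D.TT a) = ∑ i, (![1] : Fin 1 → ℂ) i *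
      D.phi ((![fun a => D.X a ^ 1 * D.Y a ^ 1 * D.S a ^ 0 * D.T a ^ 2] : Fin 1 → Fin r → ℂ) i) := by
    refine D.phi_lin _ _ fun a => ?_
    simp only [Fin.sum_univ_succ, Fin.sum_univ_zero, Matrix.cons_val_zero, Matrix.cons_val_succ,
      XX, XY, YY, SS, ST, TT, B11, B12, B21, B22, X, Y, S, T, N11, N12, N21, N22]
    ring
  rw [e]
  simp only [Fin.sum_univ_succ, Fin.sum_univ_zero, Matrix.cons_val_zero, Matrix.cons_val_succ]
  simp only [eps, q]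
  norm_num

theorem g_XY_B11 : D.phi (fun a => D.XY a * D.B11 a) = D.q 2 1 1 0 := by
  have e : D.phi (fun a => D.XY a * D.B11 a) = ∑ i, (![1, 1] : Fin 2 → ℂ) i *
      D.phi ((![fun a => D.X a ^ 2 * D.Y a ^ 1 * D.S a ^ 1 * D.T a ^ 0,
        fun a => D.L a 1 0 * D.L a 2 0 * D.L a 1 1] : Fin 2 → Fin r → ℂ) i) := by
    refine D.phi_lin _ _ fun a => ?_
    simp only [Fin.sum_univ_succ, Fin.sum_univ_zero, Matrix.cons_val_zero, Matrix.cons_val_succ,
      XX, XY, YY, SS, ST, TT, B11, B12, B21, B22, X, Y, S, T, N11, N12, N21, N22]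
    ring
  rw [e]
  simp only [Fin.sum_univ_succ, Fin.sum_univ_zero, Matrix.cons_val_zero, Matrix.cons_val_succ]
  rw [D.phi3 1 0 2 0 1 1]
  simp only [eps, q]
  norm_num

theorem g_XY_B12 : D.phi (fun a => D.XY a * D.B12 a) = D.q 2 1 0 1 := by
  have e : D.phi (fun a => D.XY a * D.B12 a) = ∑ i, (![1, 1] : Fin 2 → ℂ) i *
      D.phi ((![fun a => D.X a ^ 2 * D.Y a ^ 1 * D.S a ^ 0 * D.T a ^ 1,
        fun a => D.L a 1 0 * D.L a 2 0 * D.L a 1 2] : Fin 2 → Fin r → ℂ) i) := by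
    refine D.phi_lin _ _ fun a => ?_
    simp only [Fin.sum_univ_succ, Fin.sum_univ_zero, Matrix.cons_val_zero, Matrix.cons_val_succ,
      XX, XY, YY, SS, ST, TT, B11, B12, B21, B22, X, Y, S, T, N11, N12, N21, N22]
    ring
  rw [e]
  simp only [Fin.sum_univ_succ, Fin.sum_univ_zero, Matrix.cons_val_zero, Matrix.cons_val_succ]
  rw [D.phi3 1 0 2 0 1 2]
  simp only [eps, q]
  norm_num

theorem g_XY_B21 : D.phi (fun a => D.XY a * D.B21 a) = D.q 1 2 1 0 := by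
  have e : D.phi (fun a => D.XY a * D.B21 a) = ∑ i, (![1, 1] : Fin 2 → ℂ) i *
      D.phi ((![fun a => D.X a ^ 1 * D.Y a ^ 2 * D.S a ^ 1 * D.T a ^ 0,
        fun a => D.L a 1 0 * D.L a 2 0 * D.L a 2 1] : Fin 2 → Fin r → ℂ) i) := by
    refine D.phi_lin _ _ fun a => ?_
    simp only [Fin.sum_univ_succ, Fin.sum_univ_zero, Matrix.cons_val_zero, Matrix.cons_val_succ,
      XX, XY, YY, SS, ST, TT, B11, B12, B21, B22, X, Y, S, T, N11, N12, N21, N22]
    ring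
  rw [e]
  simp only [Fin.sum_univ_succ, Fin.sum_univ_zero, Matrix.cons_val_zero, Matrix.cons_val_succ]
  rw [D.phi3 1 0 2 0 2 1]
  simp only [eps, q]
  norm_num

theorem g_XY_B22 : D.phi (fun a => D.XY a * D.B22 a) = D.q 1 2 0 1 := by
  have e : D.phi (fun a => D.XY a * D.B22 a) = ∑ i, (![1, 1] : Fin 2 → ℂ) i *
      D.phi ((![fun a => D.X a ^ 1 * D.Y a ^ 2 * D.S a ^ 0 * D.T a ^ 1,
        fun a => D.L a 1 0 * D.L a 2 0 * D.L a 2 2] : Fin 2 → Fin r → ℂ) i) := by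
    refine D.phi_lin _ _ fun a => ?_
    simp only [Fin.sum_univ_succ, Fin.sum_univ_zero, Matrix.cons_val_zero, Matrix.cons_val_succ,
      XX, XY, YY, SS, ST, TT, B11, B12, B21, B22, X, Y, S, T, N11, N12, N21, N22]
    ring
  rw [e]
  simp only [Fin.sum_univ_succ, Fin.sum_univ_zero, Matrix.cons_val_zero, Matrix.cons_val_succ]
  rw [D.phi3 1 0 2 0 2 2]
  simp only [eps, q]
  norm_num

theorem g_YY_YY : D.phi (fun a => D.YY a * D.YY a) = D.q 0 4 0 0 := by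
  have e : D.phi (fun a => D.YY a * D.YY a) = ∑ i, (![1] : Fin 1 → ℂ) i *
      D.phi ((![fun a => D.X a ^ 0 * D.Y a ^ 4 * D.S a ^ 0 * D.T a ^ 0] : Fin 1 → Fin r → ℂ) i) := by
    refine D.phi_lin _ _ fun a => ?_
    simp only [Fin.sum_univ_succ, Fin.sum_univ_zero, Matrix.cons_val_zero, Matrix.cons_val_succ,
      XX, XY, YY, SS, ST, TT, B11, B12, B21, B22, X, Y, S, T, N11, N12, N21, N22]
    ring
  rw [e]
  simp only [Fin.sum_univ_succ, Fin.sum_univ_zero, Matrix.cons_val_zero, Matrix.cons_val_succ]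
  simp only [eps, q]
  norm_num

theorem g_YY_SS : D.phi (fun a => D.YY a * D.SS a) = D.q 0 2 2 0 := by
  have e : D.phi (fun a => D.YY a * D.SS a) = ∑ i, (![1] : Fin 1 → ℂ) i *
      D.phi ((![fun a => D.X a ^ 0 * D.Y a ^ 2 * D.S a ^ 2 * D.T a ^ 0] : Fin 1 → Fin r → ℂ) i) := by
    refine D.phi_lin _ _ fun a => ?_
    simp only [Fin.sum_univ_succ, Fin.sum_univ_zero, Matrix.cons_val_zero, Matrix.cons_val_succ,
      XX, XY, YY, SS, ST, TT, B11, B12, B21, B22, X, Y, S, T, N11, N12, N21, N22]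
    ring
  rw [e]
  simp only [Fin.sum_univ_succ, Fin.sum_univ_zero, Matrix.cons_val_zero, Matrix.cons_val_succ]
  simp only [eps, q]
  norm_num

theorem g_YY_ST : D.phi (fun a => D.YY a * D.ST a) = D.q 0 2 1 1 := by
  have e : D.phi (fun a => D.YY a * D.ST a) = ∑ i, (![1] : Fin 1 → ℂ) i *
      D.phi ((![fun a => D.X a ^ 0 * D.Y a ^ 2 * D.S a ^ 1 * D.T a ^ 1] : Fin 1 → Fin r → ℂ) i) := by
    refine D.phi_lin _ _ fun a => ?_
    simp only [Fin.sum_univ_succ, Fin.sum_univ_zero, Matrix.cons_val_zero, Matrix.cons_val_succ,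
      XX, XY, YY, SS, ST, TT, B11, B12, B21, B22, X, Y, S, T, N11, N12, N21, N22]
    ring
  rw [e]
  simp only [Fin.sum_univ_succ, Fin.sum_univ_zero, Matrix.cons_val_zero, Matrix.cons_val_succ]
  simp only [eps, q]
  norm_num

theorem g_YY_TT : D.phi (fun a => D.YY a * D.TT a) = D.q 0 2 0 2 := by
  have e : D.phi (fun a => D.YY a * D.TT a) = ∑ i, (![1] : Fin 1 → ℂ) i *
      D.phi ((![fun a => D.X a ^ 0 * D.Y a ^ 2 * D.S a ^ 0 * D.T a ^ 2] : Fin 1 → Fin r → ℂ) i) := by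
    refine D.phi_lin _ _ fun a => ?_
    simp only [Fin.sum_univ_succ, Fin.sum_univ_zero, Matrix.cons_val_zero, Matrix.cons_val_succ,
      XX, XY, YY, SS, ST, TT, B11, B12, B21, B22, X, Y, S, T, N11, N12, N21, N22]
    ring
  rw [e]
  simp only [Fin.sum_univ_succ, Fin.sum_univ_zero, Matrix.cons_val_zero, Matrix.cons_val_succ]
  simp only [eps, q]
  norm_num

theorem g_YY_B11 : D.phi (fun a => D.YY a * D.B11 a) = D.q 1 2 1 0 := by
  have e : D.phi (fun a => D.YY a * D.B11 a) = ∑ i, (![1, 1] : Fin 2 → ℂ) i *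
      D.phi ((![fun a => D.X a ^ 1 * D.Y a ^ 2 * D.S a ^ 1 * D.T a ^ 0,
        fun a => D.L a 2 0 * D.L a 2 0 * D.L a 1 1] : Fin 2 → Fin r → ℂ) i) := by
    refine D.phi_lin _ _ fun a => ?_
    simp only [Fin.sum_univ_succ, Fin.sum_univ_zero, Matrix.cons_val_zero, Matrix.cons_val_succ,
      XX, XY, YY, SS, ST, TT, B11, B12, B21, B22, X, Y, S, T, N11, N12, N21, N22]
    ring
  rw [e]
  simp only [Fin.sum_univ_succ, Fin.sum_univ_zero, Matrix.cons_val_zero, Matrix.cons_val_succ]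
  rw [D.phi3 2 0 2 0 1 1]
  simp only [eps, q]
  norm_num

theorem g_YY_B12 : D.phi (fun a => D.YY a * D.B12 a) = D.q 1 2 0 1 := by
  have e : D.phi (fun a => D.YY a * D.B12 a) = ∑ i, (![1, 1] : Fin 2 → ℂ) i *
      D.phi ((![fun a => D.X a ^ 1 * D.Y a ^ 2 * D.S a ^ 0 * D.T a ^ 1,
        fun a => D.L a 2 0 * D.L a 2 0 * D.L a 1 2] : Fin 2 → Fin r → ℂ) i) := by
    refine D.phi_lin _ _ fun a => ?_
    simp only [Fin.sum_univ_succ, Fin.sum_univ_zero, Matrix.cons_val_zero, Matrix.cons_val_succ,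
      XX, XY, YY, SS, ST, TT, B11, B12, B21, B22, X, Y, S, T, N11, N12, N21, N22]
    ring
  rw [e]
  simp only [Fin.sum_univ_succ, Fin.sum_univ_zero, Matrix.cons_val_zero, Matrix.cons_val_succ]
  rw [D.phi3 2 0 2 0 1 2]
  simp only [eps, q]
  norm_num

theorem g_YY_B21 : D.phi (fun a => D.YY a * D.B21 a) = D.q 0 3 1 0 := by
  have e : D.phi (fun a => D.YY a * D.B21 a) = ∑ i, (![1, 1] : Fin 2 → ℂ) i *
      D.phi ((![fun a => D.X a ^ 0 * D.Y a ^ 3 * D.S a ^ 1 * D.T a ^ 0,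
        fun a => D.L a 2 0 * D.L a 2 0 * D.L a 2 1] : Fin 2 → Fin r → ℂ) i) := by
    refine D.phi_lin _ _ fun a => ?_
    simp only [Fin.sum_univ_succ, Fin.sum_univ_zero, Matrix.cons_val_zero, Matrix.cons_val_succ,
      XX, XY, YY, SS, ST, TT, B11, B12, B21, B22, X, Y, S, T, N11, N12, N21, N22]
    ring
  rw [e]
  simp only [Fin.sum_univ_succ, Fin.sum_univ_zero, Matrix.cons_val_zero, Matrix.cons_val_succ]
  rw [D.phi3 2 0 2 0 2 1]
  simp only [eps, q]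
  norm_num

theorem g_YY_B22 : D.phi (fun a => D.YY a * D.B22 a) = D.q 0 3 0 1 := by
  have e : D.phi (fun a => D.YY a * D.B22 a) = ∑ i, (![1, 1] : Fin 2 → ℂ) i *
      D.phi ((![fun a => D.X a ^ 0 * D.Y a ^ 3 * D.S a ^ 0 * D.T a ^ 1,
        fun a => D.L a 2 0 * D.L a 2 0 * D.L a 2 2] : Fin 2 → Fin r → ℂ) i) := by
    refine D.phi_lin _ _ fun a => ?_
    simp only [Fin.sum_univ_succ, Fin.sum_univ_zero, Matrix.cons_val_zero, Matrix.cons_val_succ,
      XX, XY, YY, SS, ST, TT, B11, B12, B21, B22, X, Y, S, T, N11, N12, N21, N22]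
    ring
  rw [e]
  simp only [Fin.sum_univ_succ, Fin.sum_univ_zero, Matrix.cons_val_zero, Matrix.cons_val_succ]
  rw [D.phi3 2 0 2 0 2 2]
  simp only [eps, q]
  norm_num

theorem g_SS_SS : D.phi (fun a => D.SS a * D.SS a) = D.q 0 0 4 0 := by
  have e : D.phi (fun a => D.SS a * D.SS a) = ∑ i, (![1] : Fin 1 → ℂ) i *
      D.phi ((![fun a => D.X a ^ 0 * D.Y a ^ 0 * D.S a ^ 4 * D.T a ^ 0] : Fin 1 → Fin r → ℂ) i) := by
    refine D.phi_lin _ _ fun a => ?_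
    simp only [Fin.sum_univ_succ, Fin.sum_univ_zero, Matrix.cons_val_zero, Matrix.cons_val_succ,
      XX, XY, YY, SS, ST, TT, B11, B12, B21, B22, X, Y, S, T, N11, N12, N21, N22]
    ring
  rw [e]
  simp only [Fin.sum_univ_succ, Fin.sum_univ_zero, Matrix.cons_val_zero, Matrix.cons_val_succ]
  simp only [eps, q]
  norm_num

theorem g_SS_ST : D.phi (fun a => D.SS a * D.ST a) = D.q 0 0 3 1 := by
  have e : D.phi (fun a => D.SS a * D.ST a) = ∑ i, (![1] : Fin 1 → ℂ) i *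
      D.phi ((![fun a => D.X a ^ 0 * D.Y a ^ 0 * D.S a ^ 3 * D.T a ^ 1] : Fin 1 → Fin r → ℂ) i) := by
    refine D.phi_lin _ _ fun a => ?_
    simp only [Fin.sum_univ_succ, Fin.sum_univ_zero, Matrix.cons_val_zero, Matrix.cons_val_succ,
      XX, XY, YY, SS, ST, TT, B11, B12, B21, B22, X, Y, S, T, N11, N12, N21, N22]
    ring
  rw [e]
  simp only [Fin.sum_univ_succ, Fin.sum_univ_zero, Matrix.cons_val_zero, Matrix.cons_val_succ]
  simp only [eps, q]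
  norm_num

theorem g_SS_TT : D.phi (fun a => D.SS a * D.TT a) = D.q 0 0 2 2 := by
  have e : D.phi (fun a => D.SS a * D.TT a) = ∑ i, (![1] : Fin 1 → ℂ) i *
      D.phi ((![fun a => D.X a ^ 0 * D.Y a ^ 0 * D.S a ^ 2 * D.T a ^ 2] : Fin 1 → Fin r → ℂ) i) := by
    refine D.phi_lin _ _ fun a => ?_
    simp only [Fin.sum_univ_succ, Fin.sum_univ_zero, Matrix.cons_val_zero, Matrix.cons_val_succ,
      XX, XY, YY, SS, ST, TT, B11, B12, B21, B22, X, Y, S, T, N11, N12, N21, N22]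
    ring
  rw [e]
  simp only [Fin.sum_univ_succ, Fin.sum_univ_zero, Matrix.cons_val_zero, Matrix.cons_val_succ]
  simp only [eps, q]
  norm_num

theorem g_SS_B11 : D.phi (fun a => D.SS a * D.B11 a) = D.q 1 0 3 0 := by
  have e : D.phi (fun a => D.SS a * D.B11 a) = ∑ i, (![1, 1] : Fin 2 → ℂ) i *
      D.phi ((![fun a => D.X a ^ 1 * D.Y a ^ 0 * D.S a ^ 3 * D.T a ^ 0,
        fun a => D.L a 0 1 * D.L a 0 1 * D.L a 1 1] : Fin 2 → Fin r → ℂ) i) := by
    refine D.phi_lin _ _ fun a => ?_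
    simp only [Fin.sum_univ_succ, Fin.sum_univ_zero, Matrix.cons_val_zero, Matrix.cons_val_succ,
      XX, XY, YY, SS, ST, TT, B11, B12, B21, B22, X, Y, S, T, N11, N12, N21, N22]
    ring
  rw [e]
  simp only [Fin.sum_univ_succ, Fin.sum_univ_zero, Matrix.cons_val_zero, Matrix.cons_val_succ]
  rw [D.phi3 0 1 0 1 1 1]
  simp only [eps, q]
  norm_num

theorem g_SS_B12 : D.phi (fun a => D.SS a * D.B12 a) = D.q 1 0 2 1 := by
  have e : D.phi (fun a => D.SS a * D.B12 a) = ∑ i, (![1, 1] : Fin 2 → ℂ) i *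
      D.phi ((![fun a => D.X a ^ 1 * D.Y a ^ 0 * D.S a ^ 2 * D.T a ^ 1,
        fun a => D.L a 0 1 * D.L a 0 1 * D.L a 1 2] : Fin 2 → Fin r → ℂ) i) := by
    refine D.phi_lin _ _ fun a => ?_
    simp only [Fin.sum_univ_succ, Fin.sum_univ_zero, Matrix.cons_val_zero, Matrix.cons_val_succ,
      XX, XY, YY, SS, ST, TT, B11, B12, B21, B22, X, Y, S, T, N11, N12, N21, N22]
    ring
  rw [e]
  simp only [Fin.sum_univ_succ, Fin.sum_univ_zero, Matrix.cons_val_zero, Matrix.cons_val_succ]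
  rw [D.phi3 0 1 0 1 1 2]
  simp only [eps, q]
  norm_num

theorem g_SS_B21 : D.phi (fun a => D.SS a * D.B21 a) = D.q 0 1 3 0 := by
  have e : D.phi (fun a => D.SS a * D.B21 a) = ∑ i, (![1, 1] : Fin 2 → ℂ) i *
      D.phi ((![fun a => D.X a ^ 0 * D.Y a ^ 1 * D.S a ^ 3 * D.T a ^ 0,
        fun a => D.L a 0 1 * D.L a 0 1 * D.L a 2 1] : Fin 2 → Fin r → ℂ) i) := by
    refine D.phi_lin _ _ fun a => ?_
    simp only [Fin.sum_univ_succ, Fin.sum_univ_zero, Matrix.cons_val_zero, Matrix.cons_val_succ,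
      XX, XY, YY, SS, ST, TT, B11, B12, B21, B22, X, Y, S, T, N11, N12, N21, N22]
    ring
  rw [e]
  simp only [Fin.sum_univ_succ, Fin.sum_univ_zero, Matrix.cons_val_zero, Matrix.cons_val_succ]
  rw [D.phi3 0 1 0 1 2 1]
  simp only [eps, q]
  norm_num

theorem g_SS_B22 : D.phi (fun a => D.SS a * D.B22 a) = D.q 0 1 2 1 := by
  have e : D.phi (fun a => D.SS a * D.B22 a) = ∑ i, (![1, 1] : Fin 2 → ℂ) i *
      D.phi ((![fun a => D.X a ^ 0 * D.Y a ^ 1 * D.S a ^ 2 * D.T a ^ 1,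
        fun a => D.L a 0 1 * D.L a 0 1 * D.L a 2 2] : Fin 2 → Fin r → ℂ) i) := by
    refine D.phi_lin _ _ fun a => ?_
    simp only [Fin.sum_univ_succ, Fin.sum_univ_zero, Matrix.cons_val_zero, Matrix.cons_val_succ,
      XX, XY, YY, SS, ST, TT, B11, B12, B21, B22, X, Y, S, T, N11, N12, N21, N22]
    ring
  rw [e]
  simp only [Fin.sum_univ_succ, Fin.sum_univ_zero, Matrix.cons_val_zero, Matrix.cons_val_succ]
  rw [D.phi3 0 1 0 1 2 2]
  simp only [eps, q]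
  norm_num

theorem g_ST_ST : D.phi (fun a => D.ST a * D.ST a) = D.q 0 0 2 2 := by
  have e : D.phi (fun a => D.ST a * D.ST a) = ∑ i, (![1] : Fin 1 → ℂ) i *
      D.phi ((![fun a => D.X a ^ 0 * D.Y a ^ 0 * D.S a ^ 2 * D.T a ^ 2] : Fin 1 → Fin r → ℂ) i) := by
    refine D.phi_lin _ _ fun a => ?_
    simp only [Fin.sum_univ_succ, Fin.sum_univ_zero, Matrix.cons_val_zero, Matrix.cons_val_succ,
      XX, XY, YY, SS, ST, TT, B11, B12, B21, B22, X, Y, S, T, N11, N12, N21, N22]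
    ring
  rw [e]
  simp only [Fin.sum_univ_succ, Fin.sum_univ_zero, Matrix.cons_val_zero, Matrix.cons_val_succ]
  simp only [eps, q]
  norm_num

theorem g_ST_TT : D.phi (fun a => D.ST a * D.TT a) = D.q 0 0 1 3 := by
  have e : D.phi (fun a => D.ST a * D.TT a) = ∑ i, (![1] : Fin 1 → ℂ) i *
      D.phi ((![fun a => D.X a ^ 0 * D.Y a ^ 0 * D.S a ^ 1 * D.T a ^ 3] : Fin 1 → Fin r → ℂ) i) := by
    refine D.phi_lin _ _ fun a => ?_
    simp only [Fin.sum_univ_succ, Fin.sum_univ_zero, Matrix.cons_val_zero, Matrix.cons_val_succ,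
      XX, XY, YY, SS, ST, TT, B11, B12, B21, B22, X, Y, S, T, N11, N12, N21, N22]
    ring
  rw [e]
  simp only [Fin.sum_univ_succ, Fin.sum_univ_zero, Matrix.cons_val_zero, Matrix.cons_val_succ]
  simp only [eps, q]
  norm_num

theorem g_ST_B11 : D.phi (fun a => D.ST a * D.B11 a) = D.q 1 0 2 1 := by
  have e : D.phi (fun a => D.ST a * D.B11 a) = ∑ i, (![1, 1] : Fin 2 → ℂ) i *
      D.phi ((![fun a => D.X a ^ 1 * D.Y a ^ 0 * D.S a ^ 2 * D.T a ^ 1,
        fun a => D.L a 0 1 * D.L a 0 2 * D.L a 1 1] : Fin 2 → Fin r → ℂ) i) := by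
    refine D.phi_lin _ _ fun a => ?_
    simp only [Fin.sum_univ_succ, Fin.sum_univ_zero, Matrix.cons_val_zero, Matrix.cons_val_succ,
      XX, XY, YY, SS, ST, TT, B11, B12, B21, B22, X, Y, S, T, N11, N12, N21, N22]
    ring
  rw [e]
  simp only [Fin.sum_univ_succ, Fin.sum_univ_zero, Matrix.cons_val_zero, Matrix.cons_val_succ]
  rw [D.phi3 0 1 0 2 1 1]
  simp only [eps, q]
  norm_num

theorem g_ST_B12 : D.phi (fun a => D.ST a * D.B12 a) = D.q 1 0 1 2 := by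
  have e : D.phi (fun a => D.ST a * D.B12 a) = ∑ i, (![1, 1] : Fin 2 → ℂ) i *
      D.phi ((![fun a => D.X a ^ 1 * D.Y a ^ 0 * D.S a ^ 1 * D.T a ^ 2,
        fun a => D.L a 0 1 * D.L a 0 2 * D.L a 1 2] : Fin 2 → Fin r → ℂ) i) := by
    refine D.phi_lin _ _ fun a => ?_
    simp only [Fin.sum_univ_succ, Fin.sum_univ_zero, Matrix.cons_val_zero, Matrix.cons_val_succ,
      XX, XY, YY, SS, ST, TT, B11, B12, B21, B22, X, Y, S, T, N11, N12, N21, N22]
    ring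
  rw [e]
  simp only [Fin.sum_univ_succ, Fin.sum_univ_zero, Matrix.cons_val_zero, Matrix.cons_val_succ]
  rw [D.phi3 0 1 0 2 1 2]
  simp only [eps, q]
  norm_num

theorem g_ST_B21 : D.phi (fun a => D.ST a * D.B21 a) = D.q 0 1 2 1 := by
  have e : D.phi (fun a => D.ST a * D.B21 a) = ∑ i, (![1, 1] : Fin 2 → ℂ) i *
      D.phi ((![fun a => D.X a ^ 0 * D.Y a ^ 1 * D.S a ^ 2 * D.T a ^ 1,
        fun a => D.L a 0 1 * D.L a 0 2 * D.L a 2 1] : Fin 2 → Fin r → ℂ) i) := by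
    refine D.phi_lin _ _ fun a => ?_
    simp only [Fin.sum_univ_succ, Fin.sum_univ_zero, Matrix.cons_val_zero, Matrix.cons_val_succ,
      XX, XY, YY, SS, ST, TT, B11, B12, B21, B22, X, Y, S, T, N11, N12, N21, N22]
    ring
  rw [e]
  simp only [Fin.sum_univ_succ, Fin.sum_univ_zero, Matrix.cons_val_zero, Matrix.cons_val_succ]
  rw [D.phi3 0 1 0 2 2 1]
  simp only [eps, q]
  norm_num

theorem g_ST_B22 : D.phi (fun a => D.ST a * D.B22 a) = D.q 0 1 1 2 := by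
  have e : D.phi (fun a => D.ST a * D.B22 a) = ∑ i, (![1, 1] : Fin 2 → ℂ) i *
      D.phi ((![fun a => D.X a ^ 0 * D.Y a ^ 1 * D.S a ^ 1 * D.T a ^ 2,
        fun a => D.L a 0 1 * D.L a 0 2 * D.L a 2 2] : Fin 2 → Fin r → ℂ) i) := by
    refine D.phi_lin _ _ fun a => ?_
    simp only [Fin.sum_univ_succ, Fin.sum_univ_zero, Matrix.cons_val_zero, Matrix.cons_val_succ,
      XX, XY, YY, SS, ST, TT, B11, B12, B21, B22, X, Y, S, T, N11, N12, N21, N22]
    ring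
  rw [e]
  simp only [Fin.sum_univ_succ, Fin.sum_univ_zero, Matrix.cons_val_zero, Matrix.cons_val_succ]
  rw [D.phi3 0 1 0 2 2 2]
  simp only [eps, q]
  norm_num

theorem g_TT_TT : D.phi (fun a => D.TT a * D.TT a) = D.q 0 0 0 4 := by
  have e : D.phi (fun a => D.TT a * D.TT a) = ∑ i, (![1] : Fin 1 → ℂ) i *
      D.phi ((![fun a => D.X a ^ 0 * D.Y a ^ 0 * D.S a ^ 0 * D.T a ^ 4] : Fin 1 → Fin r → ℂ) i) := by
    refine D.phi_lin _ _ fun a => ?_
    simp only [Fin.sum_univ_succ, Fin.sum_univ_zero, Matrix.cons_val_zero, Matrix.cons_val_succ,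
      XX, XY, YY, SS, ST, TT, B11, B12, B21, B22, X, Y, S, T, N11, N12, N21, N22]
    ring
  rw [e]
  simp only [Fin.sum_univ_succ, Fin.sum_univ_zero, Matrix.cons_val_zero, Matrix.cons_val_succ]
  simp only [eps, q]
  norm_num

theorem g_TT_B11 : D.phi (fun a => D.TT a * D.B11 a) = D.q 1 0 1 2 := by
  have e : D.phi (fun a => D.TT a * D.B11 a) = ∑ i, (![1, 1] : Fin 2 → ℂ) i *
      D.phi ((![fun a => D.X a ^ 1 * D.Y a ^ 0 * D.S a ^ 1 * D.T a ^ 2,
        fun a => D.L a 0 2 * D.L a 0 2 * D.L a 1 1] : Fin 2 → Fin r → ℂ) i) := by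
    refine D.phi_lin _ _ fun a => ?_
    simp only [Fin.sum_univ_succ, Fin.sum_univ_zero, Matrix.cons_val_zero, Matrix.cons_val_succ,
      XX, XY, YY, SS, ST, TT, B11, B12, B21, B22, X, Y, S, T, N11, N12, N21, N22]
    ring
  rw [e]
  simp only [Fin.sum_univ_succ, Fin.sum_univ_zero, Matrix.cons_val_zero, Matrix.cons_val_succ]
  rw [D.phi3 0 2 0 2 1 1]
  simp only [eps, q]
  norm_num

theorem g_TT_B12 : D.phi (fun a => D.TT a * D.B12 a) = D.q 1 0 0 3 := by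
  have e : D.phi (fun a => D.TT a * D.B12 a) = ∑ i, (![1, 1] : Fin 2 → ℂ) i *
      D.phi ((![fun a => D.X a ^ 1 * D.Y a ^ 0 * D.S a ^ 0 * D.T a ^ 3,
        fun a => D.L a 0 2 * D.L a 0 2 * D.L a 1 2] : Fin 2 → Fin r → ℂ) i) := by
    refine D.phi_lin _ _ fun a => ?_
    simp only [Fin.sum_univ_succ, Fin.sum_univ_zero, Matrix.cons_val_zero, Matrix.cons_val_succ,
      XX, XY, YY, SS, ST, TT, B11, B12, B21, B22, X, Y, S, T, N11, N12, N21, N22]
    ring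
  rw [e]
  simp only [Fin.sum_univ_succ, Fin.sum_univ_zero, Matrix.cons_val_zero, Matrix.cons_val_succ]
  rw [D.phi3 0 2 0 2 1 2]
  simp only [eps, q]
  norm_num

theorem g_TT_B21 : D.phi (fun a => D.TT a * D.B21 a) = D.q 0 1 1 2 := by
  have e : D.phi (fun a => D.TT a * D.B21 a) = ∑ i, (![1, 1] : Fin 2 → ℂ) i *
      D.phi ((![fun a => D.X a ^ 0 * D.Y a ^ 1 * D.S a ^ 1 * D.T a ^ 2,
        fun a => D.L a 0 2 * D.L a 0 2 * D.L a 2 1] : Fin 2 → Fin r → ℂ) i) := by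
    refine D.phi_lin _ _ fun a => ?_
    simp only [Fin.sum_univ_succ, Fin.sum_univ_zero, Matrix.cons_val_zero, Matrix.cons_val_succ,
      XX, XY, YY, SS, ST, TT, B11, B12, B21, B22, X, Y, S, T, N11, N12, N21, N22]
    ring
  rw [e]
  simp only [Fin.sum_univ_succ, Fin.sum_univ_zero, Matrix.cons_val_zero, Matrix.cons_val_succ]
  rw [D.phi3 0 2 0 2 2 1]
  simp only [eps, q]
  norm_num

theorem g_TT_B22 : D.phi (fun a => D.TT a * D.B22 a) = D.q 0 1 0 3 := by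
  have e : D.phi (fun a => D.TT a * D.B22 a) = ∑ i, (![1, 1] : Fin 2 → ℂ) i *
      D.phi ((![fun a => D.X a ^ 0 * D.Y a ^ 1 * D.S a ^ 0 * D.T a ^ 3,
        fun a => D.L a 0 2 * D.L a 0 2 * D.L a 2 2] : Fin 2 → Fin r → ℂ) i) := by
    refine D.phi_lin _ _ fun a => ?_
    simp only [Fin.sum_univ_succ, Fin.sum_univ_zero, Matrix.cons_val_zero, Matrix.cons_val_succ,
      XX, XY, YY, SS, ST, TT, B11, B12, B21, B22, X, Y, S, T, N11, N12, N21, N22]
    ring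
  rw [e]
  simp only [Fin.sum_univ_succ, Fin.sum_univ_zero, Matrix.cons_val_zero, Matrix.cons_val_succ]
  rw [D.phi3 0 2 0 2 2 2]
  simp only [eps, q]
  norm_num

theorem g_B11_B11 : D.phi (fun a => D.B11 a * D.B11 a) = D.q 2 0 2 0 := by
  have e : D.phi (fun a => D.B11 a * D.B11 a) = ∑ i, (![1, 1, 1, 1] : Fin 4 → ℂ) i *
      D.phi ((![fun a => D.X a ^ 2 * D.Y a ^ 0 * D.S a ^ 2 * D.T a ^ 0,
        fun a => D.L a 1 0 * D.L a 0 1 * D.L a 1 1,
        fun a => D.L a 1 1 * D.L a 1 0 * D.L a 0 1,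
        fun a => D.L a 1 1 * D.L a 1 1] : Fin 4 → Fin r → ℂ) i) := by
    refine D.phi_lin _ _ fun a => ?_
    simp only [Fin.sum_univ_succ, Fin.sum_univ_zero, Matrix.cons_val_zero, Matrix.cons_val_succ,
      XX, XY, YY, SS, ST, TT, B11, B12, B21, B22, X, Y, S, T, N11, N12, N21, N22]
    ring
  rw [e]
  simp only [Fin.sum_univ_succ, Fin.sum_univ_zero, Matrix.cons_val_zero, Matrix.cons_val_succ]
  rw [D.phi3 1 0 0 1 1 1]
  rw [D.phi3 1 1 1 0 0 1]
  rw [D.phi2 1 1 1 1]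
  simp only [eps, q]
  norm_num

theorem g_B11_B12 : D.phi (fun a => D.B11 a * D.B12 a) = D.q 2 0 1 1 := by
  have e : D.phi (fun a => D.B11 a * D.B12 a) = ∑ i, (![1, 1, 1, 1] : Fin 4 → ℂ) i *
      D.phi ((![fun a => D.X a ^ 2 * D.Y a ^ 0 * D.S a ^ 1 * D.T a ^ 1,
        fun a => D.L a 1 0 * D.L a 0 1 * D.L a 1 2,
        fun a => D.L a 1 1 * D.L a 1 0 * D.L a 0 2,
        fun a => D.L a 1 1 * D.L a 1 2] : Fin 4 → Fin r → ℂ) i) := by
    refine D.phi_lin _ _ fun a => ?_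
    simp only [Fin.sum_univ_succ, Fin.sum_univ_zero, Matrix.cons_val_zero, Matrix.cons_val_succ,
      XX, XY, YY, SS, ST, TT, B11, B12, B21, B22, X, Y, S, T, N11, N12, N21, N22]
    ring
  rw [e]
  simp only [Fin.sum_univ_succ, Fin.sum_univ_zero, Matrix.cons_val_zero, Matrix.cons_val_succ]
  rw [D.phi3 1 0 0 1 1 2]
  rw [D.phi3 1 1 1 0 0 2]
  rw [D.phi2 1 1 1 2]
  simp only [eps, q]
  norm_num

theorem g_B11_B21 : D.phi (fun a => D.B11 a * D.B21 a) = D.q 1 1 2 0 := by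
  have e : D.phi (fun a => D.B11 a * D.B21 a) = ∑ i, (![1, 1, 1, 1] : Fin 4 → ℂ) i *
      D.phi ((![fun a => D.X a ^ 1 * D.Y a ^ 1 * D.S a ^ 2 * D.T a ^ 0,
        fun a => D.L a 1 0 * D.L a 0 1 * D.L a 2 1,
        fun a => D.L a 1 1 * D.L a 2 0 * D.L a 0 1,
        fun a => D.L a 1 1 * D.L a 2 1] : Fin 4 → Fin r → ℂ) i) := by
    refine D.phi_lin _ _ fun a => ?_
    simp only [Fin.sum_univ_succ, Fin.sum_univ_zero, Matrix.cons_val_zero, Matrix.cons_val_succ,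
      XX, XY, YY, SS, ST, TT, B11, B12, B21, B22, X, Y, S, T, N11, N12, N21, N22]
    ring
  rw [e]
  simp only [Fin.sum_univ_succ, Fin.sum_univ_zero, Matrix.cons_val_zero, Matrix.cons_val_succ]
  rw [D.phi3 1 0 0 1 2 1]
  rw [D.phi3 1 1 2 0 0 1]
  rw [D.phi2 1 1 2 1]
  simp only [eps, q]
  norm_num

theorem g_B11_B22 : D.phi (fun a => D.B11 a * D.B22 a) = D.q 1 1 1 1 - 1 := by
  have e : D.phi (fun a => D.B11 a * D.B22 a) = ∑ i, (![1, 1, 1, 1] : Fin 4 → ℂ) i *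
      D.phi ((![fun a => D.X a ^ 1 * D.Y a ^ 1 * D.S a ^ 1 * D.T a ^ 1,
        fun a => D.L a 1 0 * D.L a 0 1 * D.L a 2 2,
        fun a => D.L a 1 1 * D.L a 2 0 * D.L a 0 2,
        fun a => D.L a 1 1 * D.L a 2 2] : Fin 4 → Fin r → ℂ) i) := by
    refine D.phi_lin _ _ fun a => ?_
    simp only [Fin.sum_univ_succ, Fin.sum_univ_zero, Matrix.cons_val_zero, Matrix.cons_val_succ,
      XX, XY, YY, SS, ST, TT, B11, B12, B21, B22, X, Y, S, T, N11, N12, N21, N22]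
    ring
  rw [e]
  simp only [Fin.sum_univ_succ, Fin.sum_univ_zero, Matrix.cons_val_zero, Matrix.cons_val_succ]
  rw [D.phi3 1 0 0 1 2 2]
  rw [D.phi3 1 1 2 0 0 2]
  rw [D.phi2 1 1 2 2]
  simp only [eps, q]
  norm_num
  ring

theorem g_B12_B12 : D.phi (fun a => D.B12 a * D.B12 a) = D.q 2 0 0 2 := by
  have e : D.phi (fun a => D.B12 a * D.B12 a) = ∑ i, (![1, 1, 1, 1] : Fin 4 → ℂ) i *
      D.phi ((![fun a => D.X a ^ 2 * D.Y a ^ 0 * D.S a ^ 0 * D.T a ^ 2,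
        fun a => D.L a 1 0 * D.L a 0 2 * D.L a 1 2,
        fun a => D.L a 1 2 * D.L a 1 0 * D.L a 0 2,
        fun a => D.L a 1 2 * D.L a 1 2] : Fin 4 → Fin r → ℂ) i) := by
    refine D.phi_lin _ _ fun a => ?_
    simp only [Fin.sum_univ_succ, Fin.sum_univ_zero, Matrix.cons_val_zero, Matrix.cons_val_succ,
      XX, XY, YY, SS, ST, TT, B11, B12, B21, B22, X, Y, S, T, N11, N12, N21, N22]
    ring
  rw [e]
  simp only [Fin.sum_univ_succ, Fin.sum_univ_zero, Matrix.cons_val_zero, Matrix.cons_val_succ]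
  rw [D.phi3 1 0 0 2 1 2]
  rw [D.phi3 1 2 1 0 0 2]
  rw [D.phi2 1 2 1 2]
  simp only [eps, q]
  norm_num

theorem g_B12_B21 : D.phi (fun a => D.B12 a * D.B21 a) = D.q 1 1 1 1 + 1 := by
  have e : D.phi (fun a => D.B12 a * D.B21 a) = ∑ i, (![1, 1, 1, 1] : Fin 4 → ℂ) i *
      D.phi ((![fun a => D.X a ^ 1 * D.Y a ^ 1 * D.S a ^ 1 * D.T a ^ 1,
        fun a => D.L a 1 0 * D.L a 0 2 * D.L a 2 1,
        fun a => D.L a 1 2 * D.L a 2 0 * D.L a 0 1,
        fun a => D.L a 1 2 * D.L a 2 1] : Fin 4 → Fin r → ℂ) i) := by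
    refine D.phi_lin _ _ fun a => ?_
    simp only [Fin.sum_univ_succ, Fin.sum_univ_zero, Matrix.cons_val_zero, Matrix.cons_val_succ,
      XX, XY, YY, SS, ST, TT, B11, B12, B21, B22, X, Y, S, T, N11, N12, N21, N22]
    ring
  rw [e]
  simp only [Fin.sum_univ_succ, Fin.sum_univ_zero, Matrix.cons_val_zero, Matrix.cons_val_succ]
  rw [D.phi3 1 0 0 2 2 1]
  rw [D.phi3 1 2 2 0 0 1]
  rw [D.phi2 1 2 2 1]
  simp only [eps, q]
  norm_num

theorem g_B12_B22 : D.phi (fun a => D.B12 a * D.B22 a) = D.q 1 1 0 2 := by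
  have e : D.phi (fun a => D.B12 a * D.B22 a) = ∑ i, (![1, 1, 1, 1] : Fin 4 → ℂ) i *
      D.phi ((![fun a => D.X a ^ 1 * D.Y a ^ 1 * D.S a ^ 0 * D.T a ^ 2,
        fun a => D.L a 1 0 * D.L a 0 2 * D.L a 2 2,
        fun a => D.L a 1 2 * D.L a 2 0 * D.L a 0 2,
        fun a => D.L a 1 2 * D.L a 2 2] : Fin 4 → Fin r → ℂ) i) := by
    refine D.phi_lin _ _ fun a => ?_
    simp only [Fin.sum_univ_succ, Fin.sum_univ_zero, Matrix.cons_val_zero, Matrix.cons_val_succ,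
      XX, XY, YY, SS, ST, TT, B11, B12, B21, B22, X, Y, S, T, N11, N12, N21, N22]
    ring
  rw [e]
  simp only [Fin.sum_univ_succ, Fin.sum_univ_zero, Matrix.cons_val_zero, Matrix.cons_val_succ]
  rw [D.phi3 1 0 0 2 2 2]
  rw [D.phi3 1 2 2 0 0 2]
  rw [D.phi2 1 2 2 2]
  simp only [eps, q]
  norm_num

theorem g_B21_B21 : D.phi (fun a => D.B21 a * D.B21 a) = D.q 0 2 2 0 := by
  have e : D.phi (fun a => D.B21 a * D.B21 a) = ∑ i, (![1, 1, 1, 1] : Fin 4 → ℂ) i *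
      D.phi ((![fun a => D.X a ^ 0 * D.Y a ^ 2 * D.S a ^ 2 * D.T a ^ 0,
        fun a => D.L a 2 0 * D.L a 0 1 * D.L a 2 1,
        fun a => D.L a 2 1 * D.L a 2 0 * D.L a 0 1,
        fun a => D.L a 2 1 * D.L a 2 1] : Fin 4 → Fin r → ℂ) i) := by
    refine D.phi_lin _ _ fun a => ?_
    simp only [Fin.sum_univ_succ, Fin.sum_univ_zero, Matrix.cons_val_zero, Matrix.cons_val_succ,
      XX, XY, YY, SS, ST, TT, B11, B12, B21, B22, X, Y, S, T, N11, N12, N21, N22]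
    ring
  rw [e]
  simp only [Fin.sum_univ_succ, Fin.sum_univ_zero, Matrix.cons_val_zero, Matrix.cons_val_succ]
  rw [D.phi3 2 0 0 1 2 1]
  rw [D.phi3 2 1 2 0 0 1]
  rw [D.phi2 2 1 2 1]
  simp only [eps, q]
  norm_num

theorem g_B21_B22 : D.phi (fun a => D.B21 a * D.B22 a) = D.q 0 2 1 1 := by
  have e : D.phi (fun a => D.B21 a * D.B22 a) = ∑ i, (![1, 1, 1, 1] : Fin 4 → ℂ) i *
      D.phi ((![fun a => D.X a ^ 0 * D.Y a ^ 2 * D.S a ^ 1 * D.T a ^ 1,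
        fun a => D.L a 2 0 * D.L a 0 1 * D.L a 2 2,
        fun a => D.L a 2 1 * D.L a 2 0 * D.L a 0 2,
        fun a => D.L a 2 1 * D.L a 2 2] : Fin 4 → Fin r → ℂ) i) := by
    refine D.phi_lin _ _ fun a => ?_
    simp only [Fin.sum_univ_succ, Fin.sum_univ_zero, Matrix.cons_val_zero, Matrix.cons_val_succ,
      XX, XY, YY, SS, ST, TT, B11, B12, B21, B22, X, Y, S, T, N11, N12, N21, N22]
    ring
  rw [e]
  simp only [Fin.sum_univ_succ, Fin.sum_univ_zero, Matrix.cons_val_zero, Matrix.cons_val_succ]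
  rw [D.phi3 2 0 0 1 2 2]
  rw [D.phi3 2 1 2 0 0 2]
  rw [D.phi2 2 1 2 2]
  simp only [eps, q]
  norm_num

theorem g_B22_B22 : D.phi (fun a => D.B22 a * D.B22 a) = D.q 0 2 0 2 := by
  have e : D.phi (fun a => D.B22 a * D.B22 a) = ∑ i, (![1, 1, 1, 1] : Fin 4 → ℂ) i *
      D.phi ((![fun a => D.X a ^ 0 * D.Y a ^ 2 * D.S a ^ 0 * D.T a ^ 2,
        fun a => D.L a 2 0 * D.L a 0 2 * D.L a 2 2,
        fun a => D.L a 2 2 * D.L a 2 0 * D.L a 0 2,
        fun a => D.L a 2 2 * D.L a 2 2] : Fin 4 → Fin r → ℂ) i) := by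
    refine D.phi_lin _ _ fun a => ?_
    simp only [Fin.sum_univ_succ, Fin.sum_univ_zero, Matrix.cons_val_zero, Matrix.cons_val_succ,
      XX, XY, YY, SS, ST, TT, B11, B12, B21, B22, X, Y, S, T, N11, N12, N21, N22]
    ring
  rw [e]
  simp only [Fin.sum_univ_succ, Fin.sum_univ_zero, Matrix.cons_val_zero, Matrix.cons_val_succ]
  rw [D.phi3 2 0 0 2 2 2]
  rw [D.phi3 2 2 2 0 0 2]
  rw [D.phi2 2 2 2 2]
  simp only [eps, q]
  norm_num

end Dat

end Pool.Agent.Helper36.WR
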