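import Pool.Agent.Helper36.WR.Qv

set_option autoImplicit false

/-!
Independence of sixteen monomials.
-/

namespace Pool.Agent.Helper36.WR

namespace Dat

variable {r : ℕ}

theorem low0000 (D : Dat r) : D.q 0 0 0 0 = 0 := by
  have h : D.phi (fun a => D.L a 0 0 * D.L a 0 0 * D.L a 0 0) = 0 := by
    rw [D.phi3]; simp only [eps]; norm_num
  rw [q, ← h]
  exact D.phi_congr fun a => by simp only [X, Y, S, T, D.h0]; ring

theorem low1000 (D : Dat r) : D.q 1 0 0 0 = 0 := by
  have h : D.phi (fun a => D.L a 1 0 * D.L a 0 0 * D.L a 0 0) = 0 := by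
    rw [D.phi3]; simp only [eps]; norm_num
  rw [q, ← h]
  exact D.phi_congr fun a => by simp only [X, Y, S, T, D.h0]; ring

theorem low0100 (D : Dat r) : D.q 0 1 0 0 = 0 := by
  have h : D.phi (fun a => D.L a 2 0 * D.L a 0 0 * D.L a 0 0) = 0 := by
    rw [D.phi3]; simp only [eps]; norm_num
  rw [q, ← h]
  exact D.phi_congr fun a => by simp only [X, Y, S, T, D.h0]; ring

theorem low0010 (D : Dat r) : D.q 0 0 1 0 = 0 := by
  have h : D.phi (fun a => D.L a 0 1 * D.L a 0 0 * D.L a 0 0) = 0 := by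
    rw [D.phi3]; simp only [eps]; norm_num
  rw [q, ← h]
  exact D.phi_congr fun a => by simp only [X, Y, S, T, D.h0]; ring

theorem low0001 (D : Dat r) : D.q 0 0 0 1 = 0 := by
  have h : D.phi (fun a => D.L a 0 2 * D.L a 0 0 * D.L a 0 0) = 0 := by
    rw [D.phi3]; simp only [eps]; norm_num
  rw [q, ← h]
  exact D.phi_congr fun a => by simp only [X, Y, S, T, D.h0]; ring

theorem low2000 (D : Dat r) : D.q 2 0 0 0 = 0 := by
  have h : D.phi (fun a => D.L a 1 0 * D.L a 1 0 * D.L a 0 0) = 0 := by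
    rw [D.phi3]; simp only [eps]; norm_num
  rw [q, ← h]
  exact D.phi_congr fun a => by simp only [X, Y, S, T, D.h0]; ring

theorem low1100 (D : Dat r) : D.q 1 1 0 0 = 0 := by
  have h : D.phi (fun a => D.L a 1 0 * D.L a 2 0 * D.L a 0 0) = 0 := by
    rw [D.phi3]; simp only [eps]; norm_num
  rw [q, ← h]
  exact D.phi_congr fun a => by simp only [X, Y, S, T, D.h0]; ring

theorem low1010 (D : Dat r) : D.q 1 0 1 0 = 0 := by
  have h : D.phi (fun a => D.L a 1 0 * D.L a 0 1 * D.L a 0 0) = 0 := by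
    rw [D.phi3]; simp only [eps]; norm_num
  rw [q, ← h]
  exact D.phi_congr fun a => by simp only [X, Y, S, T, D.h0]; ring

theorem low1001 (D : Dat r) : D.q 1 0 0 1 = 0 := by
  have h : D.phi (fun a => D.L a 1 0 * D.L a 0 2 * D.L a 0 0) = 0 := by
    rw [D.phi3]; simp only [eps]; norm_num
  rw [q, ← h]
  exact D.phi_congr fun a => by simp only [X, Y, S, T, D.h0]; ring

theorem low0200 (D : Dat r) : D.q 0 2 0 0 = 0 := by
  have h : D.phi (fun a => D.L a 2 0 * D.L a 2 0 * D.L a 0 0) = 0 := by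
    rw [D.phi3]; simp only [eps]; norm_num
  rw [q, ← h]
  exact D.phi_congr fun a => by simp only [X, Y, S, T, D.h0]; ring

theorem low0110 (D : Dat r) : D.q 0 1 1 0 = 0 := by
  have h : D.phi (fun a => D.L a 2 0 * D.L a 0 1 * D.L a 0 0) = 0 := by
    rw [D.phi3]; simp only [eps]; norm_num
  rw [q, ← h]
  exact D.phi_congr fun a => by simp only [X, Y, S, T, D.h0]; ring

theorem low0101 (D : Dat r) : D.q 0 1 0 1 = 0 := by
  have h : D.phi (fun a => D.L a 2 0 * D.L a 0 2 * D.L a 0 0) = 0 := by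
    rw [D.phi3]; simp only [eps]; norm_num
  rw [q, ← h]
  exact D.phi_congr fun a => by simp only [X, Y, S, T, D.h0]; ring

theorem low0020 (D : Dat r) : D.q 0 0 2 0 = 0 := by
  have h : D.phi (fun a => D.L a 0 1 * D.L a 0 1 * D.L a 0 0) = 0 := by
    rw [D.phi3]; simp only [eps]; norm_num
  rw [q, ← h]
  exact D.phi_congr fun a => by simp only [X, Y, S, T, D.h0]; ring

theorem low0011 (D : Dat r) : D.q 0 0 1 1 = 0 := by
  have h : D.phi (fun a => D.L a 0 1 * D.L a 0 2 * D.L a 0 0) = 0 := by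
    rw [D.phi3]; simp only [eps]; norm_num
  rw [q, ← h]
  exact D.phi_congr fun a => by simp only [X, Y, S, T, D.h0]; ring

theorem low0002 (D : Dat r) : D.q 0 0 0 2 = 0 := by
  have h : D.phi (fun a => D.L a 0 2 * D.L a 0 2 * D.L a 0 0) = 0 := by
    rw [D.phi3]; simp only [eps]; norm_num
  rw [q, ← h]
  exact D.phi_congr fun a => by simp only [X, Y, S, T, D.h0]; ring

theorem low3000 (D : Dat r) : D.q 3 0 0 0 = 0 := by
  have h : D.phi (fun a => D.L a 1 0 * D.L a 1 0 * D.L a 1 0) = 0 := by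
    rw [D.phi3]; simp only [eps]; norm_num
  rw [q, ← h]
  exact D.phi_congr fun a => by simp only [X, Y, S, T]; ring

theorem low2100 (D : Dat r) : D.q 2 1 0 0 = 0 := by
  have h : D.phi (fun a => D.L a 1 0 * D.L a 1 0 * D.L a 2 0) = 0 := by
    rw [D.phi3]; simp only [eps]; norm_num
  rw [q, ← h]
  exact D.phi_congr fun a => by simp only [X, Y, S, T]; ring

theorem low2010 (D : Dat r) : D.q 2 0 1 0 = 0 := by
  have h : D.phi (fun a => D.L a 1 0 * D.L a 1 0 * D.L a 0 1) = 0 := by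
    rw [D.phi3]; simp only [eps]; norm_num
  rw [q, ← h]
  exact D.phi_congr fun a => by simp only [X, Y, S, T]; ring

theorem low2001 (D : Dat r) : D.q 2 0 0 1 = 0 := by
  have h : D.phi (fun a => D.L a 1 0 * D.L a 1 0 * D.L a 0 2) = 0 := by
    rw [D.phi3]; simp only [eps]; norm_num
  rw [q, ← h]
  exact D.phi_congr fun a => by simp only [X, Y, S, T]; ring

theorem low1200 (D : Dat r) : D.q 1 2 0 0 = 0 := by
  have h : D.phi (fun a => D.L a 1 0 * D.L a 2 0 * D.L a 2 0) = 0 := by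
    rw [D.phi3]; simp only [eps]; norm_num
  rw [q, ← h]
  exact D.phi_congr fun a => by simp only [X, Y, S, T]; ring

theorem low1110 (D : Dat r) : D.q 1 1 1 0 = 0 := by
  have h : D.phi (fun a => D.L a 1 0 * D.L a 2 0 * D.L a 0 1) = 0 := by
    rw [D.phi3]; simp only [eps]; norm_num
  rw [q, ← h]
  exact D.phi_congr fun a => by simp only [X, Y, S, T]; ring

theorem low1101 (D : Dat r) : D.q 1 1 0 1 = 0 := by
  have h : D.phi (fun a => D.L a 1 0 * D.L a 2 0 * D.L a 0 2) = 0 := by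
    rw [D.phi3]; simp only [eps]; norm_num
  rw [q, ← h]
  exact D.phi_congr fun a => by simp only [X, Y, S, T]; ring

theorem low1020 (D : Dat r) : D.q 1 0 2 0 = 0 := by
  have h : D.phi (fun a => D.L a 1 0 * D.L a 0 1 * D.L a 0 1) = 0 := by
    rw [D.phi3]; simp only [eps]; norm_num
  rw [q, ← h]
  exact D.phi_congr fun a => by simp only [X, Y, S, T]; ring

theorem low1011 (D : Dat r) : D.q 1 0 1 1 = 0 := by
  have h : D.phi (fun a => D.L a 1 0 * D.L a 0 1 * D.L a 0 2) = 0 := by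
    rw [D.phi3]; simp only [eps]; norm_num
  rw [q, ← h]
  exact D.phi_congr fun a => by simp only [X, Y, S, T]; ring

theorem low1002 (D : Dat r) : D.q 1 0 0 2 = 0 := by
  have h : D.phi (fun a => D.L a 1 0 * D.L a 0 2 * D.L a 0 2) = 0 := by
    rw [D.phi3]; simp only [eps]; norm_num
  rw [q, ← h]
  exact D.phi_congr fun a => by simp only [X, Y, S, T]; ring

theorem low0300 (D : Dat r) : D.q 0 3 0 0 = 0 := by
  have h : D.phi (fun a => D.L a 2 0 * D.L a 2 0 * D.L a 2 0) = 0 := by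
    rw [D.phi3]; simp only [eps]; norm_num
  rw [q, ← h]
  exact D.phi_congr fun a => by simp only [X, Y, S, T]; ring

theorem low0210 (D : Dat r) : D.q 0 2 1 0 = 0 := by
  have h : D.phi (fun a => D.L a 2 0 * D.L a 2 0 * D.L a 0 1) = 0 := by
    rw [D.phi3]; simp only [eps]; norm_num
  rw [q, ← h]
  exact D.phi_congr fun a => by simp only [X, Y, S, T]; ring

theorem low0201 (D : Dat r) : D.q 0 2 0 1 = 0 := by
  have h : D.phi (fun a => D.L a 2 0 * D.L a 2 0 * D.L a 0 2) = 0 := by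
    rw [D.phi3]; simp only [eps]; norm_num
  rw [q, ← h]
  exact D.phi_congr fun a => by simp only [X, Y, S, T]; ring

theorem low0120 (D : Dat r) : D.q 0 1 2 0 = 0 := by
  have h : D.phi (fun a => D.L a 2 0 * D.L a 0 1 * D.L a 0 1) = 0 := by
    rw [D.phi3]; simp only [eps]; norm_num
  rw [q, ← h]
  exact D.phi_congr fun a => by simp only [X, Y, S, T]; ring

theorem low0111 (D : Dat r) : D.q 0 1 1 1 = 0 := by
  have h : D.phi (fun a => D.L a 2 0 * D.L a 0 1 * D.L a 0 2) = 0 := by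
    rw [D.phi3]; simp only [eps]; norm_num
  rw [q, ← h]
  exact D.phi_congr fun a => by simp only [X, Y, S, T]; ring

theorem low0102 (D : Dat r) : D.q 0 1 0 2 = 0 := by
  have h : D.phi (fun a => D.L a 2 0 * D.L a 0 2 * D.L a 0 2) = 0 := by
    rw [D.phi3]; simp only [eps]; norm_num
  rw [q, ← h]
  exact D.phi_congr fun a => by simp only [X, Y, S, T]; ring

theorem low0030 (D : Dat r) : D.q 0 0 3 0 = 0 := by
  have h : D.phi (fun a => D.L a 0 1 * D.L a 0 1 * D.L a 0 1) = 0 := by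
    rw [D.phi3]; simp only [eps]; norm_num
  rw [q, ← h]
  exact D.phi_congr fun a => by simp only [X, Y, S, T]; ring

theorem low0021 (D : Dat r) : D.q 0 0 2 1 = 0 := by
  have h : D.phi (fun a => D.L a 0 1 * D.L a 0 1 * D.L a 0 2) = 0 := by
    rw [D.phi3]; simp only [eps]; norm_num
  rw [q, ← h]
  exact D.phi_congr fun a => by simp only [X, Y, S, T]; ring

theorem low0012 (D : Dat r) : D.q 0 0 1 2 = 0 := by
  have h : D.phi (fun a => D.L a 0 1 * D.L a 0 2 * D.L a 0 2) = 0 := by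
    rw [D.phi3]; simp only [eps]; norm_num
  rw [q, ← h]
  exact D.phi_congr fun a => by simp only [X, Y, S, T]; ring

theorem low0003 (D : Dat r) : D.q 0 0 0 3 = 0 := by
  have h : D.phi (fun a => D.L a 0 2 * D.L a 0 2 * D.L a 0 2) = 0 := by
    rw [D.phi3]; simp only [eps]; norm_num
  rw [q, ← h]
  exact D.phi_congr fun a => by simp only [X, Y, S, T]; ring

theorem key16 (D : Dat r) {c0 c1 c2 c3 c4 c5 c6 c7 c8 c9 c10 c11 c12 c13 c14 c15 : ℂ}
    (h : ∀ a, c0 + c1 * D.X a + c2 * D.Y a + c3 * D.S a + c4 * D.T a + c5 * D.X a ^ 2 + c6 * D.S a ^ 2 + c7 * (D.S a * D.T a) + c8 * (D.X a * D.S a) + c9 * (D.X a * D.T a) + c10 * (D.Y a * D.S a) + c11 * (D.Y a * D.T a) + c12 * D.X a ^ 3 + c13 * (D.X a * D.S a * D.T a) + c14 * D.S a ^ 3 + c15 * (D.S a ^ 2 * D.T a) = 0) (i j k l : ℕ) :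
    c0 * D.q i j k l + c1 * D.q (i + 1) j k l + c2 * D.q i (j + 1) k l + c3 * D.q i j (k + 1) l + c4 * D.q i j k (l + 1) + c5 * D.q (i + 2) j k l + c6 * D.q i j (k + 2) l + c7 * D.q i j (k + 1) (l + 1) + c8 * D.q (i + 1) j (k + 1) l + c9 * D.q (i + 1) j k (l + 1) + c10 * D.q i (j + 1) (k + 1) l + c11 * D.q i (j + 1) k (l + 1) + c12 * D.q (i + 3) j k l + c13 * D.q (i + 1) j (k + 1) (l + 1) + c14 * D.q i j (k + 3) l + c15 * D.q i j (k + 2) (l + 1) = 0 := by
  have e : D.phi (fun a => (c0 + c1 * D.X a + c2 * D.Y a + c3 * D.S a + c4 * D.T a + c5 * D.X a ^ 2 + c6 * D.S a ^ 2 + c7 * (D.S a * D.T a) + c8 * (D.X a * D.S a) + c9 * (D.X a * D.T a) + c10 * (D.Y a * D.S a) + c11 * (D.Y a * D.T a) + c12 * D.X a ^ 3 + c13 * (D.X a * D.S a * D.T a) + c14 * D.S a ^ 3 + c15 * (D.S a ^ 2 * D.T a)) *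
      (D.X a ^ i * D.Y a ^ j * D.S a ^ k * D.T a ^ l)) =
      ∑ n, (![c0, c1, c2, c3, c4, c5, c6, c7, c8, c9, c10, c11, c12, c13, c14, c15] : Fin 16 → ℂ) n *
        D.phi ((![fun a => D.X a ^ i * D.Y a ^ j * D.S a ^ k * D.T a ^ l,
          fun a => D.X a ^ (i + 1) * D.Y a ^ j * D.S a ^ k * D.T a ^ l,
          fun a => D.X a ^ i * D.Y a ^ (j + 1) * D.S a ^ k * D.T a ^ l,
          fun a => D.X a ^ i * D.Y a ^ j * D.S a ^ (k + 1) * D.T a ^ l,
          fun a => D.X a ^ i * D.Y a ^ j * D.S a ^ k * D.T a ^ (l + 1),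
          fun a => D.X a ^ (i + 2) * D.Y a ^ j * D.S a ^ k * D.T a ^ l,
          fun a => D.X a ^ i * D.Y a ^ j * D.S a ^ (k + 2) * D.T a ^ l,
          fun a => D.X a ^ i * D.Y a ^ j * D.S a ^ (k + 1) * D.T a ^ (l + 1),
          fun a => D.X a ^ (i + 1) * D.Y a ^ j * D.S a ^ (k + 1) * D.T a ^ l,
          fun a => D.X a ^ (i + 1) * D.Y a ^ j * D.S a ^ k * D.T a ^ (l + 1),
          fun a => D.X a ^ i * D.Y a ^ (j + 1) * D.S a ^ (k + 1) * D.T a ^ l,
          fun a => D.X a ^ i * D.Y a ^ (j + 1) * D.S a ^ k * D.T a ^ (l + 1),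
          fun a => D.X a ^ (i + 3) * D.Y a ^ j * D.S a ^ k * D.T a ^ l,
          fun a => D.X a ^ (i + 1) * D.Y a ^ j * D.S a ^ (k + 1) * D.T a ^ (l + 1),
          fun a => D.X a ^ i * D.Y a ^ j * D.S a ^ (k + 3) * D.T a ^ l,
          fun a => D.X a ^ i * D.Y a ^ j * D.S a ^ (k + 2) * D.T a ^ (l + 1)] : Fin 16 → Fin r → ℂ) n) := by
    refine D.phi_lin _ _ fun a => ?_
    simp only [Fin.sum_univ_succ, Fin.sum_univ_zero, Matrix.cons_val_zero, Matrix.cons_val_succ]
    ring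
  rw [D.phi_zero fun a => by rw [h a, zero_mul]] at e
  simp only [Fin.sum_univ_succ, Fin.sum_univ_zero, Matrix.cons_val_zero, Matrix.cons_val_succ] at e
  simp only [q]
  linear_combination -e

theorem ind16 {D : Dat r} (hN : NF D) {c0 c1 c2 c3 c4 c5 c6 c7 c8 c9 c10 c11 c12 c13 c14 c15 : ℂ}
    (h : ∀ a, c0 + c1 * D.X a + c2 * D.Y a + c3 * D.S a + c4 * D.T a + c5 * D.X a ^ 2 + c6 * D.S a ^ 2 + c7 * (D.S a * D.T a) + c8 * (D.X a * D.S a) + c9 * (D.X a * D.T a) + c10 * (D.Y a * D.S a) + c11 * (D.Y a * D.T a) + c12 * D.X a ^ 3 + c13 * (D.X a * D.S a * D.T a) + c14 * D.S a ^ 3 + c15 * (D.S a ^ 2 * D.T a) = 0) :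
    c0 = 0 ∧ c1 = 0 ∧ c2 = 0 ∧ c3 = 0 ∧ c4 = 0 ∧ c5 = 0 ∧ c6 = 0 ∧ c7 = 0 ∧ c8 = 0 ∧ c9 = 0 ∧ c10 = 0 ∧ c11 = 0 ∧ c12 = 0 ∧ c13 = 0 ∧ c14 = 0 ∧ c15 = 0 := by
  have hX := D.key16 h 1 0 0 0
  norm_num only [D.low1000, D.low1001, D.low1010, D.low1011, D.low1020, D.low1100, D.low1101, D.low1110, D.low2000, D.low2001, D.low2010, D.low3000, q1021 hN, q1030 hN, q2011 hN, q4000 hN] at hX
  have hY := D.key16 h 0 1 0 0
  norm_num only [D.low0100, D.low0101, D.low0110, D.low0111, D.low0120, D.low0200, D.low0201, D.low0210, D.low1100, D.low1101, D.low1110, D.low2100, q0121 hN, q0130 hN, q1111 hN, q3100 hN] at hY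
  have hS := D.key16 h 0 0 1 0
  norm_num only [D.low0010, D.low0011, D.low0020, D.low0021, D.low0030, D.low0110, D.low0111, D.low0120, D.low1010, D.low1011, D.low1020, D.low2010, q0031 hN, q0040 hN, q1021 hN, q3010 hN] at hS
  have hT := D.key16 h 0 0 0 1
  norm_num only [D.low0001, D.low0002, D.low0011, D.low0012, D.low0021, D.low0101, D.low0102, D.low0111, D.low1001, D.low1002, D.low1011, D.low2001, q0022 hN, q0031 hN, q1012 hN, q3001 hN] at hT
  have z12 : c12 = 0 := by linear_combination hX / 2 + hT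
  have z13 : c13 = 0 := by linear_combination -3 * hY
  have z14 : c14 = 0 := by linear_combination 2 * hT - 2 * hX
  have z15 : c15 = 0 := by linear_combination 6 * hS
  have hXX := D.key16 h 2 0 0 0
  simp only [z12, z13, z14, z15, zero_mul, add_zero, zero_mul, add_zero] at hXX
  norm_num only [D.low2000, D.low2001, D.low2010, D.low2100, D.low3000, q2011 hN, q2020 hN, q2101 hN, q2110 hN, q3001 hN, q3010 hN, q4000 hN] at hXX
  have hSS := D.key16 h 0 0 2 0
  simp only [z12, z13, z14, z15, zero_mul, add_zero, zero_mul, add_zero] at hSS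
  norm_num only [D.low0020, D.low0021, D.low0030, D.low0120, D.low1020, q0031 hN, q0040 hN, q0121 hN, q0130 hN, q1021 hN, q1030 hN, q2020 hN] at hSS
  have hST := D.key16 h 0 0 1 1
  simp only [z12, z13, z14, z15, zero_mul, add_zero, zero_mul, add_zero] at hST
  norm_num only [D.low0011, D.low0012, D.low0021, D.low0111, D.low1011, q0022 hN, q0031 hN, q0112 hN, q0121 hN, q1012 hN, q1021 hN, q2011 hN] at hST
  have hXS := D.key16 h 1 0 1 0
  simp only [z12, z13, z14, z15, zero_mul, add_zero, zero_mul, add_zero] at hXS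
  norm_num only [D.low1010, D.low1011, D.low1020, D.low1110, D.low2010, q1021 hN, q1030 hN, q1111 hN, q1120 hN, q2011 hN, q2020 hN, q3010 hN] at hXS
  have hYT := D.key16 h 0 1 0 1
  simp only [z12, z13, z14, z15, zero_mul, add_zero, zero_mul, add_zero] at hYT
  norm_num only [D.low0101, D.low0102, D.low0111, D.low0201, D.low1101, q0112 hN, q0121 hN, q0202 hN, q0211 hN, q1102 hN, q1111 hN, q2101 hN] at hYT
  have hXT := D.key16 h 1 0 0 1
  simp only [z12, z13, z14, z15, zero_mul, add_zero, zero_mul, add_zero] at hXT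
  norm_num only [D.low1001, D.low1002, D.low1011, D.low1101, D.low2001, q1012 hN, q1021 hN, q1102 hN, q1111 hN, q2002 hN, q2011 hN, q3001 hN] at hXT
  have hYS := D.key16 h 0 1 1 0
  simp only [z12, z13, z14, z15, zero_mul, add_zero, zero_mul, add_zero] at hYS
  norm_num only [D.low0110, D.low0111, D.low0120, D.low0210, D.low1110, q0121 hN, q0130 hN, q0211 hN, q0220 hN, q1111 hN, q1120 hN, q2110 hN] at hYS
  have z10 : c10 = 0 := by linear_combination hXX - hXT
  have z9 : c9 = 0 := by linear_combination hXX - hYS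
  have z5 : c5 = 0 := by linear_combination 3 / 2 * hXX - z9 - z10
  have z7 : c7 = 0 := by linear_combination 2 * hYT - 2 * hSS
  have z8 : c8 = 0 := by linear_combination 2 * z7 - 3 * hYT
  have z6 : c6 = 0 := by linear_combination -2 * hST - 4 * hXS
  have z11 : c11 = 0 := by linear_combination -3 * hXS - z6
  have hX3 := D.key16 h 3 0 0 0
  simp only [z5, z6, z7, z8, z9, z10, z11, z12, z13, z14, z15, zero_mul, add_zero, zero_mul, add_zero] at hX3
  norm_num only [D.low3000, q3001 hN, q3010 hN, q3100 hN, q4000 hN] at hX3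
  have hS3 := D.key16 h 0 0 3 0
  simp only [z5, z6, z7, z8, z9, z10, z11, z12, z13, z14, z15, zero_mul, add_zero, zero_mul, add_zero] at hS3
  norm_num only [D.low0030, q0031 hN, q0040 hN, q0130 hN, q1030 hN] at hS3
  have hXST := D.key16 h 1 0 1 1
  simp only [z5, z6, z7, z8, z9, z10, z11, z12, z13, z14, z15, zero_mul, add_zero, zero_mul, add_zero] at hXST
  norm_num only [D.low1011, q1012 hN, q1021 hN, q1111 hN, q2011 hN] at hXST
  have hSST := D.key16 h 0 0 2 1
  simp only [z5, z6, z7, z8, z9, z10, z11, z12, z13, z14, z15, zero_mul, add_zero, zero_mul, add_zero] at hSST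
  norm_num only [D.low0021, q0022 hN, q0031 hN, q0121 hN, q1021 hN] at hSST
  have z4 : c4 = 0 := by linear_combination hX3 + 2 * hS3
  have z1 : c1 = 0 := by linear_combination 3 / 2 * hX3 - z4
  have z2 : c2 = 0 := by linear_combination -3 * hXST
  have z3 : c3 = 0 := by linear_combination 6 * hSST
  have h1 := D.key16 h 4 0 0 0
  simp only [z1, z2, z3, z4, z5, z6, z7, z8, z9, z10, z11, z12, z13, z14, z15, zero_mul, add_zero, zero_mul, add_zero] at h1
  norm_num only [q4000 hN] at h1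
  have z0 : c0 = 0 := by linear_combination 3 / 2 * h1
  exact ⟨z0, z1, z2, z3, z4, z5, z6, z7, z8, z9, z10, z11, z12, z13, z14, z15⟩

end Dat

end Pool.Agent.Helper36.WR
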