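import Pool.Agent.Helper36.WR.Act

set_option autoImplicit false

/-!
No combination of rank one lies in the affine functions.
-/

namespace Pool.Agent.Helper36.WR

namespace Dat

variable {r : ℕ} (D : Dat r)

/-- Two mutually orthogonal isotropic elements of `K`. -/
theorem iso2 (hr : r ≤ 17) {f₁ f₂ g₁ g₂ : Fin r → ℂ} (hf₁ : D.inK f₁) (hf₂ : D.inK f₂)
    (hg₁ : D.inK g₁) (hg₂ : D.inK g₂) (h₁₁ : D.phi (fun a => f₁ a * f₁ a) = 0)
    (h₁₂ : D.phi (fun a => f₁ a * f₂ a) = 0) (h₂₂ : D.phi (fun a => f₂ a * f₂ a) = 0) :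
    D.phi (fun a => f₁ a * g₁ a) * D.phi (fun a => f₂ a * g₂ a) -
      D.phi (fun a => f₁ a * g₂ a) * D.phi (fun a => f₂ a * g₁ a) = 0 := by
  obtain ⟨d0, d1, d2, d3, hd, h⟩ := D.dep4 hr hf₁ hf₂ hg₁ hg₂
  have e1 := D.pair4 h hf₁
  have e2 := D.pair4 h hf₂
  have e3 := D.pair4 h hg₁
  have e4 := D.pair4 h hg₂
  rw [D.phi_comm f₂ f₁] at e1
  rw [h₁₁, h₁₂] at e1
  rw [h₁₂, h₂₂] at e2
  rw [D.phi_comm g₁ f₁, D.phi_comm g₂ f₁] at e1
  rw [D.phi_comm g₁ f₂, D.phi_comm g₂ f₂] at e2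
  by_contra hne
  set p := D.phi (fun a => f₁ a * g₁ a)
  set q' := D.phi (fun a => f₁ a * g₂ a)
  set s := D.phi (fun a => f₂ a * g₁ a)
  set t := D.phi (fun a => f₂ a * g₂ a)
  have z2 : d2 = 0 := by
    have : (p * t - q' * s) * d2 = 0 := by linear_combination t * e1 - q' * e2
    rcases mul_eq_zero.mp this with h | h
    · exact absurd h hne
    · exact h
  have z3 : d3 = 0 := by
    have : (p * t - q' * s) * d3 = 0 := by linear_combination p * e2 - s * e1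
    rcases mul_eq_zero.mp this with h | h
    · exact absurd h hne
    · exact h
  rw [z2, z3] at e3 e4
  have z0 : d0 = 0 := by
    have : (p * t - q' * s) * d0 = 0 := by linear_combination t * e3 - s * e4
    rcases mul_eq_zero.mp this with h | h
    · exact absurd h hne
    · exact h
  have z1 : d1 = 0 := by
    have : (p * t - q' * s) * d1 = 0 := by linear_combination p * e4 - q' * e3
    rcases mul_eq_zero.mp this with h | h
    · exact absurd h hne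
    · exact h
  exact hd ⟨z0, z1, z2, z3⟩

theorem not_inA_XX (hr : r ≤ 17) : ¬ D.inA D.XX := by
  intro h
  have hp : ∀ g, D.inK g → D.phi (fun a => D.XX a * g a) = 0 := fun g hg => D.inA_perp h hg
  have m2200 : D.q 2 2 0 0 = 0 := by rw [← D.g_XX_YY]; exact hp _ D.inK_YY
  have m2110 : D.q 2 1 1 0 = 0 := by rw [← D.g_XX_B21]; exact hp _ D.inK_B21
  have m2101 : D.q 2 1 0 1 = 0 := by rw [← D.g_XX_B22]; exact hp _ D.inK_B22
  have m2020 : D.q 2 0 2 0 = 0 := by rw [← D.g_XX_SS]; exact hp _ D.inK_SS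
  have m2011 : D.q 2 0 1 1 = 0 := by rw [← D.g_XX_ST]; exact hp _ D.inK_ST
  have m2002 : D.q 2 0 0 2 = 0 := by rw [← D.g_XX_TT]; exact hp _ D.inK_TT
  have hb1 := D.g_XY_XY; rw [m2200] at hb1
  have hb2 := D.g_XY_B11; rw [m2110] at hb2
  have hb3 := D.g_XY_B12; rw [m2101] at hb3
  have hb4 := D.g_B11_B11; rw [m2020] at hb4
  have hb5 := D.g_B11_B12; rw [m2011] at hb5
  have hb6 := D.g_B12_B12; rw [m2002] at hb6
  have i1 := D.iso2 hr D.inK_XY D.inK_B11 D.inK_ST D.inK_B22 hb1 hb2 hb4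
  have i2 := D.iso2 hr D.inK_XY D.inK_B12 D.inK_SS D.inK_B22 hb1 hb3 hb6
  have i3 := D.iso2 hr D.inK_B11 D.inK_B12 D.inK_B22 D.inK_B21 hb4 hb5 hb6
  have i4 := D.iso2 hr D.inK_XY D.inK_B12 D.inK_ST D.inK_B22 hb1 hb3 hb6
  have i5 := D.iso2 hr D.inK_XY D.inK_B11 D.inK_TT D.inK_B22 hb1 hb2 hb4
  have i6 := D.iso2 hr D.inK_XY D.inK_B11 D.inK_ST D.inK_TT hb1 hb2 hb4
  have i7 := D.iso2 hr D.inK_XY D.inK_B12 D.inK_ST D.inK_B21 hb1 hb3 hb6
  rw [D.phi_comm D.B11 D.ST, D.g_XY_ST, D.g_B11_B22, D.g_XY_B22, D.g_ST_B11] at i1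
  rw [D.phi_comm D.B12 D.SS, D.g_XY_SS, D.g_B12_B22, D.g_XY_B22, D.g_SS_B12] at i2
  rw [D.g_B11_B22, D.g_B12_B21, D.g_B11_B21, D.g_B12_B22] at i3
  rw [D.phi_comm D.B12 D.ST, D.g_XY_ST, D.g_B12_B22, D.g_XY_B22, D.g_ST_B12] at i4
  rw [D.phi_comm D.B11 D.TT, D.g_XY_TT, D.g_B11_B22, D.g_XY_B22, D.g_TT_B11] at i5
  rw [D.phi_comm D.B11 D.TT, D.phi_comm D.B11 D.ST, D.g_XY_ST, D.g_TT_B11, D.g_XY_TT,
    D.g_ST_B11] at i6
  rw [D.phi_comm D.B12 D.ST, D.g_XY_ST, D.g_B12_B21, D.g_XY_B21, D.g_ST_B12] at i7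
  have hm : D.q 1 1 1 1 = 1 := by linear_combination i3 - i1 + i2
  have hu : D.q 1 1 0 2 = 0 := by linear_combination i4 - i5
  rw [hm, hu] at i6
  have hz : D.q 1 0 1 2 = 0 := by linear_combination i6
  rw [hm, hz] at i7
  norm_num at i7

theorem not_inA_SS (hr : r ≤ 17) : ¬ D.inA D.SS := by
  intro h
  refine D.tr.not_inA_XX hr ?_
  obtain ⟨c0, c1, c2, c3, c4, e⟩ := h
  exact ⟨c0, c3, c4, c1, c2, fun a => by
    have := e a
    simp only [SS, S, X, Y, T] at this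
    simp only [XX, X, tr, Matrix.transpose_apply, S, Y, T]
    rw [this]; ring⟩

theorem not_inA_B11 (hr : r ≤ 17) : ¬ D.inA D.B11 := by
  intro h
  have hp : ∀ g, D.inK g → D.phi (fun a => D.B11 a * g a) = 0 := fun g hg => D.inA_perp h hg
  have hX : ∃ f, D.inK f ∧ D.phi (fun a => D.XX a * f a) ≠ 0 := by
    by_contra hc
    push Not at hc
    exact D.not_inA_XX hr (D.inA_of_perp D.inK_XX hc)
  have hS : ∃ f, D.inK f ∧ D.phi (fun a => D.SS a * f a) ≠ 0 := by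
    by_contra hc
    push Not at hc
    exact D.not_inA_SS hr (D.inA_of_perp D.inK_SS hc)
  obtain ⟨f, hf, hfX⟩ := hX
  obtain ⟨g, hg, hgS⟩ := hS
  have m3010 : D.q 3 0 1 0 = 0 := by rw [← D.g_XX_B11, D.phi_comm]; exact hp _ D.inK_XX
  have m2110 : D.q 2 1 1 0 = 0 := by rw [← D.g_XY_B11, D.phi_comm]; exact hp _ D.inK_XY
  have m1210 : D.q 1 2 1 0 = 0 := by rw [← D.g_YY_B11, D.phi_comm]; exact hp _ D.inK_YY
  have m1030 : D.q 1 0 3 0 = 0 := by rw [← D.g_SS_B11, D.phi_comm]; exact hp _ D.inK_SS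
  have m1021 : D.q 1 0 2 1 = 0 := by rw [← D.g_ST_B11, D.phi_comm]; exact hp _ D.inK_ST
  have m1012 : D.q 1 0 1 2 = 0 := by rw [← D.g_TT_B11, D.phi_comm]; exact hp _ D.inK_TT
  have m2020 : D.q 2 0 2 0 = 0 := by rw [← D.g_B11_B11]; exact hp _ D.inK_B11
  have m2011 : D.q 2 0 1 1 = 0 := by rw [← D.g_B11_B12]; exact hp _ D.inK_B12
  have m1120 : D.q 1 1 2 0 = 0 := by rw [← D.g_B11_B21]; exact hp _ D.inK_B21
  have m1111 : D.q 1 1 1 1 = 1 := by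
    have := hp _ D.inK_B22
    rw [D.g_B11_B22] at this
    linear_combination this
  obtain ⟨d0, d1, d2, d3, hd, hrel⟩ := D.dep4 hr hf D.inK_ST D.inK_B21 D.inK_SS
  have e1 := D.pair4 hrel D.inK_XX
  have e2 := D.pair4 hrel D.inK_XY
  have e3 := D.pair4 hrel D.inK_B12
  have e4 := D.pair4 hrel hg
  rw [D.phi_comm f D.XX, D.phi_comm D.ST D.XX, D.phi_comm D.B21 D.XX, D.phi_comm D.SS D.XX,
    D.g_XX_ST, D.g_XX_B21, D.g_XX_SS, m2011, m2110, m2020] at e1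
  have z0 : d0 = 0 := by
    have : d0 * D.phi (fun a => D.XX a * f a) = 0 := by linear_combination e1
    rcases mul_eq_zero.mp this with h | h
    · exact h
    · exact absurd h hfX
  rw [D.phi_comm D.ST D.XY, D.phi_comm D.B21 D.XY, D.phi_comm D.SS D.XY,
    D.g_XY_ST, D.g_XY_B21, D.g_XY_SS, m1111, m1210, m1120, z0] at e2
  have z1 : d1 = 0 := by linear_combination e2
  rw [D.g_ST_B12, D.phi_comm D.B21 D.B12, D.g_B12_B21, D.g_SS_B12, m1012, m1111, m1021, z0] at e3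
  have z2 : d2 = 0 := by linear_combination e3 / 2
  rw [z0, z1, z2] at e4
  have z3 : d3 = 0 := by
    have : d3 * D.phi (fun a => D.SS a * g a) = 0 := by linear_combination e4
    rcases mul_eq_zero.mp this with h | h
    · exact h
    · exact absurd h hgS
  exact hd ⟨z0, z1, z2, z3⟩

/-- No combination of the `B` of rank one is affine. -/
theorem not_rank_one (hr : r ≤ 17) {v₁ v₂ w₁ w₂ : ℂ} (hv : ¬ (v₁ = 0 ∧ v₂ = 0))
    (hw : ¬ (w₁ = 0 ∧ w₂ = 0)) :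
    ¬ D.inA (fun a => v₁ * w₁ * D.B11 a + v₁ * w₂ * D.B12 a + v₂ * w₁ * D.B21 a +
      v₂ * w₂ * D.B22 a) := by
  intro h
  have hg : ∃ g₂₁ g₂₂ : ℂ, v₁ * g₂₂ - v₂ * g₂₁ = 1 := by
    by_cases h1 : v₁ = 0
    · have h2 : v₂ ≠ 0 := fun h2 => hv ⟨h1, h2⟩
      exact ⟨-1 / v₂, 0, by field_simp; ring⟩
    · exact ⟨0, 1 / v₁, by field_simp; ring⟩
  have hh : ∃ h₂₁ h₂₂ : ℂ, w₁ * h₂₂ - w₂ * h₂₁ = 1 := by
    by_cases h1 : w₁ = 0
    · have h2 : w₂ ≠ 0 := fun h2 => hw ⟨h1, h2⟩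
      exact ⟨-1 / w₂, 0, by field_simp; ring⟩
    · exact ⟨0, 1 / w₁, by field_simp; ring⟩
  obtain ⟨g₂₁, g₂₂, hg⟩ := hg
  obtain ⟨h₂₁, h₂₂, hh⟩ := hh
  have hd : (v₁ * g₂₂ - v₂ * g₂₁) * (w₁ * h₂₂ - w₂ * h₂₁) = 1 := by rw [hg, hh, one_mul]
  refine (D.tf 0 0 0 0 v₁ v₂ g₂₁ g₂₂ w₁ w₂ h₂₁ h₂₂ hd).not_inA_B11 hr ?_
  have := D.inA_tf 0 0 0 0 v₁ v₂ g₂₁ g₂₂ w₁ w₂ h₂₁ h₂₂ hd h
  obtain ⟨c0, c1, c2, c3, c4, e⟩ := this
  refine ⟨c0, c1, c2, c3, c4, fun a => ?_⟩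
  rw [← e a]
  simp only [B11, tf_X, tf_S, tf_N11, B12, B21, B22]
  ring

include D in
/-- After a change of coordinates `B12 - B21` is affine. -/
theorem exists_H (hr : r ≤ 17) : ∃ D' : Dat r, D'.inA (fun a => D'.B12 a - D'.B21 a) := by
  obtain ⟨d0, d1, d2, d3, hd, hrel⟩ := D.dep4 hr D.inK_B11 D.inK_B12 D.inK_B21 D.inK_B22
  have hdet : d0 * d3 - d1 * d2 ≠ 0 := by
    intro h0
    by_cases hrow : d0 = 0 ∧ d1 = 0
    · refine D.not_rank_one hr (v₁ := 0) (v₂ := 1) (w₁ := d2) (w₂ := d3) (by simp) ?_ ?_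
      · exact fun h => hd ⟨hrow.1, hrow.2, h.1, h.2⟩
      · obtain ⟨c0, c1, c2, c3, c4, e⟩ := hrel
        exact ⟨c0, c1, c2, c3, c4, fun a => by rw [← e a, hrow.1, hrow.2]; ring⟩
    · have hs : ∃ s : ℂ, d2 = s * d0 ∧ d3 = s * d1 := by
        by_cases h1 : d0 = 0
        · have h2 : d1 ≠ 0 := fun h2 => hrow ⟨h1, h2⟩
          refine ⟨d3 / d1, ?_, by field_simp⟩
          rw [h1] at h0 ⊢
          have : d1 * d2 = 0 := by linear_combination -h0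
          rcases mul_eq_zero.mp this with h | h
          · exact absurd h h2
          · rw [h]; ring
        · exact ⟨d2 / d0, by field_simp, by field_simp; linear_combination h0⟩
      obtain ⟨s, hs1, hs2⟩ := hs
      refine D.not_rank_one hr (v₁ := 1) (v₂ := s) (w₁ := d0) (w₂ := d1) (by simp) hrow ?_
      obtain ⟨c0, c1, c2, c3, c4, e⟩ := hrel
      exact ⟨c0, c1, c2, c3, c4, fun a => by rw [← e a, hs1, hs2]; ring⟩
  obtain ⟨s, hs⟩ : ∃ s : ℂ, s ^ 2 = d0 * d3 - d1 * d2 := IsAlgClosed.exists_pow_nat_eq _ (by norm_num)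
  have hs0 : s ≠ 0 := fun h => hdet (by rw [← hs, h]; ring)
  have hd' : (d1 / s * (-(d2 / s)) - d3 / s * (-(d0 / s))) * ((1 : ℂ) * 1 - 0 * 0) = 1 := by
    field_simp
    linear_combination -hs
  refine ⟨D.tf 0 0 0 0 (d1 / s) (d3 / s) (-(d0 / s)) (-(d2 / s)) 1 0 0 1 hd', ?_⟩
  have := D.inA_tf 0 0 0 0 (d1 / s) (d3 / s) (-(d0 / s)) (-(d2 / s)) 1 0 0 1 hd' hrel
  obtain ⟨c0, c1, c2, c3, c4, e⟩ := this
  refine ⟨c0 / s, c1 / s, c2 / s, c3 / s, c4 / s, fun a => ?_⟩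
  have e' := e a
  have : (D.tf 0 0 0 0 (d1 / s) (d3 / s) (-(d0 / s)) (-(d2 / s)) 1 0 0 1 hd').B12 a -
      (D.tf 0 0 0 0 (d1 / s) (d3 / s) (-(d0 / s)) (-(d2 / s)) 1 0 0 1 hd').B21 a =
      (d0 * D.B11 a + d1 * D.B12 a + d2 * D.B21 a + d3 * D.B22 a) / s := by
    simp only [B12, B21, tf_X, tf_Y, tf_S, tf_T, tf_N12, tf_N21, B11, B22]
    ring
  beta_reduce
  beta_reduce at e'
  rw [this, e']
  ring

end Dat

end Pool.Agent.Helper36.WR
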