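import Pool.Agent.Helper36.WR.Mk

set_option autoImplicit false
set_option linter.unusedSimpArgs false

/-!
The affine remainders of the relations are constant after a translation.
-/

namespace Pool.Agent.Helper36.WR

namespace Dat

variable {r : ℕ}

theorem inK_s0111 (D : Dat r) : D.inK (fun a => D.S a * D.N11 a) := by
  refine D.inK_congr (fun a => ?_) (D.inK_smul (1 / 2) (D.sym_inK 0 1 1 1))
  simp only [X, Y, S, T, N11, N12, N21, N22]; ring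

theorem inK_s0112 (D : Dat r) : D.inK (fun a => D.S a * D.N12 a + D.T a * D.N11 a) := by
  refine D.inK_congr (fun a => ?_) (D.inK_smul 1 (D.sym_inK 0 1 1 2))
  simp only [X, Y, S, T, N11, N12, N21, N22]; ring

theorem inK_s0211 (D : Dat r) : D.inK (fun a => D.S a * D.N21 a) := by
  refine D.inK_congr (fun a => ?_) (D.inK_smul (1 / 2) (D.sym_inK 0 2 1 1))
  simp only [X, Y, S, T, N11, N12, N21, N22]; ring

theorem inK_s0212 (D : Dat r) : D.inK (fun a => D.S a * D.N22 a + D.T a * D.N21 a) := by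
  refine D.inK_congr (fun a => ?_) (D.inK_smul 1 (D.sym_inK 0 2 1 2))
  simp only [X, Y, S, T, N11, N12, N21, N22]; ring

theorem inK_s0122 (D : Dat r) : D.inK (fun a => D.T a * D.N12 a) := by
  refine D.inK_congr (fun a => ?_) (D.inK_smul (1 / 2) (D.sym_inK 0 1 2 2))
  simp only [X, Y, S, T, N11, N12, N21, N22]; ring

theorem inK_s0222 (D : Dat r) : D.inK (fun a => D.T a * D.N22 a) := by
  refine D.inK_congr (fun a => ?_) (D.inK_smul (1 / 2) (D.sym_inK 0 2 2 2))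
  simp only [X, Y, S, T, N11, N12, N21, N22]; ring

theorem inK_s1101 (D : Dat r) : D.inK (fun a => D.X a * D.N11 a) := by
  refine D.inK_congr (fun a => ?_) (D.inK_smul (1 / 2) (D.sym_inK 1 1 0 1))
  simp only [X, Y, S, T, N11, N12, N21, N22]; ring

theorem inK_s1102 (D : Dat r) : D.inK (fun a => D.X a * D.N12 a) := by
  refine D.inK_congr (fun a => ?_) (D.inK_smul (1 / 2) (D.sym_inK 1 1 0 2))
  simp only [X, Y, S, T, N11, N12, N21, N22]; ring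

theorem inK_s1201 (D : Dat r) : D.inK (fun a => D.X a * D.N21 a + D.Y a * D.N11 a) := by
  refine D.inK_congr (fun a => ?_) (D.inK_smul 1 (D.sym_inK 1 2 0 1))
  simp only [X, Y, S, T, N11, N12, N21, N22]; ring

theorem inK_s1202 (D : Dat r) : D.inK (fun a => D.X a * D.N22 a + D.Y a * D.N12 a) := by
  refine D.inK_congr (fun a => ?_) (D.inK_smul 1 (D.sym_inK 1 2 0 2))
  simp only [X, Y, S, T, N11, N12, N21, N22]; ring

theorem inK_s2201 (D : Dat r) : D.inK (fun a => D.Y a * D.N21 a) := by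
  refine D.inK_congr (fun a => ?_) (D.inK_smul (1 / 2) (D.sym_inK 2 2 0 1))
  simp only [X, Y, S, T, N11, N12, N21, N22]; ring

theorem inK_s2202 (D : Dat r) : D.inK (fun a => D.Y a * D.N22 a) := by
  refine D.inK_congr (fun a => ?_) (D.inK_smul (1 / 2) (D.sym_inK 2 2 0 2))
  simp only [X, Y, S, T, N11, N12, N21, N22]; ring

/-- The relations with affine remainders. -/
structure Rel (D : Dat r) (l10 l11 l12 l13 l14 l20 l21 l22 l23 l24 l30 l31 l32 l33 l34 l40 l41 l42 l43 l44 l50 l51 l52 l53 l54 l60 l61 l62 l63 l64 l70 l71 l72 l73 l74 : ℂ) : Prop where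
  htt : ∀ a, D.T a ^ 2 = D.X a ^ 2 + (l10 + l11 * D.X a + l12 * D.Y a + l13 * D.S a + l14 * D.T a)
  hxy : ∀ a, D.X a * D.Y a = -2 * D.S a ^ 2 + (l20 + l21 * D.X a + l22 * D.Y a + l23 * D.S a + l24 * D.T a)
  hyy : ∀ a, D.Y a ^ 2 = 4 * (D.S a * D.T a) + (l30 + l31 * D.X a + l32 * D.Y a + l33 * D.S a + l34 * D.T a)
  h11 : ∀ a, D.N11 a = -(D.X a * D.S a) - 2 * (D.S a * D.T a) + (l40 + l41 * D.X a + l42 * D.Y a + l43 * D.S a + l44 * D.T a)
  h12 : ∀ a, D.N12 a = D.X a ^ 2 - D.X a * D.T a + (l50 + l51 * D.X a + l52 * D.Y a + l53 * D.S a + l54 * D.T a)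
  h21 : ∀ a, D.N21 a = D.X a ^ 2 - D.Y a * D.S a + (l60 + l61 * D.X a + l62 * D.Y a + l63 * D.S a + l64 * D.T a)
  h22 : ∀ a, D.N22 a = 4 * D.S a ^ 2 - D.Y a * D.T a + (l70 + l71 * D.X a + l72 * D.Y a + l73 * D.S a + l74 * D.T a)

theorem rel1 {D : Dat r} {l10 l11 l12 l13 l14 l20 l21 l22 l23 l24 l30 l31 l32 l33 l34 l40 l41 l42 l43 l44 l50 l51 l52 l53 l54 l60 l61 l62 l63 l64 l70 l71 l72 l73 l74 : ℂ}
    (h : Rel D l10 l11 l12 l13 l14 l20 l21 l22 l23 l24 l30 l31 l32 l33 l34 l40 l41 l42 l43 l44 l50 l51 l52 l53 l54 l60 l61 l62 l63 l64 l70 l71 l72 l73 l74) :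
    l23 - l31 - 2 * l41 = 0 ∧ l24 = 0 ∧ -l32 + l63 - 2 * l42 = 0 ∧ l64 = 0 := by
  have hK : D.inK (fun a => (1) * (D.Y a * D.N21 a) + (-2) * (D.S a * D.N11 a)) := by
    exact (D.inK_add (D.inK_smul (1) D.inK_s2201) (D.inK_smul (-2) D.inK_s0111))
  obtain ⟨htt, hxy, hyy, h11, h12, h21, h22⟩ := h
  refine coef4 hK (c0 := 0) (c1 := l20) (c2 := l60) (c3 := -l30 - 2 * l40) (c4 := 0)
    (c5 := l21) (c6 := l22 + l61) (c7 := l62) (c8 := -l33 - 2 * l43)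
    (c9 := -l34 - 2 * l44) (c10 := 0) (c11 := l23 - l31 - 2 * l41) (c12 := l24) (c13 := -l32 + l63 - 2 * l42) (c14 := l64) (fun a => ?_)
  linear_combination D.Y a * h21 a + D.X a * hxy a - D.S a * hyy a - 2 * D.S a * h11 a

theorem rel2 {D : Dat r} {l10 l11 l12 l13 l14 l20 l21 l22 l23 l24 l30 l31 l32 l33 l34 l40 l41 l42 l43 l44 l50 l51 l52 l53 l54 l60 l61 l62 l63 l64 l70 l71 l72 l73 l74 : ℂ}
    (h : Rel D l10 l11 l12 l13 l14 l20 l21 l22 l23 l24 l30 l31 l32 l33 l34 l40 l41 l42 l43 l44 l50 l51 l52 l53 l54 l60 l61 l62 l63 l64 l70 l71 l72 l73 l74) :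
    -l23 + 2 * l41 = 0 ∧ -l24 + l71 = 0 ∧ -l13 + 2 * l42 = 0 ∧ -l14 + l72 = 0 := by
  have hK : D.inK (fun a => (1) * (D.T a * D.N22 a) + (2) * (D.S a * D.N11 a)) := by
    exact (D.inK_add (D.inK_smul (1) D.inK_s0222) (D.inK_smul (2) D.inK_s0111))
  obtain ⟨htt, hxy, hyy, h11, h12, h21, h22⟩ := h
  refine coef4 hK (c0 := 0) (c1 := -l20) (c2 := -l10) (c3 := 2 * l40) (c4 := l70)
    (c5 := -l21) (c6 := -l22 - l11) (c7 := -l12) (c8 := 2 * l43)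
    (c9 := l73 + 2 * l44) (c10 := l74) (c11 := -l23 + 2 * l41) (c12 := -l24 + l71) (c13 := -l13 + 2 * l42) (c14 := -l14 + l72) (fun a => ?_)
  linear_combination D.T a * h22 a - D.Y a * htt a - D.X a * hxy a + 2 * D.S a * h11 a

theorem rel3 {D : Dat r} {l10 l11 l12 l13 l14 l20 l21 l22 l23 l24 l30 l31 l32 l33 l34 l40 l41 l42 l43 l44 l50 l51 l52 l53 l54 l60 l61 l62 l63 l64 l70 l71 l72 l73 l74 : ℂ}
    (h : Rel D l10 l11 l12 l13 l14 l20 l21 l22 l23 l24 l30 l31 l32 l33 l34 l40 l41 l42 l43 l44 l50 l51 l52 l53 l54 l60 l61 l62 l63 l64 l70 l71 l72 l73 l74) :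
    l23 + l73 + 2 * l41 = 0 ∧ l24 - 2 * l21 + l74 = 0 ∧ l53 + 2 * l42 = 0 ∧ -(2 * l22) + l54 = 0 := by
  have hK : D.inK (fun a => (1) * (D.X a * D.N22 a + D.Y a * D.N12 a) + (2) * (D.S a * D.N11 a)) := by
    exact (D.inK_add (D.inK_smul (1) D.inK_s1202) (D.inK_smul (2) D.inK_s0111))
  obtain ⟨htt, hxy, hyy, h11, h12, h21, h22⟩ := h
  refine coef4 hK (c0 := 0) (c1 := l20 + l70) (c2 := l50) (c3 := 2 * l40) (c4 := -(2 * l20))
    (c5 := l21 + l71) (c6 := l22 + l72 + l51) (c7 := l52) (c8 := 2 * l43)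
    (c9 := -(2 * l23) + 2 * l44) (c10 := -(2 * l24)) (c11 := l23 + l73 + 2 * l41) (c12 := l24 - 2 * l21 + l74) (c13 := l53 + 2 * l42) (c14 := -(2 * l22) + l54) (fun a => ?_)
  linear_combination D.X a * h22 a + D.Y a * h12 a - 2 * D.T a * hxy a + D.X a * hxy a + 2 * D.S a * h11 a

theorem rel4 {D : Dat r} {l10 l11 l12 l13 l14 l20 l21 l22 l23 l24 l30 l31 l32 l33 l34 l40 l41 l42 l43 l44 l50 l51 l52 l53 l54 l60 l61 l62 l63 l64 l70 l71 l72 l73 l74 : ℂ}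
    (h : Rel D l10 l11 l12 l13 l14 l20 l21 l22 l23 l24 l30 l31 l32 l33 l34 l40 l41 l42 l43 l44 l50 l51 l52 l53 l54 l60 l61 l62 l63 l64 l70 l71 l72 l73 l74) :
    -(4 * l11) + 4 * l61 = 0 ∧ -l31 = 0 ∧ -(4 * l12) + l73 + 4 * l62 = 0 ∧ -l32 + l74 = 0 := by
  have hK : D.inK (fun a => (1) * (D.Y a * D.N22 a) + (4) * (D.S a * D.N21 a)) := by
    exact (D.inK_add (D.inK_smul (1) D.inK_s2202) (D.inK_smul (4) D.inK_s0211))
  obtain ⟨htt, hxy, hyy, h11, h12, h21, h22⟩ := h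
  refine coef4 hK (c0 := 0) (c1 := 0) (c2 := l70) (c3 := -(4 * l10) + 4 * l60) (c4 := -l30)
    (c5 := 0) (c6 := l71) (c7 := l72) (c8 := -(4 * l13) + 4 * l63)
    (c9 := -(4 * l14) - l33 + 4 * l64) (c10 := -l34) (c11 := -(4 * l11) + 4 * l61) (c12 := -l31) (c13 := -(4 * l12) + l73 + 4 * l62) (c14 := -l32 + l74) (fun a => ?_)
  linear_combination D.Y a * h22 a - D.T a * hyy a - 4 * D.S a * htt a + 4 * D.S a * h21 a

theorem rel5 {D : Dat r} {l10 l11 l12 l13 l14 l20 l21 l22 l23 l24 l30 l31 l32 l33 l34 l40 l41 l42 l43 l44 l50 l51 l52 l53 l54 l60 l61 l62 l63 l64 l70 l71 l72 l73 l74 : ℂ}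
    (h : Rel D l10 l11 l12 l13 l14 l20 l21 l22 l23 l24 l30 l31 l32 l33 l34 l40 l41 l42 l43 l44 l50 l51 l52 l53 l54 l60 l61 l62 l63 l64 l70 l71 l72 l73 l74) :
    -l13 + l53 = 0 ∧ -l14 + l51 + l54 = 0 ∧ (0 : ℂ) = 0 ∧ l52 = 0 := by
  have hK : D.inK (fun a => (1) * (D.X a * D.N12 a) + (1) * (D.T a * D.N12 a)) := by
    exact (D.inK_add (D.inK_smul (1) D.inK_s1102) (D.inK_smul (1) D.inK_s0122))
  obtain ⟨htt, hxy, hyy, h11, h12, h21, h22⟩ := h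
  refine coef4 hK (c0 := 0) (c1 := -l10 + l50) (c2 := 0) (c3 := 0) (c4 := l50)
    (c5 := -l11 + l51) (c6 := -l12 + l52) (c7 := 0) (c8 := 0)
    (c9 := l53) (c10 := l54) (c11 := -l13 + l53) (c12 := -l14 + l51 + l54) (c13 := 0) (c14 := l52) (fun a => ?_)
  linear_combination D.X a * h12 a + D.T a * h12 a - D.X a * htt a

theorem rel6 {D : Dat r} {l10 l11 l12 l13 l14 l20 l21 l22 l23 l24 l30 l31 l32 l33 l34 l40 l41 l42 l43 l44 l50 l51 l52 l53 l54 l60 l61 l62 l63 l64 l70 l71 l72 l73 l74 : ℂ}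
    (h : Rel D l10 l11 l12 l13 l14 l20 l21 l22 l23 l24 l30 l31 l32 l33 l34 l40 l41 l42 l43 l44 l50 l51 l52 l53 l54 l60 l61 l62 l63 l64 l70 l71 l72 l73 l74) :
    -(2 * l11) + l51 - l43 = 0 ∧ l41 - l44 = 0 ∧ -(2 * l12) + l52 = 0 ∧ l42 = 0 := by
  have hK : D.inK (fun a => (1) * (D.S a * D.N12 a + D.T a * D.N11 a) + (-1) * (D.X a * D.N11 a)) := by
    exact (D.inK_add (D.inK_smul (1) D.inK_s0112) (D.inK_smul (-1) D.inK_s1101))
  obtain ⟨htt, hxy, hyy, h11, h12, h21, h22⟩ := h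
  refine coef4 hK (c0 := 0) (c1 := -l40) (c2 := 0) (c3 := -(2 * l10) + l50) (c4 := l40)
    (c5 := -l41) (c6 := -l42) (c7 := 0) (c8 := -(2 * l13) + l53)
    (c9 := -(2 * l14) + l54 + l43) (c10 := l44) (c11 := -(2 * l11) + l51 - l43) (c12 := l41 - l44) (c13 := -(2 * l12) + l52) (c14 := l42) (fun a => ?_)
  linear_combination D.S a * h12 a + D.T a * h11 a - D.X a * h11 a - 2 * D.S a * htt a

theorem rel7 {D : Dat r} {l10 l11 l12 l13 l14 l20 l21 l22 l23 l24 l30 l31 l32 l33 l34 l40 l41 l42 l43 l44 l50 l51 l52 l53 l54 l60 l61 l62 l63 l64 l70 l71 l72 l73 l74 : ℂ}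
    (h : Rel D l10 l11 l12 l13 l14 l20 l21 l22 l23 l24 l30 l31 l32 l33 l34 l40 l41 l42 l43 l44 l50 l51 l52 l53 l54 l60 l61 l62 l63 l64 l70 l71 l72 l73 l74) :
    -(2 * l21) + l63 - l71 - l53 = 0 ∧ l64 - l61 - l54 = 0 ∧ -(2 * l22) + l43 - l72 = 0 ∧ l44 - l62 = 0 := by
  have hK : D.inK (fun a => (1) * (D.X a * D.N21 a + D.Y a * D.N11 a) + (-1) * (D.S a * D.N22 a + D.T a * D.N21 a) + (-1) * (D.X a * D.N12 a)) := by
    exact (D.inK_add (D.inK_add (D.inK_smul (1) D.inK_s1201) (D.inK_smul (-1) D.inK_s0212)) (D.inK_smul (-1) D.inK_s1102))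
  obtain ⟨htt, hxy, hyy, h11, h12, h21, h22⟩ := h
  refine coef4 hK (c0 := 0) (c1 := l60 - l50) (c2 := l40) (c3 := -(2 * l20) - l70) (c4 := -l60)
    (c5 := l61 - l51) (c6 := l62 + l41 - l52) (c7 := l42) (c8 := -(2 * l23) - l73)
    (c9 := -(2 * l24) - l74 - l63) (c10 := -l64) (c11 := -(2 * l21) + l63 - l71 - l53) (c12 := l64 - l61 - l54) (c13 := -(2 * l22) + l43 - l72) (c14 := l44 - l62) (fun a => ?_)
  linear_combination D.X a * h21 a + D.Y a * h11 a - D.S a * h22 a - D.T a * h21 a - D.X a * h12 a - 2 * D.S a * hxy a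

theorem rel8 {D : Dat r} {l10 l11 l12 l13 l14 l20 l21 l22 l23 l24 l30 l31 l32 l33 l34 l40 l41 l42 l43 l44 l50 l51 l52 l53 l54 l60 l61 l62 l63 l64 l70 l71 l72 l73 l74 : ℂ}
    (h : Rel D l10 l11 l12 l13 l14 l20 l21 l22 l23 l24 l30 l31 l32 l33 l34 l40 l41 l42 l43 l44 l50 l51 l52 l53 l54 l60 l61 l62 l63 l64 l70 l71 l72 l73 l74) :
    1 / 2 * l33 + l43 + l61 = 0 ∧ 1 / 2 * l34 + l44 = 0 ∧ -(1 / 2 * l23) + l62 = 0 ∧ -(1 / 2 * l24) = 0 := by
  have hK : D.inK (fun a => (1) * (D.X a * D.N11 a) + (1) * (D.S a * D.N21 a)) := by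
    exact (D.inK_add (D.inK_smul (1) D.inK_s1101) (D.inK_smul (1) D.inK_s0211))
  obtain ⟨htt, hxy, hyy, h11, h12, h21, h22⟩ := h
  refine coef4 hK (c0 := 0) (c1 := 1 / 2 * l30 + l40) (c2 := -(1 / 2 * l20)) (c3 := l60) (c4 := 0)
    (c5 := 1 / 2 * l31 + l41) (c6 := -(1 / 2 * l21) + 1 / 2 * l32 + l42) (c7 := -(1 / 2 * l22)) (c8 := l63)
    (c9 := l64) (c10 := 0) (c11 := 1 / 2 * l33 + l43 + l61) (c12 := 1 / 2 * l34 + l44) (c13 := -(1 / 2 * l23) + l62) (c14 := -(1 / 2 * l24)) (fun a => ?_)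
  linear_combination D.X a * h11 a + D.S a * h21 a + 1 / 2 * (D.X a * hyy a - D.Y a * hxy a)

/-- All linear coefficients vanish. -/
theorem Rel.lin_zero {D : Dat r} {l10 l11 l12 l13 l14 l20 l21 l22 l23 l24 l30 l31 l32 l33 l34 l40 l41 l42 l43 l44 l50 l51 l52 l53 l54 l60 l61 l62 l63 l64 l70 l71 l72 l73 l74 : ℂ}
    (h : Rel D l10 l11 l12 l13 l14 l20 l21 l22 l23 l24 l30 l31 l32 l33 l34 l40 l41 l42 l43 l44 l50 l51 l52 l53 l54 l60 l61 l62 l63 l64 l70 l71 l72 l73 l74)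
    (n32 : l32 = 0) (n33 : l33 = 0) (n34 : l34 = 0) (n43 : l43 = 0) :
    l11 = 0 ∧ l12 = 0 ∧ l13 = 0 ∧ l14 = 0 ∧ l21 = 0 ∧ l22 = 0 ∧ l23 = 0 ∧ l24 = 0 ∧ l31 = 0 ∧ l41 = 0 ∧ l42 = 0 ∧ l44 = 0 ∧ l51 = 0 ∧ l52 = 0 ∧ l53 = 0 ∧ l54 = 0 ∧ l61 = 0 ∧ l62 = 0 ∧ l63 = 0 ∧ l64 = 0 ∧ l71 = 0 ∧ l72 = 0 ∧ l73 = 0 ∧ l74 = 0 := by
  obtain ⟨a1, a2, a3, a4⟩ := rel1 h
  obtain ⟨b1, b2, b3, b4⟩ := rel2 h
  obtain ⟨c1, c2, c3, c4⟩ := rel3 h
  obtain ⟨d1, d2, d3, d4⟩ := rel4 h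
  obtain ⟨e1, e2, e3, e4⟩ := rel5 h
  obtain ⟨f1, f2, f3, f4⟩ := rel6 h
  obtain ⟨g1, g2, g3, g4⟩ := rel7 h
  obtain ⟨k1, k2, k3, k4⟩ := rel8 h
  have z24 : l24 = 0 := by linear_combination a2
  have z64 : l64 = 0 := by linear_combination a4
  have z71 : l71 = 0 := by linear_combination b2 + z24
  have z31 : l31 = 0 := by linear_combination -d2
  have z74 : l74 = 0 := by linear_combination d4 + n32
  have z52 : l52 = 0 := by linear_combination e4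
  have z42 : l42 = 0 := by linear_combination f4
  have z44 : l44 = 0 := by linear_combination k2 - 1 / 2 * n34
  have z41 : l41 = 0 := by linear_combination f2 + z44
  have z23 : l23 = 0 := by linear_combination a1 + z31 + 2 * z41
  have z73 : l73 = 0 := by linear_combination c1 - z23 - 2 * z41
  have z13 : l13 = 0 := by linear_combination -b3 + 2 * z42
  have z53 : l53 = 0 := by linear_combination c3 - 2 * z42
  have z21 : l21 = 0 := by linear_combination -1 / 2 * c2 + 1 / 2 * z24 + 1 / 2 * z74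
  have z63 : l63 = 0 := by linear_combination a3 + n32 + 2 * z42
  have z62 : l62 = 0 := by linear_combination k3 + 1 / 2 * z23
  have z12 : l12 = 0 := by linear_combination -1 / 4 * d3 + 1 / 4 * z73 + z62
  have z61 : l61 = 0 := by linear_combination k1 - 1 / 2 * n33 - n43
  have z11 : l11 = 0 := by linear_combination -1 / 4 * d1 + z61
  have z51 : l51 = 0 := by linear_combination f1 + 2 * z11 + n43
  have z54 : l54 = 0 := by linear_combination -g2 + z64 - z61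
  have z14 : l14 = 0 := by linear_combination -e2 + z51 + z54
  have z72 : l72 = 0 := by linear_combination b4 + z14
  have z22 : l22 = 0 := by linear_combination -1 / 2 * c4 + 1 / 2 * z54
  exact ⟨z11, z12, z13, z14, z21, z22, z23, z24, z31, z41, z42, z44, z51, z52, z53, z54,
    z61, z62, z63, z64, z71, z72, z73, z74⟩

/-- In normal form the relations hold with some affine remainders. -/
theorem exists_Rel {D : Dat r} (hN : NF D) : ∃ l10 l11 l12 l13 l14 l20 l21 l22 l23 l24 l30 l31 l32 l33 l34 l40 l41 l42 l43 l44 l50 l51 l52 l53 l54 l60 l61 l62 l63 l64 l70 l71 l72 l73 l74 : ℂ,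
    Rel D l10 l11 l12 l13 l14 l20 l21 l22 l23 l24 l30 l31 l32 l33 l34 l40 l41 l42 l43 l44 l50 l51 l52 l53 l54 l60 l61 l62 l63 l64 l70 l71 l72 l73 l74 := by
  obtain ⟨o0, o1, o2, o3, o4, ho⟩ := hN.h
  obtain ⟨p0, p1, p2, p3, p4, hp⟩ := hN.xx
  obtain ⟨q0, q1, q2, q3, q4, hq⟩ := hN.xy
  obtain ⟨s0, s1, s2, s3, s4, hs⟩ := hN.yy
  obtain ⟨t0, t1, t2, t3, t4, ht⟩ := hN.ss
  obtain ⟨u0, u1, u2, u3, u4, hu⟩ := hN.st
  obtain ⟨v0, v1, v2, v3, v4, hv⟩ := hN.tt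
  refine ⟨v0 - p0, v1 - p1, v2 - p2, v3 - p3, v4 - p4, q0 + 2 * t0, q1 + 2 * t1, q2 + 2 * t2, q3 + 2 * t3, q4 + 2 * t4, s0 - 4 * u0, s1 - 4 * u1, s2 - 4 * u2, s3 - 4 * u3, s4 - 4 * u4, 2 * u0, 2 * u1, 2 * u2, 2 * u3, 2 * u4, -p0, -p1, -p2, -p3, -p4, -p0 - o0, -p1 - o1, -p2 - o2, -p3 - o3, -p4 - o4, -4 * t0, -4 * t1, -4 * t2, -4 * t3, -4 * t4,
    ⟨fun a => ?_, fun a => ?_, fun a => ?_, fun a => ?_, fun a => ?_, fun a => ?_, fun a => ?_⟩⟩ <;>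
  (have a1 := ho a
   have a2 := hp a
   have a3 := hq a
   have a4 := hs a
   have a5 := ht a
   have a6 := hu a
   have a7 := hv a
   simp only [XX, XY, YY, SS, ST, TT, B11, B12, B21, B22] at a1 a2 a3 a4 a5 a6 a7)
  · linear_combination a7 - a2
  · linear_combination a3 + 2 * a5
  · linear_combination a4 - 4 * a6
  · linear_combination 2 * a6
  · linear_combination -a2
  · linear_combination -a2 - a1
  · linear_combination -4 * a5

end Dat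

end Pool.Agent.Helper36.WR
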