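import Pool.Agent.Helper36.WR.Ind

set_option autoImplicit false

/-!
The elements of `K` in the normal form, and a criterion.
-/

namespace Pool.Agent.Helper36.WR

namespace Dat

variable {r : ℕ} {D : Dat r}

/-- Every element of `K` is a combination of `1, X, Y, S, T, X², S², ST`. -/
theorem mem_K (hr : r ≤ 17) (hN : NF D) {f : Fin r → ℂ} (hf : D.inK f) :
    ∃ e0 e1 e2 e3 e4 e5 e6 e7 : ℂ, ∀ a, f a = e0 + e1 * D.X a + e2 * D.Y a + e3 * D.S a +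
      e4 * D.T a + e5 * D.X a ^ 2 + e6 * D.S a ^ 2 + e7 * (D.S a * D.T a) := by
  obtain ⟨x, y, z, c0, c1, c2, c3, c4, h⟩ := D.span_K hr hN.h hf
  obtain ⟨s0, s1, s2, s3, s4, hs⟩ := hN.st
  obtain ⟨t0, t1, t2, t3, t4, ht⟩ := hN.xx
  obtain ⟨u0, u1, u2, u3, u4, hu⟩ := hN.ss
  refine ⟨c0 + 2 * x * s0 - y * t0 - 4 * z * u0, c1 + 2 * x * s1 - y * t1 - 4 * z * u1,
    c2 + 2 * x * s2 - y * t2 - 4 * z * u2, c3 + 2 * x * s3 - y * t3 - 4 * z * u3,
    c4 + 2 * x * s4 - y * t4 - 4 * z * u4, y, 4 * z, -2 * x, fun a => ?_⟩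
  have e1 := h a
  have e2 := hs a
  have e3 := ht a
  have e4 := hu a
  simp only [ST, XX, SS] at e1 e2 e3 e4
  linear_combination e1 + 2 * x * e2 - y * e3 - 4 * z * e4

/-- The coefficients of `XS, XT, YS, YT` of a quadric in `K` vanish. -/
theorem coef4 {f : Fin r → ℂ} (hf : D.inK f) {c0 c1 c2 c3 c4 c5 c6 c7 c8 c9 c10 c11 c12 c13 c14 : ℂ}
    (h : ∀ a, f a = c0 + c1 * D.X a + c2 * D.Y a + c3 * D.S a + c4 * D.T a + c5 * D.X a ^ 2 +
      c6 * (D.X a * D.Y a) + c7 * D.Y a ^ 2 + c8 * D.S a ^ 2 + c9 * (D.S a * D.T a) +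
      c10 * D.T a ^ 2 + c11 * (D.X a * D.S a) + c12 * (D.X a * D.T a) + c13 * (D.Y a * D.S a) +
      c14 * (D.Y a * D.T a)) : c11 = 0 ∧ c12 = 0 ∧ c13 = 0 ∧ c14 = 0 := by
  have key : ∀ i j : Fin 3, c0 * (eps 0 0 i * eps 0 0 j) + c1 * (eps 0 1 i * eps 0 0 j) +
      c2 * (eps 0 2 i * eps 0 0 j) + c3 * (eps 0 0 i * eps 0 1 j) +
      c4 * (eps 0 0 i * eps 0 2 j) + c5 * (eps 1 1 i * eps 0 0 j) +
      c6 * (eps 1 2 i * eps 0 0 j) + c7 * (eps 2 2 i * eps 0 0 j) +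
      c8 * (eps 0 0 i * eps 1 1 j) + c9 * (eps 0 0 i * eps 1 2 j) +
      c10 * (eps 0 0 i * eps 2 2 j) + c11 * (eps 1 0 i * eps 0 1 j) +
      c12 * (eps 1 0 i * eps 0 2 j) + c13 * (eps 2 0 i * eps 0 1 j) +
      c14 * (eps 2 0 i * eps 0 2 j) = 0 := by
    intro i j
    have e : D.phi (fun a => f a * D.L a i j) =
        ∑ n, (![c0, c1, c2, c3, c4, c5, c6, c7, c8, c9, c10, c11, c12, c13, c14] : Fin 15 → ℂ) n *
        D.phi ((![fun a => D.L a i j, fun a => D.L a 1 0 * D.L a i j,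
          fun a => D.L a 2 0 * D.L a i j, fun a => D.L a 0 1 * D.L a i j,
          fun a => D.L a 0 2 * D.L a i j, fun a => D.L a 1 0 * D.L a 1 0 * D.L a i j,
          fun a => D.L a 1 0 * D.L a 2 0 * D.L a i j, fun a => D.L a 2 0 * D.L a 2 0 * D.L a i j,
          fun a => D.L a 0 1 * D.L a 0 1 * D.L a i j, fun a => D.L a 0 1 * D.L a 0 2 * D.L a i j,
          fun a => D.L a 0 2 * D.L a 0 2 * D.L a i j, fun a => D.L a 1 0 * D.L a 0 1 * D.L a i j,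
          fun a => D.L a 1 0 * D.L a 0 2 * D.L a i j, fun a => D.L a 2 0 * D.L a 0 1 * D.L a i j,
          fun a => D.L a 2 0 * D.L a 0 2 * D.L a i j] : Fin 15 → Fin r → ℂ) n) := by
      refine D.phi_lin _ _ fun a => ?_
      simp only [Fin.sum_univ_succ, Fin.sum_univ_zero, Matrix.cons_val_zero,
        Matrix.cons_val_succ, h a, X, Y, S, T]
      ring
    rw [hf i j] at e
    simp only [Fin.sum_univ_succ, Fin.sum_univ_zero, Matrix.cons_val_zero,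
      Matrix.cons_val_succ, phi3, phi1] at e
    rw [D.phi2 1 0, D.phi2 2 0, D.phi2 0 1, D.phi2 0 2] at e
    linear_combination -e
  have k1 := key 2 2
  have k2 := key 2 1
  have k3 := key 1 2
  have k4 := key 1 1
  simp only [eps] at k1 k2 k3 k4
  norm_num at k1 k2 k3 k4
  exact ⟨k1, k2, k3, k4⟩

end Dat

end Pool.Agent.Helper36.WR
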