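import Pool.Agent.Helper36.WR.G3

set_option autoImplicit false

/-!
The normal form.
-/

namespace Pool.Agent.Helper36.WR

/-- Normal form of the relations modulo affine functions. -/
structure NF {r : ℕ} (D : Dat r) : Prop where
  h : D.inA (fun a => D.B12 a - D.B21 a)
  xx : D.inA (fun a => D.XX a - D.B12 a)
  xy : D.inA (fun a => D.XY a + 1 / 2 * D.B22 a)
  yy : D.inA (fun a => D.YY a + 2 * D.B11 a)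
  ss : D.inA (fun a => D.SS a - 1 / 4 * D.B22 a)
  st : D.inA (fun a => D.ST a + 1 / 2 * D.B11 a)
  tt : D.inA (fun a => D.TT a - D.B12 a)

namespace Dat

variable {r : ℕ} (D : Dat r)

/-- Moments of products of three linear forms in `X, Y` and one in `S, T`. -/
private theorem tf_quart_aux (H : D.inA (fun a => D.B12 a - D.B21 a))
    (a₁ b₁ a₂ b₂ a₃ b₃ c d : ℂ) (F : Fin r → ℂ)
    (hF : ∀ a, F a = (a₁ * D.X a + b₁ * D.Y a) * (a₂ * D.X a + b₂ * D.Y a) *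
      (a₃ * D.X a + b₃ * D.Y a) * (c * D.S a + d * D.T a)) :
    D.phi F = a₁ * a₂ * a₃ * c * D.q 3 0 1 0 +
      (a₁ * a₂ * a₃ * d + (a₁ * a₂ * b₃ + a₁ * b₂ * a₃ + b₁ * a₂ * a₃) * c) * D.q 3 0 0 1 +
      ((a₁ * a₂ * b₃ + a₁ * b₂ * a₃ + b₁ * a₂ * a₃) * d +
        (a₁ * b₂ * b₃ + b₁ * a₂ * b₃ + b₁ * b₂ * a₃) * c) * D.q 2 1 0 1 +
      ((a₁ * b₂ * b₃ + b₁ * a₂ * b₃ + b₁ * b₂ * a₃) * d + b₁ * b₂ * b₃ * c) * D.q 1 2 0 1 +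
      b₁ * b₂ * b₃ * d * D.q 0 3 0 1 := by
  obtain ⟨e1, e2, e3⟩ := D.hankel_A H
  have h : D.phi F = ∑ i, (![a₁ * a₂ * a₃ * c, a₁ * a₂ * a₃ * d,
      (a₁ * a₂ * b₃ + a₁ * b₂ * a₃ + b₁ * a₂ * a₃) * c,
      (a₁ * a₂ * b₃ + a₁ * b₂ * a₃ + b₁ * a₂ * a₃) * d,
      (a₁ * b₂ * b₃ + b₁ * a₂ * b₃ + b₁ * b₂ * a₃) * c,
      (a₁ * b₂ * b₃ + b₁ * a₂ * b₃ + b₁ * b₂ * a₃) * d,
      b₁ * b₂ * b₃ * c, b₁ * b₂ * b₃ * d] : Fin 8 → ℂ) i *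
      D.phi ((![fun a => D.X a ^ 3 * D.Y a ^ 0 * D.S a ^ 1 * D.T a ^ 0,
        fun a => D.X a ^ 3 * D.Y a ^ 0 * D.S a ^ 0 * D.T a ^ 1,
        fun a => D.X a ^ 2 * D.Y a ^ 1 * D.S a ^ 1 * D.T a ^ 0,
        fun a => D.X a ^ 2 * D.Y a ^ 1 * D.S a ^ 0 * D.T a ^ 1,
        fun a => D.X a ^ 1 * D.Y a ^ 2 * D.S a ^ 1 * D.T a ^ 0,
        fun a => D.X a ^ 1 * D.Y a ^ 2 * D.S a ^ 0 * D.T a ^ 1,
        fun a => D.X a ^ 0 * D.Y a ^ 3 * D.S a ^ 1 * D.T a ^ 0,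
        fun a => D.X a ^ 0 * D.Y a ^ 3 * D.S a ^ 0 * D.T a ^ 1] : Fin 8 → Fin r → ℂ) i) := by
    refine D.phi_lin _ _ fun a => ?_
    simp only [Fin.sum_univ_succ, Fin.sum_univ_zero, Matrix.cons_val_zero, Matrix.cons_val_succ,
      hF a]
    ring
  rw [h]
  simp only [Fin.sum_univ_succ, Fin.sum_univ_zero, Matrix.cons_val_zero, Matrix.cons_val_succ]
  change a₁ * a₂ * a₃ * c * D.q 3 0 1 0 + (a₁ * a₂ * a₃ * d * D.q 3 0 0 1 +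
      ((a₁ * a₂ * b₃ + a₁ * b₂ * a₃ + b₁ * a₂ * a₃) * c * D.q 2 1 1 0 +
      ((a₁ * a₂ * b₃ + a₁ * b₂ * a₃ + b₁ * a₂ * a₃) * d * D.q 2 1 0 1 +
      ((a₁ * b₂ * b₃ + b₁ * a₂ * b₃ + b₁ * b₂ * a₃) * c * D.q 1 2 1 0 +
      ((a₁ * b₂ * b₃ + b₁ * a₂ * b₃ + b₁ * b₂ * a₃) * d * D.q 1 2 0 1 +
      (b₁ * b₂ * b₃ * c * D.q 0 3 1 0 + (b₁ * b₂ * b₃ * d * D.q 0 3 0 1 + 0))))))) = _
  rw [e1, e2, e3]
  ring

/-- Effect of a change of coordinates on the quartic. Proof: `D' = D.tf 0 0 0 0 g₁₁ g₁₂ g₂₁ g₂₂ (g₁₁/Δ)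
(g₁₂/Δ) (g₂₁/Δ) (g₂₂/Δ)` with `Δ = g₁₁ g₂₂ - g₁₂ g₂₁`; `B12 - B21` is multiplied by `Δ/Δ = 1`, see the end
of the proof of `exists_H`; the moments by `phi_lin` and `hankel_A`, for instance
`q' 3 0 1 0 = φ((g₁₁X+g₁₂Y)³ (g₁₁S+g₁₂T))/Δ`. -/
theorem tf_quart (H : D.inA (fun a => D.B12 a - D.B21 a)) (g₁₁ g₁₂ g₂₁ g₂₂ : ℂ)
    (hΔ : g₁₁ * g₂₂ - g₁₂ * g₂₁ ≠ 0) : ∃ D' : Dat r,
      D'.inA (fun a => D'.B12 a - D'.B21 a) ∧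
      (g₁₁ * g₂₂ - g₁₂ * g₂₁) * D'.q 3 0 1 0 = g₁₁ ^ 4 * D.q 3 0 1 0 +
        4 * g₁₁ ^ 3 * g₁₂ * D.q 3 0 0 1 + 6 * g₁₁ ^ 2 * g₁₂ ^ 2 * D.q 2 1 0 1 +
        4 * g₁₁ * g₁₂ ^ 3 * D.q 1 2 0 1 + g₁₂ ^ 4 * D.q 0 3 0 1 ∧
      (g₁₁ * g₂₂ - g₁₂ * g₂₁) * D'.q 3 0 0 1 = g₁₁ ^ 3 * g₂₁ * D.q 3 0 1 0 +
        (g₁₁ ^ 3 * g₂₂ + 3 * g₁₁ ^ 2 * g₁₂ * g₂₁) * D.q 3 0 0 1 +
        (3 * g₁₁ ^ 2 * g₁₂ * g₂₂ + 3 * g₁₁ * g₁₂ ^ 2 * g₂₁) * D.q 2 1 0 1 +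
        (3 * g₁₁ * g₁₂ ^ 2 * g₂₂ + g₁₂ ^ 3 * g₂₁) * D.q 1 2 0 1 + g₁₂ ^ 3 * g₂₂ * D.q 0 3 0 1 ∧
      (g₁₁ * g₂₂ - g₁₂ * g₂₁) * D'.q 2 1 0 1 = g₁₁ ^ 2 * g₂₁ ^ 2 * D.q 3 0 1 0 +
        (2 * g₁₁ ^ 2 * g₂₁ * g₂₂ + 2 * g₁₁ * g₁₂ * g₂₁ ^ 2) * D.q 3 0 0 1 +
        (g₁₁ ^ 2 * g₂₂ ^ 2 + 4 * g₁₁ * g₁₂ * g₂₁ * g₂₂ + g₁₂ ^ 2 * g₂₁ ^ 2) * D.q 2 1 0 1 +
        (2 * g₁₁ * g₁₂ * g₂₂ ^ 2 + 2 * g₁₂ ^ 2 * g₂₁ * g₂₂) * D.q 1 2 0 1 +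
        g₁₂ ^ 2 * g₂₂ ^ 2 * D.q 0 3 0 1 ∧
      (g₁₁ * g₂₂ - g₁₂ * g₂₁) * D'.q 0 3 0 1 = g₂₁ ^ 4 * D.q 3 0 1 0 +
        4 * g₂₁ ^ 3 * g₂₂ * D.q 3 0 0 1 + 6 * g₂₁ ^ 2 * g₂₂ ^ 2 * D.q 2 1 0 1 +
        4 * g₂₁ * g₂₂ ^ 3 * D.q 1 2 0 1 + g₂₂ ^ 4 * D.q 0 3 0 1 := by
  obtain ⟨Δ, hΔd⟩ : ∃ Δ : ℂ, Δ = g₁₁ * g₂₂ - g₁₂ * g₂₁ := ⟨_, rfl⟩
  rw [← hΔd] at hΔ ⊢
  have hd : (g₁₁ * g₂₂ - g₁₂ * g₂₁) *
      (g₁₁ / Δ * (g₂₂ / Δ) - g₁₂ / Δ * (g₂₁ / Δ)) = 1 := by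
    rw [← hΔd]
    field_simp
    rw [hΔd]
  refine ⟨D.tf 0 0 0 0 g₁₁ g₁₂ g₂₁ g₂₂ (g₁₁ / Δ) (g₁₂ / Δ) (g₂₁ / Δ) (g₂₂ / Δ) hd, ?_, ?_, ?_,
    ?_, ?_⟩
  · have h1 := D.inA_tf 0 0 0 0 g₁₁ g₁₂ g₂₁ g₂₂ (g₁₁ / Δ) (g₁₂ / Δ) (g₂₁ / Δ) (g₂₂ / Δ) hd H
    obtain ⟨c0, c1, c2, c3, c4, e⟩ := h1
    refine ⟨c0, c1, c2, c3, c4, fun a => ?_⟩
    rw [← e a]
    simp only [B12, B21, tf_X, tf_Y, tf_S, tf_T, tf_N12, tf_N21]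
    field_simp
    rw [hΔd]
    ring
  · have h1 := D.tf_quart_aux H g₁₁ g₁₂ g₁₁ g₁₂ g₁₁ g₁₂ (g₁₁ / Δ) (g₁₂ / Δ)
      (fun a => (D.tf 0 0 0 0 g₁₁ g₁₂ g₂₁ g₂₂ (g₁₁ / Δ) (g₁₂ / Δ) (g₂₁ / Δ) (g₂₂ / Δ) hd).X a ^ 3 *
        (D.tf 0 0 0 0 g₁₁ g₁₂ g₂₁ g₂₂ (g₁₁ / Δ) (g₁₂ / Δ) (g₂₁ / Δ) (g₂₂ / Δ) hd).Y a ^ 0 *
        (D.tf 0 0 0 0 g₁₁ g₁₂ g₂₁ g₂₂ (g₁₁ / Δ) (g₁₂ / Δ) (g₂₁ / Δ) (g₂₂ / Δ) hd).S a ^ 1 *
        (D.tf 0 0 0 0 g₁₁ g₁₂ g₂₁ g₂₂ (g₁₁ / Δ) (g₁₂ / Δ) (g₂₁ / Δ) (g₂₂ / Δ) hd).T a ^ 0)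
      (fun a => by
        rw [tf_X, tf_Y, tf_S, tf_T]
        ring)
    change Δ * D.phi _ = _
    rw [h1]
    field_simp
    ring
  · have h1 := D.tf_quart_aux H g₁₁ g₁₂ g₁₁ g₁₂ g₁₁ g₁₂ (g₂₁ / Δ) (g₂₂ / Δ)
      (fun a => (D.tf 0 0 0 0 g₁₁ g₁₂ g₂₁ g₂₂ (g₁₁ / Δ) (g₁₂ / Δ) (g₂₁ / Δ) (g₂₂ / Δ) hd).X a ^ 3 *
        (D.tf 0 0 0 0 g₁₁ g₁₂ g₂₁ g₂₂ (g₁₁ / Δ) (g₁₂ / Δ) (g₂₁ / Δ) (g₂₂ / Δ) hd).Y a ^ 0 *
        (D.tf 0 0 0 0 g₁₁ g₁₂ g₂₁ g₂₂ (g₁₁ / Δ) (g₁₂ / Δ) (g₂₁ / Δ) (g₂₂ / Δ) hd).S a ^ 0 *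
        (D.tf 0 0 0 0 g₁₁ g₁₂ g₂₁ g₂₂ (g₁₁ / Δ) (g₁₂ / Δ) (g₂₁ / Δ) (g₂₂ / Δ) hd).T a ^ 1)
      (fun a => by
        rw [tf_X, tf_Y, tf_S, tf_T]
        ring)
    change Δ * D.phi _ = _
    rw [h1]
    field_simp
    ring
  · have h1 := D.tf_quart_aux H g₁₁ g₁₂ g₁₁ g₁₂ g₂₁ g₂₂ (g₂₁ / Δ) (g₂₂ / Δ)
      (fun a => (D.tf 0 0 0 0 g₁₁ g₁₂ g₂₁ g₂₂ (g₁₁ / Δ) (g₁₂ / Δ) (g₂₁ / Δ) (g₂₂ / Δ) hd).X a ^ 2 *
        (D.tf 0 0 0 0 g₁₁ g₁₂ g₂₁ g₂₂ (g₁₁ / Δ) (g₁₂ / Δ) (g₂₁ / Δ) (g₂₂ / Δ) hd).Y a ^ 1 *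
        (D.tf 0 0 0 0 g₁₁ g₁₂ g₂₁ g₂₂ (g₁₁ / Δ) (g₁₂ / Δ) (g₂₁ / Δ) (g₂₂ / Δ) hd).S a ^ 0 *
        (D.tf 0 0 0 0 g₁₁ g₁₂ g₂₁ g₂₂ (g₁₁ / Δ) (g₁₂ / Δ) (g₂₁ / Δ) (g₂₂ / Δ) hd).T a ^ 1)
      (fun a => by
        rw [tf_X, tf_Y, tf_S, tf_T]
        ring)
    change Δ * D.phi _ = _
    rw [h1]
    field_simp
    ring
  · have h1 := D.tf_quart_aux H g₂₁ g₂₂ g₂₁ g₂₂ g₂₁ g₂₂ (g₂₁ / Δ) (g₂₂ / Δ)
      (fun a => (D.tf 0 0 0 0 g₁₁ g₁₂ g₂₁ g₂₂ (g₁₁ / Δ) (g₁₂ / Δ) (g₂₁ / Δ) (g₂₂ / Δ) hd).X a ^ 0 *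
        (D.tf 0 0 0 0 g₁₁ g₁₂ g₂₁ g₂₂ (g₁₁ / Δ) (g₁₂ / Δ) (g₂₁ / Δ) (g₂₂ / Δ) hd).Y a ^ 3 *
        (D.tf 0 0 0 0 g₁₁ g₁₂ g₂₁ g₂₂ (g₁₁ / Δ) (g₁₂ / Δ) (g₂₁ / Δ) (g₂₂ / Δ) hd).S a ^ 0 *
        (D.tf 0 0 0 0 g₁₁ g₁₂ g₂₁ g₂₂ (g₁₁ / Δ) (g₁₂ / Δ) (g₂₁ / Δ) (g₂₂ / Δ) hd).T a ^ 1)
      (fun a => by
        rw [tf_X, tf_Y, tf_S, tf_T]
        ring)
    change Δ * D.phi _ = _
    rw [h1]
    field_simp
    ring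

theorem nf_inA_congr {f g : Fin r → ℂ} (h : ∀ a, f a = g a) (hf : D.inA f) : D.inA g := by
  have : f = g := funext h
  rwa [← this]

/-- Pairing a relation with an element of `K`. -/
theorem nf_pair {f g : Fin r → ℂ} {x y z : ℂ}
    (h : D.inA (fun a => f a - (x * D.B11 a + y * D.B12 a + z * D.B22 a))) (hg : D.inK g) :
    D.phi (fun a => f a * g a) = x * D.phi (fun a => D.B11 a * g a) +
      y * D.phi (fun a => D.B12 a * g a) + z * D.phi (fun a => D.B22 a * g a) := by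
  have e := D.inA_perp h hg
  have e2 : D.phi (fun a => f a * g a) = D.phi (fun a =>
      (f a - (x * D.B11 a + y * D.B12 a + z * D.B22 a)) * g a) +
      (x * D.phi (fun a => D.B11 a * g a) + y * D.phi (fun a => D.B12 a * g a) +
        z * D.phi (fun a => D.B22 a * g a)) := by
    rw [← D.phi_smul, ← D.phi_smul, ← D.phi_smul, ← D.phi_add, ← D.phi_add, ← D.phi_add]
    exact D.phi_congr fun a => by ring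
  rw [e2, e, zero_add]

/-- The coefficients of an element of `K` in terms of `B11, B12, B22`. -/
theorem nf_coef (hr : r ≤ 17) (H : D.inA (fun a => D.B12 a - D.B21 a)) {f : Fin r → ℂ}
    (hf : D.inK f) {u v w : ℂ} (h1 : D.phi (fun a => f a * D.B11 a) = u)
    (h2 : D.phi (fun a => f a * D.B12 a) = v) (h3 : D.phi (fun a => f a * D.B22 a) = w) :
    D.inA (fun a => f a - (-(3 / 4) * w * D.B11 a + 3 / 2 * v * D.B12 a +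
      -(3 / 4) * u * D.B22 a)) := by
  obtain ⟨e2020, e2011, e1120, e1102, e0211, e0202, e1111, e2002, e0220, -, -⟩ := D.gram3 hr H
  obtain ⟨x, y, z, h⟩ := D.span_K hr H hf
  have p1 := D.nf_pair h D.inK_B11
  have p2 := D.nf_pair h D.inK_B12
  have p3 := D.nf_pair h D.inK_B22
  rw [h1, D.g_B11_B11, D.phi_comm D.B12 D.B11, D.g_B11_B12, D.phi_comm D.B22 D.B11, D.g_B11_B22,
    e2020, e2011, e1111] at p1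
  rw [h2, D.g_B11_B12, D.g_B12_B12, D.phi_comm D.B22 D.B12, D.g_B12_B22, e2011, e2002, e1102] at p2
  rw [h3, D.g_B11_B22, D.g_B12_B22, D.g_B22_B22, e1111, e1102, e0202] at p3
  have hx : x = -(3 / 4) * w := by rw [p3]; ring
  have hy : y = 3 / 2 * v := by rw [p2]; ring
  have hz : z = -(3 / 4) * u := by rw [p1]; ring
  rw [← hx, ← hy, ← hz]
  exact h

/-- The relations from the moments. By `span_K` each of `XX, …, TT` is `x B11 + y B12 + z B22` modulo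
affine functions; by `gram3` the pairings of `B11, B12, B22` are `φ(B11 B22) = -4/3`, `φ(B12 B12) = 2/3` and
the others are zero (`pair_H` and `g_B12_B21` for `φ(B12 B12) = q2002`), so pairing with `B11, B12, B22`
determines `x, y, z`. For `SS, ST, TT` use `φ(f B12) = φ(f XX)`, `φ(f B22) = -2 φ(f XY)`,
`φ(f B11) = -φ(f YY)/2`. -/
theorem nf_of (hr : r ≤ 17) (H : D.inA (fun a => D.B12 a - D.B21 a)) (h0 : D.q 3 0 1 0 = 0)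
    (h1 : D.q 3 0 0 1 = 2 / 3) (h2 : D.q 2 1 0 1 = 0) (h3 : D.q 1 2 0 1 = 0)
    (h4 : D.q 0 3 0 1 = 8 / 3) : NF D := by
  obtain ⟨e2020, e2011, e1120, e1102, e0211, e0202, e1111, e2002, e0220, -, -⟩ := D.gram3 hr H
  obtain ⟨a2110, a1210, -⟩ := D.hankel_A H
  have hxx : D.inA (fun a => D.XX a - D.B12 a) := by
    refine D.nf_inA_congr (fun a => ?_) (D.nf_coef hr H D.inK_XX D.g_XX_B11 D.g_XX_B12 D.g_XX_B22)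
    rw [h0, h1, h2]; ring
  have hxy : D.inA (fun a => D.XY a + 1 / 2 * D.B22 a) := by
    refine D.nf_inA_congr (fun a => ?_) (D.nf_coef hr H D.inK_XY D.g_XY_B11 D.g_XY_B12 D.g_XY_B22)
    rw [a2110, h1, h2, h3]; ring
  have hyy : D.inA (fun a => D.YY a + 2 * D.B11 a) := by
    refine D.nf_inA_congr (fun a => ?_) (D.nf_coef hr H D.inK_YY D.g_YY_B11 D.g_YY_B12 D.g_YY_B22)
    rw [a1210, h2, h3, h4]; ring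
  have k12 : ∀ f : Fin r → ℂ, D.inK f →
      D.phi (fun a => f a * D.B12 a) = D.phi (fun a => D.XX a * f a) := by
    intro f hf
    have e := D.inA_perp hxx hf
    rw [D.phi_comm f D.B12, ← sub_eq_zero, ← D.phi_sub]
    rw [← neg_eq_zero, ← e, ← neg_one_mul, ← D.phi_smul]
    exact D.phi_congr fun a => by ring
  have k22 : ∀ f : Fin r → ℂ, D.inK f →
      D.phi (fun a => f a * D.B22 a) = -2 * D.phi (fun a => D.XY a * f a) := by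
    intro f hf
    have e := D.inA_perp hxy hf
    have e' : 2 * D.phi (fun a => (D.XY a + 1 / 2 * D.B22 a) * f a) = 0 := by rw [e, mul_zero]
    rw [← sub_eq_zero, ← D.phi_smul, ← D.phi_sub, ← e', ← D.phi_smul]
    exact D.phi_congr fun a => by ring
  have k11 : ∀ f : Fin r → ℂ, D.inK f →
      D.phi (fun a => f a * D.B11 a) = -(1 / 2) * D.phi (fun a => D.YY a * f a) := by
    intro f hf
    have e := D.inA_perp hyy hf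
    have e' : (1 / 2) * D.phi (fun a => (D.YY a + 2 * D.B11 a) * f a) = 0 := by rw [e, mul_zero]
    rw [← sub_eq_zero, ← D.phi_smul, ← D.phi_sub, ← e', ← D.phi_smul]
    exact D.phi_congr fun a => by ring
  refine ⟨H, hxx, hxy, hyy, ?_, ?_, ?_⟩
  · refine D.nf_inA_congr (fun a => ?_) (D.nf_coef hr H D.inK_SS (k11 _ D.inK_SS) (k12 _ D.inK_SS)
      (k22 _ D.inK_SS))
    rw [D.g_XX_SS, D.g_XY_SS, D.g_YY_SS, e2020, e1120, e0220]; ring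
  · refine D.nf_inA_congr (fun a => ?_) (D.nf_coef hr H D.inK_ST (k11 _ D.inK_ST) (k12 _ D.inK_ST)
      (k22 _ D.inK_ST))
    rw [D.g_XX_ST, D.g_XY_ST, D.g_YY_ST, e2011, e1111, e0211]; ring
  · refine D.nf_inA_congr (fun a => ?_) (D.nf_coef hr H D.inK_TT (k11 _ D.inK_TT) (k12 _ D.inK_TT)
      (k22 _ D.inK_TT))
    rw [D.g_XX_TT, D.g_XY_TT, D.g_YY_TT, e2002, e1102, e0202]; ring

include D in
/-- Normal form. `exists_H`; a root `(g₁₁, g₁₂)` of the quartic gives `q3010 = 0` (`tf_quart`, complete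
to an invertible matrix); then `q3001 ≠ 0` by the two last statements of `gram3`; then the matrix
`[[1, 0], [s, 1]]` with `s = - q2101 / (2 q3001)` gives `q3010 = q2101 = 0`, so `q1201 = 0` and `q0301 ≠ 0`
(again `gram3`); then `[[p, 0], [0, t]]` with `p² q3001 = 2/3`, `t³ q0301 = 8 p / 3`; then `nf_of`. -/
theorem exists_NF (hr : r ≤ 17) : ∃ D' : Dat r, NF D' := by
  obtain ⟨D₁, H₁⟩ := D.exists_H hr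
  -- step 1: a root of the quartic
  obtain ⟨D₂, H₂, a₂⟩ : ∃ D₂ : Dat r, D₂.inA (fun a => D₂.B12 a - D₂.B21 a) ∧
      D₂.q 3 0 1 0 = 0 := by
    by_cases h0 : D₁.q 3 0 1 0 = 0
    · exact ⟨D₁, H₁, h0⟩
    obtain ⟨x, hx⟩ : ∃ x : ℂ, D₁.q 3 0 1 0 * x ^ 4 + 4 * D₁.q 3 0 0 1 * x ^ 3 +
        6 * D₁.q 2 1 0 1 * x ^ 2 + 4 * D₁.q 1 2 0 1 * x + D₁.q 0 3 0 1 = 0 := by
      obtain ⟨P, hP⟩ : ∃ P : Polynomial ℂ, P = Polynomial.C (D₁.q 3 0 1 0) * Polynomial.X ^ 4 +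
          (Polynomial.C (4 * D₁.q 3 0 0 1) * Polynomial.X ^ 3 +
          Polynomial.C (6 * D₁.q 2 1 0 1) * Polynomial.X ^ 2 +
          Polynomial.C (4 * D₁.q 1 2 0 1) * Polynomial.X + Polynomial.C (D₁.q 0 3 0 1)) :=
        ⟨_, rfl⟩
      have hc : P.coeff 4 = D₁.q 3 0 1 0 := by
        rw [hP, Polynomial.coeff_add, Polynomial.coeff_add, Polynomial.coeff_add,
          Polynomial.coeff_add, Polynomial.coeff_C_mul, Polynomial.coeff_C_mul,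
          Polynomial.coeff_C_mul, Polynomial.coeff_C_mul, Polynomial.coeff_X_pow,
          Polynomial.coeff_X_pow, Polynomial.coeff_X_pow, Polynomial.coeff_X,
          Polynomial.coeff_C]
        norm_num
      have hd : P.degree ≠ 0 := by
        intro h
        have h4 : P.degree < (4 : ℕ) := by
          rw [h]
          norm_num
        have := Polynomial.coeff_eq_zero_of_degree_lt h4
        exact h0 (hc ▸ this)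
      obtain ⟨x, hx⟩ := IsAlgClosed.exists_root P hd
      refine ⟨x, ?_⟩
      have e : P.eval x = 0 := hx
      rw [hP] at e
      simp only [Polynomial.eval_add, Polynomial.eval_mul, Polynomial.eval_C, Polynomial.eval_pow,
        Polynomial.eval_X] at e
      linear_combination e
    obtain ⟨D₂, H₂, e0, -, -, -⟩ := D₁.tf_quart H₁ x 1 (-1) 0 (by norm_num)
    refine ⟨D₂, H₂, ?_⟩
    linear_combination e0 + hx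
  -- the coefficient of `x³ y` is not zero
  obtain ⟨-, -, -, -, -, -, -, -, -, i₂, j₂⟩ := D₂.gram3 hr H₂
  have n₂ : D₂.q 3 0 0 1 ≠ 0 := by
    intro h
    rw [a₂, h] at i₂ j₂
    have h2 : D₂.q 2 1 0 1 = 0 := by
      have : D₂.q 2 1 0 1 ^ 2 = 0 := by linear_combination (1 / 3) * i₂
      exact pow_eq_zero_iff (by norm_num) |>.mp this
    apply j₂
    rw [h2]
    ring
  -- step 2: a shift
  obtain ⟨D₃, H₃, e0, e1, e2, -⟩ := D₂.tf_quart H₂ 1 0 (-(D₂.q 2 1 0 1 / (2 * D₂.q 3 0 0 1))) 1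
    (by norm_num)
  have a₃ : D₃.q 3 0 1 0 = 0 := by linear_combination e0 + a₂
  have b₃ : D₃.q 3 0 0 1 = D₂.q 3 0 0 1 := by
    rw [a₂] at e1
    linear_combination e1
  have c₃ : D₃.q 2 1 0 1 = 0 := by
    have e3 : 2 * (D₂.q 2 1 0 1 / (2 * D₂.q 3 0 0 1)) * D₂.q 3 0 0 1 = D₂.q 2 1 0 1 := by
      field_simp
    rw [a₂] at e2
    linear_combination e2 - e3
  obtain ⟨-, -, -, -, -, -, -, -, -, i₃, j₃⟩ := D₃.gram3 hr H₃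
  have n₃ : D₃.q 3 0 0 1 ≠ 0 := by rw [b₃]; exact n₂
  have d₃ : D₃.q 1 2 0 1 = 0 := by
    rw [a₃, c₃] at i₃
    have : D₃.q 3 0 0 1 * D₃.q 1 2 0 1 = 0 := by linear_combination (-1 / 4) * i₃
    rcases mul_eq_zero.mp this with h | h
    · exact absurd h n₃
    · exact h
  have m₃ : D₃.q 0 3 0 1 ≠ 0 := by
    intro h
    apply j₃
    rw [a₃, c₃, d₃, h]
    ring
  -- step 3: scaling
  obtain ⟨p, hp⟩ : ∃ p : ℂ, p ^ 2 = 2 / 3 / D₃.q 3 0 0 1 :=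
    IsAlgClosed.exists_pow_nat_eq _ (by norm_num)
  have hp2 : p ^ 2 * D₃.q 3 0 0 1 = 2 / 3 := by
    rw [hp]
    field_simp
  have hp0 : p ≠ 0 := by
    intro h
    rw [h] at hp2
    norm_num at hp2
  obtain ⟨t, ht⟩ : ∃ t : ℂ, t ^ 3 = 8 * p / 3 / D₃.q 0 3 0 1 :=
    IsAlgClosed.exists_pow_nat_eq _ (by norm_num)
  have ht3 : t ^ 3 * D₃.q 0 3 0 1 = 8 * p / 3 := by
    rw [ht]
    field_simp
  have ht0 : t ≠ 0 := by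
    intro h
    rw [h] at ht3
    have : p = 0 := by linear_combination (-3 / 8) * ht3
    exact hp0 this
  have hpt : p * t ≠ 0 := mul_ne_zero hp0 ht0
  obtain ⟨D₄, H₄, f0, f1, f2, f4⟩ := D₃.tf_quart H₃ p 0 0 t (by
    rw [zero_mul, sub_zero]
    exact hpt)
  have a₄ : D₄.q 3 0 1 0 = 0 := by
    refine mul_left_cancel₀ hpt ?_
    rw [a₃] at f0
    linear_combination f0
  have b₄ : D₄.q 3 0 0 1 = 2 / 3 := by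
    refine mul_left_cancel₀ hpt ?_
    linear_combination f1 + p * t * hp2
  have c₄ : D₄.q 2 1 0 1 = 0 := by
    refine mul_left_cancel₀ hpt ?_
    rw [c₃] at f2
    linear_combination f2
  have m₄ : D₄.q 0 3 0 1 = 8 / 3 := by
    refine mul_left_cancel₀ hpt ?_
    linear_combination f4 + t * ht3
  obtain ⟨-, -, -, -, -, -, -, -, -, i₄, -⟩ := D₄.gram3 hr H₄
  have d₄ : D₄.q 1 2 0 1 = 0 := by
    rw [a₄, b₄, c₄] at i₄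
    linear_combination (-3 / 8) * i₄
  exact ⟨D₄, D₄.nf_of hr H₄ a₄ b₄ c₄ d₄ m₄⟩

end Dat

end Pool.Agent.Helper36.WR
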