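import Pool.Agent.Helper36.WR.Nm

set_option autoImplicit false

/-!
All moments of degree four in the normal form.
-/

namespace Pool.Agent.Helper36.WR

namespace Dat

variable {r : ℕ} {D : Dat r} (hN : NF D)

include hN

theorem nf_XX {g : Fin r → ℂ} (hg : D.inK g) : D.phi (fun a => D.XX a * g a) =
    D.phi (fun a => D.B12 a * g a) := by
  have := D.inA_perp hN.xx hg
  have e : D.phi (fun a => (D.XX a - D.B12 a) * g a) = D.phi (fun a => D.XX a * g a) -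
      D.phi (fun a => D.B12 a * g a) := by
    rw [← D.phi_sub]; exact D.phi_congr fun a => by ring
  rw [e] at this; linear_combination this

theorem nf_XY {g : Fin r → ℂ} (hg : D.inK g) : D.phi (fun a => D.XY a * g a) =
    (-(1 / 2)) * D.phi (fun a => D.B22 a * g a) := by
  have := D.inA_perp hN.xy hg
  have e : D.phi (fun a => (D.XY a + 1 / 2 * D.B22 a) * g a) = D.phi (fun a => D.XY a * g a) +
      1 / 2 * D.phi (fun a => D.B22 a * g a) := by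
    rw [← D.phi_smul, ← D.phi_add]; exact D.phi_congr fun a => by ring
  rw [e] at this; linear_combination this

theorem nf_YY {g : Fin r → ℂ} (hg : D.inK g) : D.phi (fun a => D.YY a * g a) =
    (-2) * D.phi (fun a => D.B11 a * g a) := by
  have := D.inA_perp hN.yy hg
  have e : D.phi (fun a => (D.YY a + 2 * D.B11 a) * g a) = D.phi (fun a => D.YY a * g a) +
      2 * D.phi (fun a => D.B11 a * g a) := by
    rw [← D.phi_smul, ← D.phi_add]; exact D.phi_congr fun a => by ring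
  rw [e] at this; linear_combination this

theorem nf_SS {g : Fin r → ℂ} (hg : D.inK g) : D.phi (fun a => D.SS a * g a) =
    1 / 4 * D.phi (fun a => D.B22 a * g a) := by
  have := D.inA_perp hN.ss hg
  have e : D.phi (fun a => (D.SS a - 1 / 4 * D.B22 a) * g a) = D.phi (fun a => D.SS a * g a) -
      1 / 4 * D.phi (fun a => D.B22 a * g a) := by
    rw [← D.phi_smul, ← D.phi_sub]; exact D.phi_congr fun a => by ring
  rw [e] at this; linear_combination this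

theorem nf_ST {g : Fin r → ℂ} (hg : D.inK g) : D.phi (fun a => D.ST a * g a) =
    (-(1 / 2)) * D.phi (fun a => D.B11 a * g a) := by
  have := D.inA_perp hN.st hg
  have e : D.phi (fun a => (D.ST a + 1 / 2 * D.B11 a) * g a) = D.phi (fun a => D.ST a * g a) +
      1 / 2 * D.phi (fun a => D.B11 a * g a) := by
    rw [← D.phi_smul, ← D.phi_add]; exact D.phi_congr fun a => by ring
  rw [e] at this; linear_combination this

theorem nf_TT {g : Fin r → ℂ} (hg : D.inK g) : D.phi (fun a => D.TT a * g a) =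
    D.phi (fun a => D.B12 a * g a) := by
  have := D.inA_perp hN.tt hg
  have e : D.phi (fun a => (D.TT a - D.B12 a) * g a) = D.phi (fun a => D.TT a * g a) -
      D.phi (fun a => D.B12 a * g a) := by
    rw [← D.phi_sub]; exact D.phi_congr fun a => by ring
  rw [e] at this; linear_combination this

theorem nf_B21 {g : Fin r → ℂ} (hg : D.inK g) : D.phi (fun a => D.B21 a * g a) =
    D.phi (fun a => D.B12 a * g a) := by
  have := D.inA_perp hN.h hg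
  have e : D.phi (fun a => (D.B12 a - D.B21 a) * g a) = D.phi (fun a => D.B12 a * g a) -
      D.phi (fun a => D.B21 a * g a) := by
    rw [← D.phi_sub]; exact D.phi_congr fun a => by ring
  rw [e] at this; linear_combination -this

theorem G_B11_B12 : D.phi (fun a => D.B11 a * D.B12 a) = 0 := by
  have h := D.g_XX_ST
  rw [nf_XX hN D.inK_ST, D.phi_comm D.B12 D.ST, nf_ST hN D.inK_B12] at h
  have h2 := D.g_B11_B12
  linear_combination (2 / 3) * h2 - (2 / 3) * h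

theorem G_B12_B22 : D.phi (fun a => D.B12 a * D.B22 a) = 0 := by
  have h := D.g_XY_TT
  rw [nf_XY hN D.inK_TT, D.phi_comm D.B22 D.TT, nf_TT hN D.inK_B22] at h
  have h2 := D.g_B12_B22
  linear_combination (2 / 3) * h2 - (2 / 3) * h

theorem G_B11_B11 : D.phi (fun a => D.B11 a * D.B11 a) = 0 := by
  have h := D.g_XX_SS
  rw [nf_XX hN D.inK_SS, D.phi_comm D.B12 D.SS, nf_SS hN D.inK_B12, D.phi_comm D.B22 D.B12,
    G_B12_B22 hN] at h
  rw [D.g_B11_B11, ← h]; ring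

theorem G_B22_B22 : D.phi (fun a => D.B22 a * D.B22 a) = 0 := by
  have h := D.g_YY_TT
  rw [nf_YY hN D.inK_TT, D.phi_comm D.B11 D.TT, nf_TT hN D.inK_B11, D.phi_comm D.B12 D.B11,
    G_B11_B12 hN] at h
  rw [D.g_B22_B22, ← h]; ring

theorem q1111 : D.q 1 1 1 1 = -(1 / 3) := by
  have h := D.g_XY_ST
  rw [nf_XY hN D.inK_ST, D.phi_comm D.B22 D.ST, nf_ST hN D.inK_B22, D.g_B11_B22] at h
  linear_combination -(4 / 3) * h

theorem G_B11_B22 : D.phi (fun a => D.B11 a * D.B22 a) = -(4 / 3) := by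
  rw [D.g_B11_B22, q1111 hN]; norm_num

theorem G_B12_B12 : D.phi (fun a => D.B12 a * D.B12 a) = 2 / 3 := by
  rw [← nf_B21 hN D.inK_B12, D.phi_comm D.B21 D.B12, D.g_B12_B21, q1111 hN]; norm_num

theorem q4000 : D.q 4 0 0 0 = 2 / 3 := by
  rw [← D.g_XX_XX, nf_XX hN D.inK_XX, D.phi_comm D.B12 D.XX, nf_XX hN D.inK_B12, G_B12_B12 hN]
  try norm_num

theorem q3100 : D.q 3 1 0 0 = 0 := by
  rw [← D.g_XX_XY, nf_XX hN D.inK_XY, D.phi_comm D.B12 D.XY, nf_XY hN D.inK_B12, D.phi_comm D.B22 D.B12, G_B12_B22 hN]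
  try norm_num

theorem q2200 : D.q 2 2 0 0 = 0 := by
  rw [← D.g_XX_YY, nf_XX hN D.inK_YY, D.phi_comm D.B12 D.YY, nf_YY hN D.inK_B12, G_B11_B12 hN]
  try norm_num

theorem q2020 : D.q 2 0 2 0 = 0 := by
  rw [← D.g_XX_SS, nf_XX hN D.inK_SS, D.phi_comm D.B12 D.SS, nf_SS hN D.inK_B12, D.phi_comm D.B22 D.B12, G_B12_B22 hN]
  try norm_num

theorem q2011 : D.q 2 0 1 1 = 0 := by
  rw [← D.g_XX_ST, nf_XX hN D.inK_ST, D.phi_comm D.B12 D.ST, nf_ST hN D.inK_B12, G_B11_B12 hN]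
  try norm_num

theorem q2002 : D.q 2 0 0 2 = 2 / 3 := by
  rw [← D.g_XX_TT, nf_XX hN D.inK_TT, D.phi_comm D.B12 D.TT, nf_TT hN D.inK_B12, G_B12_B12 hN]
  try norm_num

theorem q3010 : D.q 3 0 1 0 = 0 := by
  rw [← D.g_XX_B11, nf_XX hN D.inK_B11, D.phi_comm D.B12 D.B11, G_B11_B12 hN]
  try norm_num

theorem q3001 : D.q 3 0 0 1 = 2 / 3 := by
  rw [← D.g_XX_B12, nf_XX hN D.inK_B12, G_B12_B12 hN]
  try norm_num

theorem q2110 : D.q 2 1 1 0 = 2 / 3 := by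
  rw [← D.g_XX_B21, nf_XX hN D.inK_B21, D.phi_comm D.B12 D.B21, nf_B21 hN D.inK_B12, G_B12_B12 hN]
  try norm_num

theorem q2101 : D.q 2 1 0 1 = 0 := by
  rw [← D.g_XX_B22, nf_XX hN D.inK_B22, G_B12_B22 hN]
  try norm_num

theorem q1300 : D.q 1 3 0 0 = -(4 / 3) := by
  rw [← D.g_XY_YY, nf_XY hN D.inK_YY, D.phi_comm D.B22 D.YY, nf_YY hN D.inK_B22, G_B11_B22 hN]
  try norm_num

theorem q1120 : D.q 1 1 2 0 = 0 := by
  rw [← D.g_XY_SS, nf_XY hN D.inK_SS, D.phi_comm D.B22 D.SS, nf_SS hN D.inK_B22, G_B22_B22 hN]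
  try norm_num

theorem q1102 : D.q 1 1 0 2 = 0 := by
  rw [← D.g_XY_TT, nf_XY hN D.inK_TT, D.phi_comm D.B22 D.TT, nf_TT hN D.inK_B22, G_B12_B22 hN]
  try norm_num

theorem q1210 : D.q 1 2 1 0 = 0 := by
  rw [← D.g_XY_B21, nf_XY hN D.inK_B21, D.phi_comm D.B22 D.B21, nf_B21 hN D.inK_B22, G_B12_B22 hN]
  try norm_num

theorem q1201 : D.q 1 2 0 1 = 0 := by
  rw [← D.g_XY_B22, nf_XY hN D.inK_B22, G_B22_B22 hN]
  try norm_num

theorem q0400 : D.q 0 4 0 0 = 0 := by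
  rw [← D.g_YY_YY, nf_YY hN D.inK_YY, D.phi_comm D.B11 D.YY, nf_YY hN D.inK_B11, G_B11_B11 hN]
  try norm_num

theorem q0220 : D.q 0 2 2 0 = 2 / 3 := by
  rw [← D.g_YY_SS, nf_YY hN D.inK_SS, D.phi_comm D.B11 D.SS, nf_SS hN D.inK_B11, D.phi_comm D.B22 D.B11, G_B11_B22 hN]
  try norm_num

theorem q0211 : D.q 0 2 1 1 = 0 := by
  rw [← D.g_YY_ST, nf_YY hN D.inK_ST, D.phi_comm D.B11 D.ST, nf_ST hN D.inK_B11, G_B11_B11 hN]
  try norm_num

theorem q0202 : D.q 0 2 0 2 = 0 := by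
  rw [← D.g_YY_TT, nf_YY hN D.inK_TT, D.phi_comm D.B11 D.TT, nf_TT hN D.inK_B11, D.phi_comm D.B12 D.B11, G_B11_B12 hN]
  try norm_num

theorem q0310 : D.q 0 3 1 0 = 0 := by
  rw [← D.g_YY_B21, nf_YY hN D.inK_B21, D.phi_comm D.B11 D.B21, nf_B21 hN D.inK_B11, D.phi_comm D.B12 D.B11, G_B11_B12 hN]
  try norm_num

theorem q0301 : D.q 0 3 0 1 = 8 / 3 := by
  rw [← D.g_YY_B22, nf_YY hN D.inK_B22, G_B11_B22 hN]
  try norm_num

theorem q0040 : D.q 0 0 4 0 = 0 := by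
  rw [← D.g_SS_SS, nf_SS hN D.inK_SS, D.phi_comm D.B22 D.SS, nf_SS hN D.inK_B22, G_B22_B22 hN]
  try norm_num

theorem q0031 : D.q 0 0 3 1 = 1 / 6 := by
  rw [← D.g_SS_ST, nf_SS hN D.inK_ST, D.phi_comm D.B22 D.ST, nf_ST hN D.inK_B22, G_B11_B22 hN]
  try norm_num

theorem q0022 : D.q 0 0 2 2 = 0 := by
  rw [← D.g_SS_TT, nf_SS hN D.inK_TT, D.phi_comm D.B22 D.TT, nf_TT hN D.inK_B22, G_B12_B22 hN]
  try norm_num

theorem q1030 : D.q 1 0 3 0 = -(1 / 3) := by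
  rw [← D.g_SS_B11, nf_SS hN D.inK_B11, D.phi_comm D.B22 D.B11, G_B11_B22 hN]
  try norm_num

theorem q1021 : D.q 1 0 2 1 = 0 := by
  rw [← D.g_SS_B12, nf_SS hN D.inK_B12, D.phi_comm D.B22 D.B12, G_B12_B22 hN]
  try norm_num

theorem q0130 : D.q 0 1 3 0 = 0 := by
  rw [← D.g_SS_B21, nf_SS hN D.inK_B21, D.phi_comm D.B22 D.B21, nf_B21 hN D.inK_B22, G_B12_B22 hN]
  try norm_num

theorem q0121 : D.q 0 1 2 1 = 0 := by
  rw [← D.g_SS_B22, nf_SS hN D.inK_B22, G_B22_B22 hN]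
  try norm_num

theorem q0013 : D.q 0 0 1 3 = 0 := by
  rw [← D.g_ST_TT, nf_ST hN D.inK_TT, D.phi_comm D.B11 D.TT, nf_TT hN D.inK_B11, D.phi_comm D.B12 D.B11, G_B11_B12 hN]
  try norm_num

theorem q1012 : D.q 1 0 1 2 = 0 := by
  rw [← D.g_ST_B12, nf_ST hN D.inK_B12, G_B11_B12 hN]
  try norm_num

theorem q0112 : D.q 0 1 1 2 = 2 / 3 := by
  rw [← D.g_ST_B22, nf_ST hN D.inK_B22, G_B11_B22 hN]
  try norm_num

theorem q0004 : D.q 0 0 0 4 = 2 / 3 := by
  rw [← D.g_TT_TT, nf_TT hN D.inK_TT, D.phi_comm D.B12 D.TT, nf_TT hN D.inK_B12, G_B12_B12 hN]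
  try norm_num

theorem q1003 : D.q 1 0 0 3 = 2 / 3 := by
  rw [← D.g_TT_B12, nf_TT hN D.inK_B12, G_B12_B12 hN]
  try norm_num

theorem q0103 : D.q 0 1 0 3 = 0 := by
  rw [← D.g_TT_B22, nf_TT hN D.inK_B22, G_B12_B22 hN]
  try norm_num

end Dat

end Pool.Agent.Helper36.WR
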