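import Pool.Agent.Helper36.WR.Act

set_option autoImplicit false

/-!
From a sum of cubes to normalised data.
-/

namespace Pool.Agent.Helper36.WR

open Finset

/-- The determinant over the integers. -/
private def polar_d (x : Fin 3 → Fin 3 → ℤ) : ℤ :=
  x 0 0 * x 1 1 * x 2 2 - x 0 0 * x 1 2 * x 2 1 - x 0 1 * x 1 0 * x 2 2 + x 0 1 * x 1 2 * x 2 0 +
    x 0 2 * x 1 0 * x 2 1 - x 0 2 * x 1 1 * x 2 0

/-- The matrix units over the integers. -/
private def polar_u (i j a b : Fin 3) : ℤ := if a = i then (if b = j then 1 else 0) else 0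

private theorem polar_det (f : Fin 3 → Fin 3 → ℤ) :
    Matrix.det (Matrix.of fun a b => ((f a b : ℤ) : ℂ)) = ((polar_d f : ℤ) : ℂ) := by
  rw [Matrix.det_fin_three, polar_d]
  simp only [Matrix.of_apply]
  push_cast
  ring

/-- The finite check of the polarised determinant on matrix units. -/
private theorem polar_fin : ∀ i j i' j' i'' j'' : Fin 3,
    4 * (polar_d (fun a b => 1 * polar_u i j a b + 1 * polar_u i' j' a b + 1 * polar_u i'' j'' a b) -
      polar_d (fun a b => 1 * polar_u i j a b + 1 * polar_u i' j' a b + 0 * polar_u i'' j'' a b) -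
      polar_d (fun a b => 1 * polar_u i j a b + 0 * polar_u i' j' a b + 1 * polar_u i'' j'' a b) -
      polar_d (fun a b => 0 * polar_u i j a b + 1 * polar_u i' j' a b + 1 * polar_u i'' j'' a b) +
      polar_d (fun a b => 1 * polar_u i j a b + 0 * polar_u i' j' a b + 0 * polar_u i'' j'' a b) +
      polar_d (fun a b => 0 * polar_u i j a b + 1 * polar_u i' j' a b + 0 * polar_u i'' j'' a b) +
      polar_d (fun a b => 0 * polar_u i j a b + 0 * polar_u i' j' a b + 1 * polar_u i'' j'' a b)) =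
    ((((i' : ℕ) : ℤ) - ((i : ℕ) : ℤ)) * (((i'' : ℕ) : ℤ) - ((i : ℕ) : ℤ)) *
      (((i'' : ℕ) : ℤ) - ((i' : ℕ) : ℤ))) *
    ((((j' : ℕ) : ℤ) - ((j : ℕ) : ℤ)) * (((j'' : ℕ) : ℤ) - ((j : ℕ) : ℤ)) *
      (((j'' : ℕ) : ℤ) - ((j' : ℕ) : ℤ))) := by
  decide +kernel

/-- Polarisation. Apply `h` to the seven sums of the matrix units `E_ij`, `E_i'j'`, `E_i''j''` with signs
(`x+y+z`, `-(x+y)`, `-(x+z)`, `-(y+z)`, `x`, `y`, `z`): the right side gives `6 ∑ l l l`, the left side is
`eps * eps` (finite check of 729 cases for the explicit polynomial `Matrix.det_fin_three`; do it over `ℤ`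
with `decide +kernel` and cast, or by multilinearity). -/
theorem polar {r : ℕ} {l : Fin r → Matrix (Fin 3) (Fin 3) ℂ}
    (h : ∀ x : Matrix (Fin 3) (Fin 3) ℂ, x.det = ∑ t, (∑ i, ∑ j, l t i j * x i j) ^ 3)
    (i j i' j' i'' j'' : Fin 3) :
    6 * ∑ t, l t i j * l t i' j' * l t i'' j'' = eps i i' i'' * eps j j' j'' := by
  have hu : ∀ (t : Fin r) (i j : Fin 3), ∑ a, ∑ b, l t a b * ((polar_u i j a b : ℤ) : ℂ) =
      l t i j := by
    intro t i j
    have h1 : ∀ a b : Fin 3, l t a b * ((polar_u i j a b : ℤ) : ℂ) =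
        if a = i then (if b = j then l t a b else 0) else 0 := by
      intro a b
      unfold polar_u
      split_ifs <;> simp
    simp only [h1, Finset.sum_ite_irrel, Finset.sum_ite_eq', Finset.mem_univ, if_true,
      Finset.sum_const_zero]
  have key : ∀ e₁ e₂ e₃ : ℤ, ((polar_d (fun a b => e₁ * polar_u i j a b + e₂ * polar_u i' j' a b +
      e₃ * polar_u i'' j'' a b) : ℤ) : ℂ) =
        ∑ t, (e₁ * l t i j + e₂ * l t i' j' + e₃ * l t i'' j'') ^ 3 := by
    intro e₁ e₂ e₃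
    rw [← polar_det, h]
    refine Finset.sum_congr rfl fun t _ => ?_
    congr 1
    rw [← hu t i j, ← hu t i' j', ← hu t i'' j'']
    simp only [Finset.mul_sum, ← Finset.sum_add_distrib]
    refine Finset.sum_congr rfl fun a _ => Finset.sum_congr rfl fun b _ => ?_
    rw [Matrix.of_apply]
    push_cast
    ring
  have hf := congrArg (fun z : ℤ => (z : ℂ)) (polar_fin i j i' j' i'' j'')
  simp only [Int.cast_mul, Int.cast_sub, Int.cast_add, key] at hf
  have hs : 6 * ∑ t, l t i j * l t i' j' * l t i'' j'' =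
      ∑ t, ((1 : ℤ) * l t i j + (1 : ℤ) * l t i' j' + (1 : ℤ) * l t i'' j'') ^ 3 -
        ∑ t, ((1 : ℤ) * l t i j + (1 : ℤ) * l t i' j' + (0 : ℤ) * l t i'' j'') ^ 3 -
        ∑ t, ((1 : ℤ) * l t i j + (0 : ℤ) * l t i' j' + (1 : ℤ) * l t i'' j'') ^ 3 -
        ∑ t, ((0 : ℤ) * l t i j + (1 : ℤ) * l t i' j' + (1 : ℤ) * l t i'' j'') ^ 3 +
        ∑ t, ((1 : ℤ) * l t i j + (0 : ℤ) * l t i' j' + (0 : ℤ) * l t i'' j'') ^ 3 +
        ∑ t, ((0 : ℤ) * l t i j + (1 : ℤ) * l t i' j' + (0 : ℤ) * l t i'' j'') ^ 3 +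
        ∑ t, ((0 : ℤ) * l t i j + (0 : ℤ) * l t i' j' + (1 : ℤ) * l t i'' j'') ^ 3 := by
    simp only [Finset.mul_sum, ← Finset.sum_add_distrib, ← Finset.sum_sub_distrib]
    refine Finset.sum_congr rfl fun t _ => ?_
    push_cast
    ring
  rw [hs]
  unfold eps
  simp only [Int.cast_natCast, Int.cast_ofNat] at hf
  linear_combination hf / 4

/-- Generic vectors: finitely many nonzero matrices, `u`, `v` with `uᵀ l_t v ≠ 0` and nonzero first
entries (`MvPolynomial.funext` for the product of the nonzero polynomials). -/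
theorem exists_uv {r : ℕ} {l : Fin r → Matrix (Fin 3) (Fin 3) ℂ} (h : ∀ t, l t ≠ 0) :
    ∃ u v : Fin 3 → ℂ, u 0 ≠ 0 ∧ v 0 ≠ 0 ∧ ∀ t, ∑ i, ∑ j, u i * l t i j * v j ≠ 0 := by
  classical
  let Q : Fin r → MvPolynomial (Fin 3 ⊕ Fin 3) ℂ := fun t =>
    ∑ i, ∑ j, MvPolynomial.C (l t i j) *
      (MvPolynomial.X (Sum.inl i) * MvPolynomial.X (Sum.inr j))
  have hev : ∀ t (w : Fin 3 ⊕ Fin 3 → ℂ), MvPolynomial.eval w (Q t) =
      ∑ i, ∑ j, w (Sum.inl i) * l t i j * w (Sum.inr j) := by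
    intro t w
    simp only [Q, map_sum, map_mul, MvPolynomial.eval_C, MvPolynomial.eval_X]
    exact Finset.sum_congr rfl fun i _ => Finset.sum_congr rfl fun j _ => by ring
  have hQ : ∀ t, Q t ≠ 0 := by
    intro t h0
    obtain ⟨i, j, hij⟩ : ∃ i j, l t i j ≠ 0 := by
      by_contra hcon
      push Not at hcon
      exact h t (Matrix.ext hcon)
    have h1 := hev t (Sum.elim (Pi.single i 1) (Pi.single j 1))
    rw [h0, map_zero] at h1
    simp only [Sum.elim_inl, Sum.elim_inr] at h1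
    rw [Finset.sum_eq_single i (fun b _ hb => Finset.sum_eq_zero fun c _ => by
        rw [Pi.single_eq_of_ne hb, zero_mul, zero_mul])
        (fun hh => absurd (Finset.mem_univ i) hh),
      Finset.sum_eq_single j (fun c _ hc => by rw [Pi.single_eq_of_ne hc, mul_zero])
        (fun hh => absurd (Finset.mem_univ j) hh), Pi.single_eq_same, Pi.single_eq_same, one_mul,
      mul_one] at h1
    exact hij h1.symm
  have hP : MvPolynomial.X (Sum.inl 0) * MvPolynomial.X (Sum.inr 0) * ∏ t, Q t ≠ 0 :=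
    mul_ne_zero (mul_ne_zero (MvPolynomial.X_ne_zero _) (MvPolynomial.X_ne_zero _))
      (Finset.prod_ne_zero_iff.2 fun t _ => hQ t)
  obtain ⟨w, hw⟩ : ∃ w : Fin 3 ⊕ Fin 3 → ℂ, MvPolynomial.eval w
      (MvPolynomial.X (Sum.inl 0) * MvPolynomial.X (Sum.inr 0) * ∏ t, Q t) ≠ 0 := by
    by_contra hcon
    push Not at hcon
    exact hP (MvPolynomial.funext fun w => by rw [hcon w, map_zero])
  rw [map_mul, map_mul, MvPolynomial.eval_X, MvPolynomial.eval_X, map_prod] at hw
  refine ⟨fun i => w (Sum.inl i), fun j => w (Sum.inr j), ?_, ?_, fun t => ?_⟩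
  · exact left_ne_zero_of_mul (left_ne_zero_of_mul hw)
  · exact right_ne_zero_of_mul (left_ne_zero_of_mul hw)
  · rw [← hev]
    exact Finset.prod_ne_zero_iff.1 (right_ne_zero_of_mul hw) t (Finset.mem_univ t)

/-- Normalised data from nonzero forms: `s_t = uᵀ l_t v`, `L_t = (g l_t k) / s_t` with `g` the matrix with
rows `u, e₁, e₂` and `k` the one with columns `v, e₁, e₂`, `W_t = 6 s_t³ / (u₀ v₀)`; third moments with
`eps_det` as in `Dat.act`. -/
theorem dat_of {r : ℕ} {l : Fin r → Matrix (Fin 3) (Fin 3) ℂ} (h : ∀ t, l t ≠ 0)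
    (hp : ∀ i j i' j' i'' j'' : Fin 3,
      6 * ∑ t, l t i j * l t i' j' * l t i'' j'' = eps i i' i'' * eps j j' j'') :
    Nonempty (Dat r) := by
  obtain ⟨u, v, hu, hv, hs⟩ := exists_uv h
  obtain ⟨g, hg⟩ : ∃ g : Matrix (Fin 3) (Fin 3) ℂ, g = !![u 0, u 1, u 2; 0, 1, 0; 0, 0, 1] :=
    ⟨_, rfl⟩
  obtain ⟨k, hk⟩ : ∃ k : Matrix (Fin 3) (Fin 3) ℂ, k = !![v 0, 0, 0; v 1, 1, 0; v 2, 0, 1] :=
    ⟨_, rfl⟩
  have hgd : g.det = u 0 := by
    rw [hg, Matrix.det_fin_three]; simp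
  have hkd : k.det = v 0 := by
    rw [hk, Matrix.det_fin_three]; simp
  have h00 : ∀ t, (g * l t * k) 0 0 = ∑ i, ∑ j, u i * l t i j * v j := by
    intro t
    simp only [Matrix.mul_apply, Fin.sum_univ_three, hg, hk]
    simp
    ring
  obtain ⟨M, hM⟩ : ∃ M : Fin r → Matrix (Fin 3) (Fin 3) ℂ, ∀ t, M t = g * l t * k :=
    ⟨fun t => g * l t * k, fun _ => rfl⟩
  have hM0 : ∀ t, M t 0 0 ≠ 0 := fun t => by rw [hM, h00]; exact hs t
  have key : ∀ i j i' j' i'' j'' : Fin 3, 6 * ∑ t, M t i j * M t i' j' * M t i'' j'' =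
      (u 0 * v 0) * (eps i i' i'' * eps j j' j'') := by
    intro i j i' j' i'' j''
    have e : ∀ t, M t i j * M t i' j' * M t i'' j'' =
        ∑ a, ∑ a', ∑ a'', ∑ b, ∑ b', ∑ b'', (g i a * g i' a' * g i'' a'') *
          (k b j * k b' j' * k b'' j'') * (l t a b * l t a' b' * l t a'' b'') := by
      intro t
      rw [hM]
      simp only [Matrix.mul_apply, Fin.sum_univ_three]
      ring
    rw [Finset.sum_congr rfl fun t _ => e t]
    have e2 : 6 * ∑ t, ∑ a, ∑ a', ∑ a'', ∑ b, ∑ b', ∑ b'', (g i a * g i' a' * g i'' a'') *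
          (k b j * k b' j' * k b'' j'') * (l t a b * l t a' b' * l t a'' b'') =
        ∑ a, ∑ a', ∑ a'', ∑ b, ∑ b', ∑ b'', (g i a * g i' a' * g i'' a'') *
          (k b j * k b' j' * k b'' j'') * (eps a a' a'' * eps b b' b'') := by
      rw [Finset.sum_comm, Finset.mul_sum]; refine Finset.sum_congr rfl fun a _ => ?_
      rw [Finset.sum_comm, Finset.mul_sum]; refine Finset.sum_congr rfl fun a' _ => ?_
      rw [Finset.sum_comm, Finset.mul_sum]; refine Finset.sum_congr rfl fun a'' _ => ?_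
      rw [Finset.sum_comm, Finset.mul_sum]; refine Finset.sum_congr rfl fun b _ => ?_
      rw [Finset.sum_comm, Finset.mul_sum]; refine Finset.sum_congr rfl fun b' _ => ?_
      rw [Finset.sum_comm, Finset.mul_sum]; refine Finset.sum_congr rfl fun b'' _ => ?_
      rw [← Finset.mul_sum, ← hp]
      ring
    rw [e2]
    have e3 : ∑ a, ∑ a', ∑ a'', ∑ b, ∑ b', ∑ b'', (g i a * g i' a' * g i'' a'') *
          (k b j * k b' j' * k b'' j'') * (eps a a' a'' * eps b b' b'') =
        (∑ a, ∑ a', ∑ a'', g i a * g i' a' * g i'' a'' * eps a a' a'') *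
          (∑ b, ∑ b', ∑ b'', k.transpose j b * k.transpose j' b' * k.transpose j'' b'' *
            eps b b' b'') := by
      simp only [Finset.sum_mul]
      refine Finset.sum_congr rfl fun a _ => Finset.sum_congr rfl fun a' _ =>
        Finset.sum_congr rfl fun a'' _ => ?_
      simp only [Finset.mul_sum, Matrix.transpose_apply]
      refine Finset.sum_congr rfl fun b _ => Finset.sum_congr rfl fun b' _ =>
        Finset.sum_congr rfl fun b'' _ => ?_
      ring
    rw [e3, eps_det, eps_det, Matrix.det_transpose, hgd, hkd]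
    ring
  refine ⟨⟨fun t => 6 * M t 0 0 ^ 3 / (u 0 * v 0), fun t => (M t 0 0)⁻¹ • M t, fun t => ?_,
    fun t => ?_, fun i j i' j' i'' j'' => ?_⟩⟩
  · exact div_ne_zero (mul_ne_zero (by norm_num) (pow_ne_zero 3 (hM0 t))) (mul_ne_zero hu hv)
  · simp only [Matrix.smul_apply, smul_eq_mul]
    exact inv_mul_cancel₀ (hM0 t)
  · have huv : u 0 * v 0 ≠ 0 := mul_ne_zero hu hv
    have e : ∀ t, 6 * M t 0 0 ^ 3 / (u 0 * v 0) * (((M t 0 0)⁻¹ • M t) i j *
        ((M t 0 0)⁻¹ • M t) i' j' * ((M t 0 0)⁻¹ • M t) i'' j'') =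
        6 / (u 0 * v 0) * (M t i j * M t i' j' * M t i'' j'') := by
      intro t
      have := hM0 t
      simp only [Matrix.smul_apply, smul_eq_mul]
      field_simp
    rw [Finset.sum_congr rfl fun t _ => e t, ← Finset.mul_sum, div_mul_eq_mul_div, key,
      mul_div_cancel_left₀ _ huv]

/-- Drop the zero forms and use `polar`, `dat_of`. -/
theorem exists_dat {r : ℕ} {l : Fin r → Matrix (Fin 3) (Fin 3) ℂ}
    (h : ∀ x : Matrix (Fin 3) (Fin 3) ℂ, x.det = ∑ t, (∑ i, ∑ j, l t i j * x i j) ^ 3) :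
    ∃ s, s ≤ r ∧ Nonempty (Dat s) := by
  classical
  let e := (Fintype.equivFin {t // l t ≠ 0}).symm
  refine ⟨Fintype.card {t // l t ≠ 0}, ?_, ?_⟩
  · exact (Fintype.card_subtype_le _).trans (Fintype.card_fin r).le
  · refine dat_of (l := fun b => l (e b).1) (fun b => (e b).2) fun i j i' j' i'' j'' => ?_
    have hd := polar h i j i' j' i'' j''
    have e1 : ∑ b, l (e b).1 i j * l (e b).1 i' j' * l (e b).1 i'' j'' =
        ∑ t, l t i j * l t i' j' * l t i'' j'' := by
      rw [Equiv.sum_comp e (fun t : {t // l t ≠ 0} => l t.1 i j * l t.1 i' j' * l t.1 i'' j'')]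
      rw [← Finset.sum_subtype (Finset.univ.filter fun t => l t ≠ 0) (fun t => by simp)
        (fun t => l t i j * l t i' j' * l t i'' j'')]
      refine Finset.sum_filter_of_ne fun t _ ht h0 => ht ?_
      rw [h0]
      simp
    rw [e1]
    exact hd

end Pool.Agent.Helper36.WR
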