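import Pool.Agent.Helper36.WR.Ln

set_option autoImplicit false
set_option linter.unusedSimpArgs false

/-!
Translations.
-/

namespace Pool.Agent.Helper36.WR

namespace Dat

variable {r : ℕ}

/-- The translated decomposition. -/
noncomputable def tl (D : Dat r) (x y s t : ℂ) : Dat r :=
  D.tf x y s t 1 0 0 1 1 0 0 1 (by ring)

section

variable (D : Dat r) (x y s t : ℂ) (a : Fin r)

theorem tl_X : (D.tl x y s t).X a = x + D.X a := by rw [tl, tf_X]; ring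
theorem tl_Y : (D.tl x y s t).Y a = y + D.Y a := by rw [tl, tf_Y]; ring
theorem tl_S : (D.tl x y s t).S a = s + D.S a := by rw [tl, tf_S]; ring
theorem tl_T : (D.tl x y s t).T a = t + D.T a := by rw [tl, tf_T]; ring
theorem tl_N11 : (D.tl x y s t).N11 a = x * (s + D.S a) + s * D.X a + D.N11 a := by
  rw [tl, tf_N11]; ring
theorem tl_N12 : (D.tl x y s t).N12 a = x * (t + D.T a) + t * D.X a + D.N12 a := by
  rw [tl, tf_N12]; ring
theorem tl_N21 : (D.tl x y s t).N21 a = y * (s + D.S a) + s * D.Y a + D.N21 a := by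
  rw [tl, tf_N21]; ring
theorem tl_N22 : (D.tl x y s t).N22 a = y * (t + D.T a) + t * D.Y a + D.N22 a := by
  rw [tl, tf_N22]; ring

/-- Affine functions for the new coordinates. -/
theorem inA_tl {f : Fin r → ℂ} {c0 c1 c2 c3 c4 : ℂ}
    (hf : ∀ a, f a = c0 + c1 * D.X a + c2 * D.Y a + c3 * D.S a + c4 * D.T a) :
    (D.tl x y s t).inA f := by
  refine ⟨c0 - c1 * x - c2 * y - c3 * s - c4 * t, c1, c2, c3, c4, fun a => ?_⟩
  rw [hf a, tl_X, tl_Y, tl_S, tl_T]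
  ring

end

theorem NF.tl {D : Dat r} (hN : NF D) (x y s t : ℂ) : NF (D.tl x y s t) := by
  obtain ⟨o0, o1, o2, o3, o4, ho⟩ := hN.h
  obtain ⟨p0, p1, p2, p3, p4, hp⟩ := hN.xx
  obtain ⟨q0, q1, q2, q3, q4, hq⟩ := hN.xy
  obtain ⟨u0, u1, u2, u3, u4, hu⟩ := hN.yy
  obtain ⟨v0, v1, v2, v3, v4, hv⟩ := hN.ss
  obtain ⟨w0, w1, w2, w3, w4, hw⟩ := hN.st
  obtain ⟨z0, z1, z2, z3, z4, hz⟩ := hN.tt
  simp only [XX, XY, YY, SS, ST, TT, B11, B12, B21, B22] at ho hp hq hu hv hw hz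
  refine ⟨?_, ?_, ?_, ?_, ?_, ?_, ?_⟩
  · refine D.inA_tl x y s t (c0 := o0 + 1 * (2 * x * t) + (-1) * (2 * y * s)) (c1 := o1 + 1 * (2 * t))
      (c2 := o2 + (-1) * (2 * s)) (c3 := o3 + (-1) * (2 * y)) (c4 := o4 + 1 * (2 * x)) fun a => ?_
    simp only [XX, XY, YY, SS, ST, TT, B11, B12, B21, B22, tl_X, tl_Y, tl_S, tl_T, tl_N11,
      tl_N12, tl_N21, tl_N22]
    linear_combination ho a
  · refine D.inA_tl x y s t (c0 := p0 + 1 * (x ^ 2) + (-1) * (2 * x * t)) (c1 := p1 + 1 * (2 * x) + (-1) * (2 * t))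
      (c2 := p2) (c3 := p3) (c4 := p4 + (-1) * (2 * x)) fun a => ?_
    simp only [XX, XY, YY, SS, ST, TT, B11, B12, B21, B22, tl_X, tl_Y, tl_S, tl_T, tl_N11,
      tl_N12, tl_N21, tl_N22]
    linear_combination hp a
  · refine D.inA_tl x y s t (c0 := q0 + 1 * (x * y) + 1 / 2 * (2 * y * t)) (c1 := q1 + 1 * (y))
      (c2 := q2 + 1 * (x) + 1 / 2 * (2 * t)) (c3 := q3) (c4 := q4 + 1 / 2 * (2 * y)) fun a => ?_
    simp only [XX, XY, YY, SS, ST, TT, B11, B12, B21, B22, tl_X, tl_Y, tl_S, tl_T, tl_N11,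
      tl_N12, tl_N21, tl_N22]
    linear_combination hq a
  · refine D.inA_tl x y s t (c0 := u0 + 1 * (y ^ 2) + 2 * (2 * x * s)) (c1 := u1 + 2 * (2 * s))
      (c2 := u2 + 1 * (2 * y)) (c3 := u3 + 2 * (2 * x)) (c4 := u4) fun a => ?_
    simp only [XX, XY, YY, SS, ST, TT, B11, B12, B21, B22, tl_X, tl_Y, tl_S, tl_T, tl_N11,
      tl_N12, tl_N21, tl_N22]
    linear_combination hu a
  · refine D.inA_tl x y s t (c0 := v0 + 1 * (s ^ 2) + (-(1 / 4)) * (2 * y * t)) (c1 := v1)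
      (c2 := v2 + (-(1 / 4)) * (2 * t)) (c3 := v3 + 1 * (2 * s)) (c4 := v4 + (-(1 / 4)) * (2 * y)) fun a => ?_
    simp only [XX, XY, YY, SS, ST, TT, B11, B12, B21, B22, tl_X, tl_Y, tl_S, tl_T, tl_N11,
      tl_N12, tl_N21, tl_N22]
    linear_combination hv a
  · refine D.inA_tl x y s t (c0 := w0 + 1 * (s * t) + 1 / 2 * (2 * x * s)) (c1 := w1 + 1 / 2 * (2 * s))
      (c2 := w2) (c3 := w3 + 1 * (t) + 1 / 2 * (2 * x)) (c4 := w4 + 1 * (s)) fun a => ?_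
    simp only [XX, XY, YY, SS, ST, TT, B11, B12, B21, B22, tl_X, tl_Y, tl_S, tl_T, tl_N11,
      tl_N12, tl_N21, tl_N22]
    linear_combination hw a
  · refine D.inA_tl x y s t (c0 := z0 + 1 * (t ^ 2) + (-1) * (2 * x * t)) (c1 := z1 + (-1) * (2 * t))
      (c2 := z2) (c3 := z3) (c4 := z4 + 1 * (2 * t) + (-1) * (2 * x)) fun a => ?_
    simp only [XX, XY, YY, SS, ST, TT, B11, B12, B21, B22, tl_X, tl_Y, tl_S, tl_T, tl_N11,
      tl_N12, tl_N21, tl_N22]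
    linear_combination hz a

theorem Rel.tl {D : Dat r} {l10 l11 l12 l13 l14 l20 l21 l22 l23 l24 l30 l31 l32 l33 l34 l40 l41 l42 l43 l44 l50 l51 l52 l53 l54 l60 l61 l62 l63 l64 l70 l71 l72 l73 l74 : ℂ}
    (h : Rel D l10 l11 l12 l13 l14 l20 l21 l22 l23 l24 l30 l31 l32 l33 l34 l40 l41 l42 l43 l44 l50 l51 l52 l53 l54 l60 l61 l62 l63 l64 l70 l71 l72 l73 l74) (x y s t : ℂ) :
    Rel (D.tl x y s t) (l10 + t ^ 2 - x ^ 2 - (l11 - 2 * x) * x - (l12) * y - (l13) * s - (l14 + 2 * t) * t)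
      (l11 - 2 * x)
      (l12)
      (l13)
      (l14 + 2 * t)
      (l20 + x * y + 2 * s ^ 2 - (l21 + y) * x - (l22 + x) * y - (l23 + 4 * s) * s - (l24) * t)
      (l21 + y)
      (l22 + x)
      (l23 + 4 * s)
      (l24)
      (l30 + y ^ 2 - 4 * s * t - (l31) * x - (l32 + 2 * y) * y - (l33 - 4 * t) * s - (l34 - 4 * s) * t)
      (l31)
      (l32 + 2 * y)
      (l33 - 4 * t)
      (l34 - 4 * s)
      (l40 + 2 * x * s + 2 * s * t - (l41 + 2 * s) * x - (l42) * y - (l43 + 2 * x + 2 * t) * s - (l44 + 2 * s) * t)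
      (l41 + 2 * s)
      (l42)
      (l43 + 2 * x + 2 * t)
      (l44 + 2 * s)
      (l50 + 2 * x * t - x ^ 2 - (l51 + 2 * t - 2 * x) * x - (l52) * y - (l53) * s - (l54 + 2 * x) * t)
      (l51 + 2 * t - 2 * x)
      (l52)
      (l53)
      (l54 + 2 * x)
      (l60 + 2 * y * s - x ^ 2 - (l61 - 2 * x) * x - (l62 + 2 * s) * y - (l63 + 2 * y) * s - (l64) * t)
      (l61 - 2 * x)
      (l62 + 2 * s)
      (l63 + 2 * y)
      (l64)
      (l70 + 2 * y * t - 4 * s ^ 2 - (l71) * x - (l72 + 2 * t) * y - (l73 - 8 * s) * s - (l74 + 2 * y) * t)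
      (l71)
      (l72 + 2 * t)
      (l73 - 8 * s)
      (l74 + 2 * y) := by
  obtain ⟨htt, hxy, hyy, h11, h12, h21, h22⟩ := h
  refine ⟨fun a => ?_, fun a => ?_, fun a => ?_, fun a => ?_, fun a => ?_, fun a => ?_, fun a => ?_⟩
    <;> simp only [tl_X, tl_Y, tl_S, tl_T, tl_N11, tl_N12, tl_N21, tl_N22]
  · linear_combination htt a
  · linear_combination hxy a
  · linear_combination hyy a
  · linear_combination h11 a
  · linear_combination h12 a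
  · linear_combination h21 a
  · linear_combination h22 a

/-- The relations with constant remainders. -/
structure CF (D : Dat r) (c1 c2 c3 c4 c5 c6 c7 : ℂ) : Prop where
  tt : ∀ a, D.T a ^ 2 = D.X a ^ 2 + c1
  xy : ∀ a, D.X a * D.Y a = -2 * D.S a ^ 2 + c2
  yy : ∀ a, D.Y a ^ 2 = 4 * (D.S a * D.T a) + c3
  n11 : ∀ a, D.N11 a = -(D.X a * D.S a) - 2 * (D.S a * D.T a) + c4
  n12 : ∀ a, D.N12 a = D.X a ^ 2 - D.X a * D.T a + c5
  n21 : ∀ a, D.N21 a = D.X a ^ 2 - D.Y a * D.S a + c6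
  n22 : ∀ a, D.N22 a = 4 * D.S a ^ 2 - D.Y a * D.T a + c7

/-- Constant remainders. -/
theorem Rel.toCF {D : Dat r} {l10 l11 l12 l13 l14 l20 l21 l22 l23 l24 l30 l31 l32 l33 l34 l40 l41 l42 l43 l44 l50 l51 l52 l53 l54 l60 l61 l62 l63 l64 l70 l71 l72 l73 l74 : ℂ}
    (h : Rel D l10 l11 l12 l13 l14 l20 l21 l22 l23 l24 l30 l31 l32 l33 l34 l40 l41 l42 l43 l44 l50 l51 l52 l53 l54 l60 l61 l62 l63 l64 l70 l71 l72 l73 l74)
    (n32 : l32 = 0) (n33 : l33 = 0) (n34 : l34 = 0) (n43 : l43 = 0) :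
    CF D l10 l20 l30 l40 l50 l60 l70 := by
  obtain ⟨z11, z12, z13, z14, z21, z22, z23, z24, z31, z41, z42, z44, z51, z52, z53, z54,
    z61, z62, z63, z64, z71, z72, z73, z74⟩ := h.lin_zero n32 n33 n34 n43
  obtain ⟨htt, hxy, hyy, h11, h12, h21, h22⟩ := h
  refine ⟨fun a => ?_, fun a => ?_, fun a => ?_, fun a => ?_, fun a => ?_, fun a => ?_,
    fun a => ?_⟩
  · rw [htt a, z11, z12, z13, z14]; ring
  · rw [hxy a, z21, z22, z23, z24]; ring
  · rw [hyy a, z31, n32, n33, n34]; ring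
  · rw [h11 a, z41, z42, n43, z44]; ring
  · rw [h12 a, z51, z52, z53, z54]; ring
  · rw [h21 a, z61, z62, z63, z64]; ring
  · rw [h22 a, z71, z72, z73, z74]; ring

/-- After a translation the remainders are constant. -/
theorem exists_CF {D : Dat r} (hN : NF D) : ∃ D' : Dat r, NF D' ∧
    ∃ c1 c2 c3 c4 c5 c6 c7 : ℂ, CF D' c1 c2 c3 c4 c5 c6 c7 := by
  obtain ⟨l10, l11, l12, l13, l14, l20, l21, l22, l23, l24, l30, l31, l32, l33, l34, l40, l41, l42, l43, l44, l50, l51, l52, l53, l54, l60, l61, l62, l63, l64, l70, l71, l72, l73, l74, h⟩ := exists_Rel hN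
  have h' := h.tl (-(l43 / 2) - l33 / 4) (-(l32 / 2)) (l34 / 4) (l33 / 4)
  exact ⟨_, NF.tl hN (-(l43 / 2) - l33 / 4) (-(l32 / 2)) (l34 / 4) (l33 / 4), _, _, _, _, _, _, _,
    h'.toCF (by ring) (by ring) (by ring) (by ring)⟩

end Dat

end Pool.Agent.Helper36.WR
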