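import Mathlib

set_option autoImplicit false

/-!
The upper bound: eighteen cubes.
-/

namespace Pool.Agent.Helper36.WR

open Finset

private theorem up_root : ∃ w : ℂ, w ^ 2 + w + 1 = 0 := by
  obtain ⟨z, hz⟩ := IsAlgClosed.exists_pow_nat_eq (-3 : ℂ) (n := 2) (by norm_num)
  exact ⟨(-1 + z) / 2, by linear_combination (1 / 4 : ℂ) * hz⟩

private theorem up_cubes (x : Matrix (Fin 3) (Fin 3) ℂ) (j : Fin 3) :
    ∑ σ : Equiv.Perm (Fin 3), ((Equiv.Perm.sign σ : ℤ) : ℂ) * x (σ j) j ^ 3 = 0 := by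
  have h1 : (Matrix.of fun i k => if k = j then x i j ^ 3 else 1 :
      Matrix (Fin 3) (Fin 3) ℂ).det = 0 := by
    rw [Matrix.det_fin_three]
    fin_cases j <;> simp
  rw [Matrix.det_apply'] at h1
  rw [← h1]
  refine Finset.sum_congr rfl fun σ _ => ?_
  congr 1
  rw [Finset.prod_eq_single j]
  · simp
  · intro b _ hb
    simp [hb]
  · intro h
    exact absurd (Finset.mem_univ j) h

/-- With `w² + w + 1 = 0`: `det x = 1 / (18 w) ∑_σ sgn σ ∑_k (∑_j (w if j = k else 1) x (σ j) j)³`.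
(`x³`: `w³ + 1 + 1 = 3` and the signs cancel for fixed `(σ j, j)`; `x² y`: `w² + w + 1 = 0`; `x y z`: `18 w`.)
The scalars are cubes in `ℂ`. So the determinant is a sum of `18` cubes of linear forms. Index the
`18` forms by `Equiv.Perm (Fin 3) × Fin 3` or by an explicit list. -/
theorem upper : ∃ l : Fin 18 → Matrix (Fin 3) (Fin 3) ℂ, ∀ x : Matrix (Fin 3) (Fin 3) ℂ,
    x.det = ∑ t, (∑ i, ∑ j, l t i j * x i j) ^ 3 := by
  classical
  obtain ⟨w, hw⟩ := up_root
  have hw0 : w ≠ 0 := by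
    rintro rfl
    norm_num at hw
  have hc : ∀ σ : Equiv.Perm (Fin 3), ∃ c : ℂ, c ^ 3 = ((Equiv.Perm.sign σ : ℤ) : ℂ) / (18 * w) :=
    fun σ => IsAlgClosed.exists_pow_nat_eq _ (by norm_num)
  choose c hc using hc
  have hcard : Fintype.card (Equiv.Perm (Fin 3) × Fin 3) = 18 := by
    rw [Fintype.card_prod, Fintype.card_perm, Fintype.card_fin]
    rfl
  let e : Equiv.Perm (Fin 3) × Fin 3 ≃ Fin 18 := Fintype.equivFinOfCardEq hcard
  refine ⟨fun t i j => if i = (e.symm t).1 j then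
    c (e.symm t).1 * (if j = (e.symm t).2 then w else 1) else 0, fun x => ?_⟩
  rw [← Equiv.sum_comp e]
  simp only [Equiv.symm_apply_apply]
  rw [Fintype.sum_prod_type]
  have h1 : ∀ (σ : Equiv.Perm (Fin 3)) (k : Fin 3),
      (∑ i, ∑ j, (if i = σ j then c σ * (if j = k then w else 1) else 0) * x i j) =
        c σ * ∑ j, (if j = k then w else 1) * x (σ j) j := by
    intro σ k
    rw [Finset.sum_comm, Finset.mul_sum]
    refine Finset.sum_congr rfl fun j _ => ?_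
    rw [Finset.sum_eq_single (σ j)]
    · rw [if_pos rfl, mul_assoc]
    · intro i _ hi
      rw [if_neg hi, zero_mul]
    · intro h
      exact absurd (Finset.mem_univ _) h
  simp only [h1, mul_pow, hc]
  have h2 : ∀ a b d : ℂ, (w * a + b + d) ^ 3 + (a + w * b + d) ^ 3 + (a + b + w * d) ^ 3 =
      18 * w * (a * b * d) + 3 * (a ^ 3 + b ^ 3 + d ^ 3) := by
    intro a b d
    linear_combination (a ^ 3 * (w - 1) + b ^ 3 * (w - 1) + d ^ 3 * (w - 1) + 3 * a ^ 2 * b +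
      3 * a ^ 2 * d + 3 * b ^ 2 * a + 3 * b ^ 2 * d + 3 * d ^ 2 * a + 3 * d ^ 2 * b) * hw
  have h3 : ∀ σ : Equiv.Perm (Fin 3), ∑ k, ((Equiv.Perm.sign σ : ℤ) : ℂ) / (18 * w) *
      (∑ j, (if j = k then w else 1) * x (σ j) j) ^ 3 =
        ((Equiv.Perm.sign σ : ℤ) : ℂ) * ∏ j, x (σ j) j +
        (1 / (6 * w)) * (((Equiv.Perm.sign σ : ℤ) : ℂ) * x (σ 0) 0 ^ 3 +
          ((Equiv.Perm.sign σ : ℤ) : ℂ) * x (σ 1) 1 ^ 3 +
          ((Equiv.Perm.sign σ : ℤ) : ℂ) * x (σ 2) 2 ^ 3) := by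
    intro σ
    have h4 := h2 (x (σ 0) 0) (x (σ 1) 1) (x (σ 2) 2)
    simp only [Fin.sum_univ_three, Fin.prod_univ_three]
    simp only [Fin.isValue, if_true, one_mul, Fin.reduceEq, if_false]
    rw [← mul_add, ← mul_add, h4]
    field_simp
    ring
  rw [Finset.sum_congr rfl fun σ _ => h3 σ, Finset.sum_add_distrib, ← Finset.mul_sum,
    Finset.sum_add_distrib, Finset.sum_add_distrib, up_cubes, up_cubes, up_cubes, add_zero,
    add_zero, mul_zero, add_zero, Matrix.det_apply']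

end Pool.Agent.Helper36.WR
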